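import Mathlib

/-!
# Project RO: abc triples ordered by the radical. Definitions and basic facts.
-/

set_option autoImplicit false

open Finset

namespace Pool.Agent.Helper42.RO

/-- The radical of `n`. -/
def rad (n : ℕ) : ℕ := ∏ p ∈ n.primeFactors, p

/-- The part of `n` supported on the prime divisors of `m`. -/
def part (m n : ℕ) : ℕ := ∏ p ∈ m.primeFactors, p ^ n.factorization p

/-- The product `a b (a + b)` of the pair `t = (a, b)`. -/
def T (t : ℕ × ℕ) : ℕ := t.1 * t.2 * (t.1 + t.2)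

/-- The largest entry `c = a + b` as a real number. -/
noncomputable def c (t : ℕ × ℕ) : ℝ := ((t.1 + t.2 : ℕ) : ℝ)

/-- Coprime pairs of positive integers. -/
structure Cop (t : ℕ × ℕ) : Prop where
  pos1 : 0 < t.1
  pos2 : 0 < t.2
  cop : t.1.Coprime t.2

lemma Cop.T_ne {t : ℕ × ℕ} (h : Cop t) : T t ≠ 0 := by
  have h1 := h.pos1
  have h2 := h.pos2
  unfold T
  positivity

lemma Cop.T_pos {t : ℕ × ℕ} (h : Cop t) : 0 < T t := Nat.pos_of_ne_zero h.T_ne

lemma Cop.two_le_c {t : ℕ × ℕ} (h : Cop t) : 2 ≤ c t := by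
  have h1 := h.pos1
  have h2 := h.pos2
  unfold c
  exact_mod_cast (by omega : 2 ≤ t.1 + t.2)

lemma Cop.c_pos {t : ℕ × ℕ} (h : Cop t) : 0 < c t := lt_of_lt_of_le (by norm_num) h.two_le_c

lemma Cop.log_c_pos {t : ℕ × ℕ} (h : Cop t) : 0 < Real.log (c t) :=
  Real.log_pos (lt_of_lt_of_le (by norm_num) h.two_le_c)

lemma Cop.cop1 {t : ℕ × ℕ} (h : Cop t) : t.1.Coprime (t.1 + t.2) := by
  rw [Nat.coprime_self_add_right]
  exact h.cop

lemma Cop.cop2 {t : ℕ × ℕ} (h : Cop t) : t.2.Coprime (t.1 + t.2) := by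
  rw [Nat.coprime_add_self_right]
  exact h.cop.symm

lemma rad_pos (n : ℕ) : 0 < rad n :=
  Finset.prod_pos fun _ hp => (Nat.prime_of_mem_primeFactors hp).pos

lemma primeFactors_prod_id {A : Finset ℕ} (hA : ∀ p ∈ A, p.Prime) :
    (∏ p ∈ A, p).primeFactors = A := Nat.primeFactors_prod hA

lemma rad_primeFactors (n : ℕ) : (rad n).primeFactors = n.primeFactors :=
  Nat.primeFactors_prod fun _ hp => Nat.prime_of_mem_primeFactors hp

lemma prod_dvd_of_subset {A B : Finset ℕ} (h : A ⊆ B) : (∏ p ∈ A, p) ∣ ∏ p ∈ B, p :=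
  Finset.prod_dvd_prod_of_subset _ _ _ h

lemma squarefree_prod_primes {A : Finset ℕ} (hA : ∀ p ∈ A, p.Prime) :
    Squarefree (∏ p ∈ A, p) := by
  classical
  induction A using Finset.induction_on with
  | empty => simp
  | insert a s ha ih =>
    rw [Finset.prod_insert ha]
    have hs : ∀ p ∈ s, p.Prime := fun p hp => hA p (Finset.mem_insert_of_mem hp)
    have hc : a.Coprime (∏ p ∈ s, p) := by
      apply Nat.Coprime.prod_right
      intro p hp
      rw [Nat.coprime_primes (hA a (Finset.mem_insert_self _ _)) (hs p hp)]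
      rintro rfl
      exact ha hp
    rw [Nat.squarefree_mul hc]
    exact ⟨(hA a (Finset.mem_insert_self _ _)).squarefree, ih hs⟩

lemma rad_squarefree (n : ℕ) : Squarefree (rad n) :=
  squarefree_prod_primes fun _ hp => Nat.prime_of_mem_primeFactors hp

lemma rad_of_squarefree {n : ℕ} (h : Squarefree n) : rad n = n :=
  Nat.prod_primeFactors_of_squarefree h

lemma part_pos (m n : ℕ) : 0 < part m n :=
  Finset.prod_pos fun _ hp => pow_pos (Nat.prime_of_mem_primeFactors hp).pos _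

lemma part_self {n : ℕ} (hn : n ≠ 0) : part (rad n) n = n := by
  unfold part
  rw [rad_primeFactors]
  exact Nat.prod_factorization_pow_eq_self hn

lemma part_mul {m m' n : ℕ} (h : m.Coprime m') : part (m * m') n = part m n * part m' n := by
  unfold part
  rw [h.primeFactors_mul, Finset.prod_union h.disjoint_primeFactors]

lemma part_prod {A : Finset ℕ} (hA : ∀ p ∈ A, p.Prime) (n : ℕ) :
    part (∏ p ∈ A, p) n = ∏ p ∈ A, p ^ n.factorization p := by
  unfold part
  rw [primeFactors_prod_id hA]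

/-- If the radical of `n` factors as `m * n1`, then `n` is the product of its parts. -/
lemma part_mul_part {n m n1 : ℕ} (hn : n ≠ 0) (h : rad n = m * n1) :
    part m n * part n1 n = n := by
  have hsq := rad_squarefree n
  rw [h] at hsq
  have hc : m.Coprime n1 := Nat.coprime_of_squarefree_mul hsq
  rw [← part_mul hc, ← h, part_self hn]

lemma mem_primeFactors_T {t : ℕ × ℕ} (h : Cop t) {p : ℕ} (hp : p.Prime) :
    p ∈ (T t).primeFactors ↔ p ∣ t.1 ∨ p ∣ t.2 ∨ p ∣ t.1 + t.2 := by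
  rw [Nat.mem_primeFactors]
  unfold T
  constructor
  · rintro ⟨_, h2, _⟩
    rcases (Nat.Prime.dvd_mul hp).1 h2 with h3 | h3
    · rcases (Nat.Prime.dvd_mul hp).1 h3 with h4 | h4
      · exact Or.inl h4
      · exact Or.inr (Or.inl h4)
    · exact Or.inr (Or.inr h3)
  · intro h2
    refine ⟨hp, ?_, h.T_ne⟩
    rcases h2 with h3 | h3 | h3
    · exact Dvd.dvd.mul_right (Dvd.dvd.mul_right h3 _) _
    · exact Dvd.dvd.mul_right (Dvd.dvd.mul_left h3 _) _
    · exact Dvd.dvd.mul_left h3 _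

lemma T_le_c_cube {t : ℕ × ℕ} : ((T t : ℕ) : ℝ) ≤ (c t) ^ 3 := by
  unfold T c
  push_cast
  have h1 : (0 : ℝ) ≤ t.1 := Nat.cast_nonneg _
  have h2 : (0 : ℝ) ≤ t.2 := Nat.cast_nonneg _
  nlinarith [mul_nonneg h1 h2, mul_nonneg (mul_nonneg h1 h2) h1, mul_nonneg (mul_nonneg h1 h2) h2,
    pow_nonneg h1 3, pow_nonneg h2 3, mul_nonneg (mul_nonneg h1 h1) h2]

lemma log_T_le {t : ℕ × ℕ} (h : Cop t) : Real.log (T t) ≤ 3 * Real.log (c t) := by
  have h1 : (0 : ℝ) < (T t : ℕ) := by exact_mod_cast h.T_pos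
  have h2 := Real.log_le_log h1 (T_le_c_cube (t := t))
  rw [Real.log_pow] at h2
  simpa using h2

end Pool.Agent.Helper42.RO
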