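import Mathlib
import Pool.Agent.Helper42.RO.Defs

set_option autoImplicit false

open Finset

namespace Pool.Agent.Helper42.RO

private lemma geom_aux (n : ℕ) : ∑ j ∈ range n, 2 ^ j + 1 = 2 ^ n := by
  induction n with
  | zero => simp
  | succ n ih =>
    rw [Finset.sum_range_succ, pow_succ]
    omega

private lemma geom_aux2 (K f : ℕ) : ∑ j ∈ range (K + 1), 2 ^ (K - j + f) ≤ 2 ^ (K + (f + 1)) := by
  have h1 : ∑ j ∈ range (K + 1), 2 ^ (K - j + f) = (∑ j ∈ range (K + 1), 2 ^ j) * 2 ^ f := by
    rw [← Finset.sum_range_reflect (fun j => 2 ^ j), Finset.sum_mul]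
    apply Finset.sum_congr rfl
    intro j _
    rw [pow_add]
    simp
  rw [h1]
  have h2 := geom_aux (K + 1)
  have h3 : K + (f + 1) = (K + 1) + f := by ring
  rw [h3, pow_add]
  apply Nat.mul_le_mul_right
  omega

/-- RO-A1a. Stars and bars: a family of nonnegative integer vectors with coordinate sum at most
`K`, which are determined by their coordinates in `F`, has at most `2 ^ (K + |F|)` members.
PROOF: induction on `F` (for all `K` and `S`). Insert `i0`: split `S` according to the value
`j = k a i0 ≤ K`; the fibre has at most `2 ^ (K - j + |F'|)` members (remaining sum `≤ K - j`), and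
`∑ j ∈ range (K + 1), 2 ^ (K - j + |F'|) ≤ 2 ^ (K + |F'| + 1)`. Empty `F`: `S` has at most one
member. -/
theorem card_le_of_sum_le {α ι : Type*} [DecidableEq ι] (F : Finset ι) (K : ℕ) (S : Finset α)
    (k : α → ι → ℕ) (h1 : ∀ a ∈ S, ∑ i ∈ F, k a i ≤ K)
    (h2 : ∀ a ∈ S, ∀ b ∈ S, (∀ i ∈ F, k a i = k b i) → a = b) :
    S.card ≤ 2 ^ (K + F.card) := by
  induction F using Finset.induction_on generalizing K S with
  | empty =>
    have h3 : S.card ≤ 1 := by
      rw [Finset.card_le_one]
      intro a ha b hb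
      exact h2 a ha b hb (by simp)
    exact h3.trans (Nat.one_le_two_pow)
  | insert i0 F' hi ih =>
    have hle : ∀ a ∈ S, k a i0 ∈ range (K + 1) := by
      intro a ha
      have := h1 a ha
      rw [Finset.sum_insert hi] at this
      rw [Finset.mem_range]
      omega
    rw [Finset.card_eq_sum_card_fiberwise hle, Finset.card_insert_of_notMem hi]
    refine le_trans (Finset.sum_le_sum ?_) (geom_aux2 K F'.card)
    intro j hj
    apply ih
    · intro a ha
      rw [Finset.mem_filter] at ha
      have := h1 a ha.1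
      rw [Finset.sum_insert hi, ha.2] at this
      omega
    · intro a ha b hb hab
      rw [Finset.mem_filter] at ha hb
      apply h2 a ha.1 b hb.1
      intro i hii
      rcases Finset.mem_insert.1 hii with rfl | h
      · rw [ha.2, hb.2]
      · exact hab i h

/-- RO-A1b. Two different coprime pairs have nonzero determinant. -/
theorem det_ne {t t' : ℕ × ℕ} (ht : Cop t) (ht' : Cop t') (hne : t ≠ t') :
    (t.1 : ℤ) * t'.2 - t'.1 * t.2 ≠ 0 := by
  intro h
  have h1 : t.1 * t'.2 = t'.1 * t.2 := by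
    have h2 : (t.1 : ℤ) * t'.2 = t'.1 * t.2 := by linarith
    exact_mod_cast h2
  have h3 : t.1 ∣ t'.1 := by
    have : t.1 ∣ t'.1 * t.2 := ⟨t'.2, h1.symm⟩
    exact ht.cop.dvd_of_dvd_mul_right this
  have h4 : t'.1 ∣ t.1 := by
    have : t'.1 ∣ t.1 * t'.2 := ⟨t.2, h1⟩
    exact ht'.cop.dvd_of_dvd_mul_right this
  have h5 : t.1 = t'.1 := Nat.dvd_antisymm h3 h4
  rw [h5] at h1
  have h6 : t'.2 = t.2 := Nat.eq_of_mul_eq_mul_left ht'.pos1 h1
  exact hne (Prod.ext h5 h6.symm)

private lemma fac_T {t : ℕ × ℕ} (ht : Cop t) (p : ℕ) :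
    (T t).factorization p = t.1.factorization p + t.2.factorization p
      + (t.1 + t.2).factorization p := by
  have h1 := ht.pos1
  have h2 := ht.pos2
  unfold T
  rw [Nat.factorization_mul (by positivity) (by positivity),
    Nat.factorization_mul (by positivity) (by positivity)]
  simp

private lemma pow_dvd_det {t t' : ℕ × ℕ} (ht : Cop t) (ht' : Cop t') {p : ℕ} (hp : p.Prime)
    (hl : (p ∣ t.1 ↔ p ∣ t'.1) ∧ (p ∣ t.2 ↔ p ∣ t'.2) ∧
      (p ∣ t.1 + t.2 ↔ p ∣ t'.1 + t'.2)) :
    ((p ^ (min ((T t).factorization p) ((T t').factorization p)) : ℕ) : ℤ) ∣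
      (t.1 : ℤ) * t'.2 - t'.1 * t.2 := by
  have key : ∀ {a b : ℕ}, a.Coprime b → p ∣ a → ¬ p ∣ b := by
    intro a b hab ha hb
    exact hp.one_lt.ne' (Nat.eq_one_of_dvd_coprimes hab ha hb)
  have hz : ∀ {a : ℕ}, ¬ p ∣ a → a.factorization p = 0 := by
    intro a ha
    exact Nat.factorization_eq_zero_of_not_dvd ha
  have hd : ∀ {a b : ℕ} (m : ℕ), m ≤ a.factorization p → ((p ^ m : ℕ) : ℤ) ∣ (a : ℤ) := by
    intro a b m hm
    have : p ^ m ∣ a := (pow_dvd_pow p hm).trans (Nat.ordProj_dvd a p)
    exact_mod_cast this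
  rw [fac_T ht, fac_T ht']
  by_cases ha : p ∣ t.1
  · have ha' := hl.1.1 ha
    rw [hz (key ht.cop ha), hz (key ht.cop1 ha), hz (key ht'.cop ha'), hz (key ht'.cop1 ha')]
    simp only [add_zero]
    have e1 := hd (a := t.1) (b := 0) _ (min_le_left (t.1.factorization p) (t'.1.factorization p))
    have e2 := hd (a := t'.1) (b := 0) _ (min_le_right (t.1.factorization p) (t'.1.factorization p))
    exact dvd_sub (Dvd.dvd.mul_right e1 _) (Dvd.dvd.mul_right e2 _)
  · have ha' : ¬ p ∣ t'.1 := fun h => ha (hl.1.2 h)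
    rw [hz ha, hz ha']
    by_cases hb : p ∣ t.2
    · have hb' := hl.2.1.1 hb
      rw [hz (key ht.cop2 hb), hz (key ht'.cop2 hb')]
      simp only [add_zero, zero_add]
      have e1 := hd (a := t.2) (b := 0) _
        (min_le_left (t.2.factorization p) (t'.2.factorization p))
      have e2 := hd (a := t'.2) (b := 0) _
        (min_le_right (t.2.factorization p) (t'.2.factorization p))
      exact dvd_sub (Dvd.dvd.mul_left e2 _) (Dvd.dvd.mul_left e1 _)
    · have hb' : ¬ p ∣ t'.2 := fun h => hb (hl.2.1.2 h)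
      rw [hz hb, hz hb']
      simp only [zero_add]
      have e1 := hd (a := t.1 + t.2) (b := 0) _
        (min_le_left ((t.1 + t.2).factorization p) ((t'.1 + t'.2).factorization p))
      have e2 := hd (a := t'.1 + t'.2) (b := 0) _
        (min_le_right ((t.1 + t.2).factorization p) ((t'.1 + t'.2).factorization p))
      have e3 : (t.1 : ℤ) * t'.2 - t'.1 * t.2
          = (t.1 : ℤ) * ((t'.1 + t'.2 : ℕ) : ℤ) - t'.1 * ((t.1 + t.2 : ℕ) : ℤ) := by
        push_cast
        ring
      rw [e3]
      exact dvd_sub (Dvd.dvd.mul_left e2 _) (Dvd.dvd.mul_left e1 _)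

/-- RO-A1c. If every prime divisor of `m` divides the same entries of the two coprime pairs, then
`∏ p ^ min (v_p, v_p')` divides the determinant.
PROOF: the prime powers are pairwise coprime (`Finset.prod_dvd_of_coprime` or
`Finset.prod_primes_dvd` style; `Finset.prod_dvd_of_coprime` needs pairwise `IsCoprime`), so it
suffices that every `p ^ min` divides `D = a b' - a' b = a (a' + b') - a' (a + b)`
`= (a + b) b' - (a' + b') b`. If `p` divides none of the entries the exponent is `0`. If `p ∣ a`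
then `p ∣ a'`, and `p` divides no other entry (coprimality), so
`(T t).factorization p = t.1.factorization p`, `p ^ min` divides `a` and `a'`, hence `D`.
Similarly for `b` and for `a + b`. -/
theorem G_dvd (m : ℕ) {t t' : ℕ × ℕ} (ht : Cop t) (ht' : Cop t')
    (hl : ∀ p ∈ m.primeFactors, (p ∣ t.1 ↔ p ∣ t'.1) ∧ (p ∣ t.2 ↔ p ∣ t'.2) ∧
      (p ∣ t.1 + t.2 ↔ p ∣ t'.1 + t'.2)) :
    ((∏ p ∈ m.primeFactors, p ^ (min ((T t).factorization p) ((T t').factorization p)) : ℕ) : ℤ) ∣
      (t.1 : ℤ) * t'.2 - t'.1 * t.2 := by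
  rw [Nat.cast_prod]
  apply Finset.prod_dvd_of_coprime
  · intro p hp q hq hpq
    have hp' := Nat.prime_of_mem_primeFactors hp
    have hq' := Nat.prime_of_mem_primeFactors hq
    have : ((p ^ (min ((T t).factorization p) ((T t').factorization p)) : ℕ)).Coprime
        (q ^ (min ((T t).factorization q) ((T t').factorization q))) :=
      Nat.Coprime.pow _ _ ((Nat.coprime_primes hp' hq').2 hpq)
    exact Nat.isCoprime_iff_coprime.2 this
  · intro p hp
    exact pow_dvd_det ht ht' (Nat.prime_of_mem_primeFactors hp) (hl p hp)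

end Pool.Agent.Helper42.RO
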