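import Mathlib
import Pool.Agent.Helper42.RO.A1

set_option autoImplicit false

open Finset

namespace Pool.Agent.Helper42.RO

private theorem A2_log_part (m n : ℕ) :
    Real.log (part m n) = ∑ p ∈ m.primeFactors, (n.factorization p : ℝ) * Real.log p := by
  unfold part
  rw [Nat.cast_prod, Real.log_prod]
  · refine Finset.sum_congr rfl fun p _ => ?_
    rw [Nat.cast_pow, Real.log_pow]
  · intro p hp
    have h1 := (Nat.prime_of_mem_primeFactors hp).pos
    positivity

private theorem A2_sum_le (m : ℕ) {n : ℕ} (hn : n ≠ 0) :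
    ∑ p ∈ m.primeFactors, (n.factorization p : ℝ) * Real.log p ≤ Real.log n := by
  have h1 := A2_log_part (rad n) n
  rw [part_self hn, rad_primeFactors] at h1
  rw [h1]
  have h2 : ∑ p ∈ m.primeFactors, (n.factorization p : ℝ) * Real.log p =
      ∑ p ∈ m.primeFactors.filter (fun p => p ∈ n.primeFactors),
        (n.factorization p : ℝ) * Real.log p := by
    rw [Finset.sum_filter_of_ne]
    intro p _ hne
    by_contra hp
    rw [← Nat.support_factorization, Finsupp.notMem_support_iff] at hp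
    rw [hp] at hne
    simp at hne
  rw [h2]
  refine Finset.sum_le_sum_of_subset_of_nonneg (fun p hp => (Finset.mem_filter.1 hp).2) ?_
  intro p _ _
  exact mul_nonneg (Nat.cast_nonneg _) (Real.log_natCast_nonneg p)

private theorem A2_floor {x y z : ℝ} (hz : 0 < z) (hy : 0 ≤ y) (h : ⌊x / z⌋₊ = ⌊y / z⌋₊) :
    x ≤ y + z := by
  have h1 : x / z < (⌊x / z⌋₊ : ℝ) + 1 := Nat.lt_floor_add_one _
  have h2 : ((⌊y / z⌋₊ : ℕ) : ℝ) ≤ y / z := Nat.floor_le (div_nonneg hy hz.le)
  rw [h] at h1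
  have h3 : x / z < y / z + 1 := by linarith
  have h4 : y / z + 1 = (y + z) / z := by field_simp
  rw [h4] at h3
  exact ((div_lt_div_iff_of_pos_right hz).1 h3).le

private theorem A2_core {η ℓ : ℝ} {m s : ℕ} (h0 : 0 < η) (hℓ : 0 < ℓ) (hs : 1 ≤ s)
    (hs' : m.primeFactors.card ≤ s) {t t' : ℕ × ℕ} (ht : Cop t) (ht' : Cop t')
    (hc : ℓ < Real.log (c t)) (hp : (t.1 : ℝ) * t.2 * (c t) ^ η ≤ part m (T t))
    (hl : ∀ p ∈ m.primeFactors, (p ∣ t.1 ↔ p ∣ t'.1) ∧ (p ∣ t.2 ↔ p ∣ t'.2) ∧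
      (p ∣ t.1 + t.2 ↔ p ∣ t'.1 + t'.2))
    (hk : ∀ p ∈ m.primeFactors, ((T t).factorization p : ℝ) * Real.log p ≤
      ((T t').factorization p : ℝ) * Real.log p + η / 8 * ℓ / s)
    (ha : Real.log t'.1 ≤ Real.log t.1 + η / 8 * ℓ)
    (hb : Real.log t'.2 ≤ Real.log t.2 + η / 8 * ℓ) : t = t' := by
  by_contra hne
  have hs0 : (0 : ℝ) < s := by exact_mod_cast hs
  have hD := det_ne ht ht' hne
  have hG := G_dvd m ht ht' hl
  set G : ℕ := ∏ p ∈ m.primeFactors,
    p ^ (min ((T t).factorization p) ((T t').factorization p)) with hGdef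
  have hGpos : 0 < G := Finset.prod_pos fun p hp => pow_pos (Nat.prime_of_mem_primeFactors hp).pos _
  have hGle : (G : ℤ) ≤ |(t.1 : ℤ) * t'.2 - t'.1 * t.2| :=
    Int.le_of_dvd (abs_pos.2 hD) ((dvd_abs _ _).2 hG)
  have p1 : (0 : ℝ) < t.1 := by exact_mod_cast ht.pos1
  have p2 : (0 : ℝ) < t.2 := by exact_mod_cast ht.pos2
  have p1' : (0 : ℝ) < t'.1 := by exact_mod_cast ht'.pos1
  have p2' : (0 : ℝ) < t'.2 := by exact_mod_cast ht'.pos2
  have hGR : (G : ℝ) ≤ |(t.1 : ℝ) * t'.2 - t'.1 * t.2| := by exact_mod_cast hGle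
  have hlogD : Real.log G ≤ Real.log t.1 + Real.log t.2 + η / 8 * ℓ := by
    have hG0 : (0 : ℝ) < G := by exact_mod_cast hGpos
    have h1 : (G : ℝ) ≤ (t.1 : ℝ) * t'.2 ∨ (G : ℝ) ≤ (t'.1 : ℝ) * t.2 := by
      rcases abs_cases ((t.1 : ℝ) * t'.2 - t'.1 * t.2) with h | h
      · left
        have := mul_pos p1' p2
        linarith
      · right
        have := mul_pos p1 p2'
        linarith
    rcases h1 with h1 | h1
    · have h2 := Real.log_le_log hG0 h1
      rw [Real.log_mul p1.ne' p2'.ne'] at h2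
      linarith
    · have h2 := Real.log_le_log hG0 h1
      rw [Real.log_mul p1'.ne' p2.ne'] at h2
      linarith
  have hlogG : Real.log (part m (T t)) - η / 8 * ℓ ≤ Real.log G := by
    rw [A2_log_part, hGdef, Nat.cast_prod, Real.log_prod]
    · have h2 : ∑ p ∈ m.primeFactors, (((T t).factorization p : ℝ) * Real.log p -
          η / 8 * ℓ / s) ≤ ∑ p ∈ m.primeFactors, Real.log
          ((p ^ (min ((T t).factorization p) ((T t').factorization p)) : ℕ) : ℝ) := by
        refine Finset.sum_le_sum fun p hp => ?_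
        have hlp : 0 ≤ Real.log p := Real.log_natCast_nonneg p
        rw [Nat.cast_pow, Real.log_pow]
        rcases le_total ((T t).factorization p) ((T t').factorization p) with h | h
        · rw [min_eq_left h]
          have : 0 ≤ η / 8 * ℓ / s := by positivity
          linarith
        · rw [min_eq_right h]
          have := hk p hp
          linarith
      rw [Finset.sum_sub_distrib, Finset.sum_const, nsmul_eq_mul] at h2
      have h3 : (m.primeFactors.card : ℝ) * (η / 8 * ℓ / s) ≤ η / 8 * ℓ := by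
        have h4 : (m.primeFactors.card : ℝ) ≤ s := by exact_mod_cast hs'
        calc (m.primeFactors.card : ℝ) * (η / 8 * ℓ / s) ≤ s * (η / 8 * ℓ / s) :=
              mul_le_mul_of_nonneg_right h4 (by positivity)
          _ = η / 8 * ℓ := by field_simp
      linarith
    · intro p hp
      have h1 := (Nat.prime_of_mem_primeFactors hp).pos
      positivity
  have hlogp : Real.log t.1 + Real.log t.2 + η * Real.log (c t) ≤ Real.log (part m (T t)) := by
    have hc0 := ht.c_pos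
    have h1 := Real.log_le_log (by positivity) hp
    rw [Real.log_mul (by positivity) (by positivity), Real.log_mul p1.ne' p2.ne',
      Real.log_rpow hc0] at h1
    exact h1
  have h5 : η * ℓ < η * Real.log (c t) := mul_lt_mul_of_pos_left hc h0
  have h6 : 0 < η * ℓ := mul_pos h0 hℓ
  linarith

private theorem A2_count (w s M N : ℕ) (hs : s ≤ w + 1) :
    2 ^ (M * s + w) * (2 ^ w * (2 ^ w * (2 ^ w * ((N + 1) * (N + 1))))) ≤
      (16 * (N + 1) ^ 2 * 2 ^ M) ^ (w + 1) := by
  have h1 : 2 ^ (M * s + w) ≤ (2 ^ M) ^ (w + 1) * 2 ^ w := by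
    rw [← pow_mul, ← pow_add]
    exact Nat.pow_le_pow_right (by norm_num) (Nat.add_le_add_right (Nat.mul_le_mul_left M hs) w)
  have h2 : (N + 1) * (N + 1) ≤ ((N + 1) ^ 2) ^ (w + 1) := by
    calc (N + 1) * (N + 1) = ((N + 1) ^ 2) ^ 1 := by ring
      _ ≤ _ := Nat.pow_le_pow_right (by positivity) (by omega)
  have h3 : 2 ^ w * (2 ^ w * (2 ^ w * 2 ^ w)) ≤ 16 ^ (w + 1) := by
    calc 2 ^ w * (2 ^ w * (2 ^ w * 2 ^ w)) = 16 ^ w := by
          rw [← mul_pow, ← mul_pow, ← mul_pow]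
          norm_num
      _ ≤ _ := Nat.pow_le_pow_right (by norm_num) (by omega)
  calc 2 ^ (M * s + w) * (2 ^ w * (2 ^ w * (2 ^ w * ((N + 1) * (N + 1)))))
      ≤ ((2 ^ M) ^ (w + 1) * 2 ^ w) *
        (2 ^ w * (2 ^ w * (2 ^ w * (((N + 1) ^ 2) ^ (w + 1))))) :=
        Nat.mul_le_mul h1 (Nat.mul_le_mul_left _ (Nat.mul_le_mul_left _
          (Nat.mul_le_mul_left _ h2)))
    _ = (2 ^ w * (2 ^ w * (2 ^ w * 2 ^ w))) * (((N + 1) ^ 2) ^ (w + 1) * (2 ^ M) ^ (w + 1)) := by
        ring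
    _ ≤ 16 ^ (w + 1) * (((N + 1) ^ 2) ^ (w + 1) * (2 ^ M) ^ (w + 1)) :=
        Nat.mul_le_mul_right _ h3
    _ = _ := by rw [mul_pow, mul_pow, mul_assoc]

/-- The labels of a pair. -/
private noncomputable def A2_lab (m : ℕ) (z : ℝ) (t : ℕ × ℕ) :
    Finset ℕ × Finset ℕ × Finset ℕ × ℕ × ℕ :=
  (m.primeFactors.filter (fun p => p ∣ t.1), m.primeFactors.filter (fun p => p ∣ t.2),
    m.primeFactors.filter (fun p => p ∣ t.1 + t.2), ⌊Real.log t.1 / z⌋₊, ⌊Real.log t.2 / z⌋₊)

/-- RO-A2. The gap principle in one range `X < c ≤ X ^ (1 + η / 8)`.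
PROOF. Put `ε = η / 8`, `s = max 1 m.primeFactors.card`, `ℓ = log X > 0`. To `t = (a, b)` attach
(1) `k p = ⌊(v_p(T t) log p) s / (ε ℓ)⌋₊` for `p ∈ m.primeFactors`; since
`∑ v_p log p ≤ log (T t) ≤ 3 log c ≤ 3 (1 + ε) ℓ`, the sum of the `k p` is at most
`⌊3 (1 + ε) s / ε⌋ ≤ ⌈4 / ε⌉ s`; (2) the truth values of `p ∣ a`, `p ∣ b`, `p ∣ a + b`, i.e. three
subsets of `m.primeFactors` (`8 ^ s` possibilities); (3) `⌊log a / (ε ℓ)⌋₊` and
`⌊log b / (ε ℓ)⌋₊`, each at most `⌊(1 + ε) / ε⌋`. If two pairs `t ≠ t'` of `S` have the same data,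
then with `G = ∏ p ^ min (v_p, v_p')`: `G ≥ part m (T t) / X ^ ε` (each factor loses at most
`exp (ε ℓ / s)`), so `G ≥ a b c ^ η X ^ (-ε)`; and by RO-A1 `G ≤ |a b' - a' b| ≤ max (a b') (a' b)
≤ a b X ^ ε`. Hence `c ^ η ≤ X ^ (2 ε) = X ^ (η / 4)`, contradicting `c > X > 1`. So `S` injects
into the data (for the vector `k` use `card_le_of_sum_le` on the fibres of (2), (3)), and
`|S| ≤ 8 ^ s (2 + (1 + ε) / ε) ^ 2 2 ^ (⌈4 / ε⌉ s + s) ≤ K ^ (ω + 1)` for a suitable `K`. -/
theorem gp_cell (η : ℝ) (h0 : 0 < η) (h1 : η ≤ 1) :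
    ∃ K : ℝ, 1 ≤ K ∧ ∀ (m : ℕ) (X : ℝ), 1 < X → ∀ S : Finset (ℕ × ℕ),
      (∀ t ∈ S, Cop t ∧ X < c t ∧ c t ≤ X ^ (1 + η / 8) ∧
        ((t.1 : ℝ) * t.2) * (c t) ^ η ≤ (part m (T t) : ℝ)) →
      (S.card : ℝ) ≤ K ^ (m.primeFactors.card + 1) := by
  classical
  set ε : ℝ := η / 8 with hε
  have hε0 : 0 < ε := by positivity
  have hε1 : ε ≤ 1 / 8 := by linarith
  set N : ℕ := ⌊(1 + ε) / ε⌋₊ with hN
  set M : ℕ := ⌈4 / ε⌉₊ with hM
  refine ⟨((16 * (N + 1) ^ 2 * 2 ^ M : ℕ) : ℝ), ?_, ?_⟩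
  · have : 1 ≤ 16 * (N + 1) ^ 2 * 2 ^ M := Nat.succ_le_of_lt (by positivity)
    exact_mod_cast this
  intro m X hX S hS
  set w : ℕ := m.primeFactors.card with hw
  set s : ℕ := max 1 w with hs
  have hs1 : 1 ≤ s := le_max_left _ _
  have hws : w ≤ s := le_max_right _ _
  have hsw : s ≤ w + 1 := max_le (by omega) (by omega)
  have hs0 : (0 : ℝ) < s := by exact_mod_cast hs1
  have hX0 : 0 < X := by linarith
  set l : ℝ := Real.log X with hl
  have hl0 : 0 < l := Real.log_pos hX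
  have hεl : 0 < ε * l := mul_pos hε0 hl0
  have hεls : 0 < ε * l / s := div_pos hεl hs0
  have hlc : ∀ t ∈ S, l < Real.log (c t) ∧ Real.log (c t) ≤ (1 + ε) * l := by
    intro t ht
    obtain ⟨_, h2, h3, _⟩ := hS t ht
    refine ⟨Real.log_lt_log hX0 h2, ?_⟩
    have h4 := Real.log_le_log (lt_trans hX0 h2) h3
    rwa [Real.log_rpow hX0] at h4
  have hmaps : ∀ t ∈ S, A2_lab m (ε * l) t ∈ m.primeFactors.powerset ×ˢ
      (m.primeFactors.powerset ×ˢ (m.primeFactors.powerset ×ˢ
        (Finset.range (N + 1) ×ˢ Finset.range (N + 1)))) := by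
    intro t ht
    obtain ⟨hcop, _, _, _⟩ := hS t ht
    have hfl : ∀ x : ℕ, 0 < x → (x : ℝ) ≤ c t → ⌊Real.log x / (ε * l)⌋₊ < N + 1 := by
      intro x hx hxc
      rw [Nat.lt_add_one_iff, hN]
      apply Nat.floor_le_floor
      rw [div_le_div_iff₀ hεl hε0]
      have h5 : Real.log x ≤ (1 + ε) * l :=
        (Real.log_le_log (by exact_mod_cast hx) hxc).trans (hlc t ht).2
      calc Real.log x * ε ≤ (1 + ε) * l * ε := mul_le_mul_of_nonneg_right h5 hε0.le
        _ = (1 + ε) * (ε * l) := by ring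
    simp only [A2_lab, Finset.mem_product, Finset.mem_powerset, Finset.filter_subset,
      Finset.mem_range, true_and]
    refine ⟨hfl _ hcop.pos1 ?_, hfl _ hcop.pos2 ?_⟩
    · unfold c
      exact_mod_cast Nat.le_add_right _ _
    · unfold c
      exact_mod_cast Nat.le_add_left _ _
  have hfib : ∀ b ∈ m.primeFactors.powerset ×ˢ
      (m.primeFactors.powerset ×ˢ (m.primeFactors.powerset ×ˢ
        (Finset.range (N + 1) ×ˢ Finset.range (N + 1)))),
      (S.filter fun t => A2_lab m (ε * l) t = b).card ≤ 2 ^ (M * s + w) := by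
    intro b _
    refine card_le_of_sum_le m.primeFactors (M * s) _
      (fun t p => ⌊((T t).factorization p : ℝ) * Real.log p / (ε * l / s)⌋₊) ?_ ?_
    · intro t ht
      rw [Finset.mem_filter] at ht
      have hcop := (hS t ht.1).1
      have h2 : ((∑ p ∈ m.primeFactors,
          ⌊((T t).factorization p : ℝ) * Real.log p / (ε * l / s)⌋₊ : ℕ) : ℝ) ≤ (M * s : ℕ) := by
        rw [Nat.cast_sum]
        calc ∑ p ∈ m.primeFactors,
            ((⌊((T t).factorization p : ℝ) * Real.log p / (ε * l / s)⌋₊ : ℕ) : ℝ)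
            ≤ ∑ p ∈ m.primeFactors, ((T t).factorization p : ℝ) * Real.log p / (ε * l / s) := by
              refine Finset.sum_le_sum fun p _ => Nat.floor_le ?_
              exact div_nonneg (mul_nonneg (Nat.cast_nonneg _) (Real.log_natCast_nonneg p))
                hεls.le
          _ = (∑ p ∈ m.primeFactors, ((T t).factorization p : ℝ) * Real.log p) / (ε * l / s) := by
              rw [Finset.sum_div]
          _ ≤ (3 * ((1 + ε) * l)) / (ε * l / s) := by
              refine div_le_div_of_nonneg_right ?_ hεls.le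
              have h3 := A2_sum_le m hcop.T_ne
              have h4 := log_T_le hcop
              have h5 := (hlc t ht.1).2
              linarith
          _ = 3 * (1 + ε) / ε * s := by
              field_simp
          _ ≤ 4 / ε * s := by
              refine mul_le_mul_of_nonneg_right ?_ hs0.le
              refine div_le_div_of_nonneg_right ?_ hε0.le
              linarith
          _ ≤ M * s := mul_le_mul_of_nonneg_right (Nat.le_ceil _) hs0.le
          _ = _ := by push_cast; ring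
      exact_mod_cast h2
    · intro t ht t' ht' hk
      rw [Finset.mem_filter] at ht ht'
      obtain ⟨hcop, _, _, hp⟩ := hS t ht.1
      have hcop' := (hS t' ht'.1).1
      have hL : A2_lab m (ε * l) t' = A2_lab m (ε * l) t := ht'.2.trans ht.2.symm
      simp only [A2_lab, Prod.mk.injEq] at hL
      obtain ⟨e1, e2, e3, e4, e5⟩ := hL
      rw [Finset.filter_inj'] at e1 e2 e3
      refine A2_core (s := s) h0 hl0 hs1 hws hcop hcop' (hlc t ht.1).1 hp ?_ ?_ ?_ ?_
      · intro p hp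
        exact ⟨(e1 hp).symm, (e2 hp).symm, (e3 hp).symm⟩
      · intro p hp
        exact A2_floor hεls (mul_nonneg (Nat.cast_nonneg _) (Real.log_natCast_nonneg p)) (hk p hp)
      · exact A2_floor hεl (Real.log_natCast_nonneg _) e4
      · exact A2_floor hεl (Real.log_natCast_nonneg _) e5
  have hcard := Finset.card_le_mul_card_image_of_maps_to hmaps _ hfib
  rw [Finset.card_product, Finset.card_product, Finset.card_product, Finset.card_product,
    Finset.card_powerset, Finset.card_range, ← hw] at hcard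
  have hfin := hcard.trans (A2_count w s M N hsw)
  exact_mod_cast hfin

end Pool.Agent.Helper42.RO
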