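import Mathlib
import Pool.Agent.Helper42.RO.A2

set_option autoImplicit false

open Finset

namespace Pool.Agent.Helper42.RO

/-- The range of a real number above one. -/
private lemma a3a_range (r y : ℝ) (hr : 1 < r) (hy : 1 < y) :
    ∃ n : ℕ, r ^ n < y ∧ y ≤ r ^ (n + 1) := by
  classical
  have hex : ∃ n : ℕ, y ≤ r ^ (n + 1) := by
    obtain ⟨n, hn⟩ := pow_unbounded_of_one_lt y hr
    exact ⟨n, hn.le.trans (pow_le_pow_right₀ hr.le (Nat.le_succ n))⟩
  refine ⟨Nat.find hex, ?_, Nat.find_spec hex⟩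
  rcases Nat.eq_zero_or_pos (Nat.find hex) with h0 | h0
  · rw [h0, pow_zero]
    exact hy
  · have h1 := Nat.find_min hex (m := Nat.find hex - 1) (by omega)
    rw [Nat.sub_add_cancel h0] at h1
    exact not_le.1 h1

/-- RO-A3a. The gap principle for all `c ≤ exp Λ`. -/
theorem gp_total_p (η : ℝ) (h0 : 0 < η) (h1 : η ≤ 1) :
    ∃ K : ℝ, 1 ≤ K ∧ ∀ (m : ℕ) (Λ : ℝ), 1 ≤ Λ → ∀ S : Finset (ℕ × ℕ),
      (∀ t ∈ S, Cop t ∧ Real.log (c t) ≤ Λ ∧
        ((t.1 : ℝ) * t.2) * (c t) ^ η ≤ (part m (T t) : ℝ)) →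
      (S.card : ℝ) ≤ K ^ (m.primeFactors.card + 1) * (1 + Real.log Λ) := by
  classical
  obtain ⟨K0, hK0, hcell⟩ := gp_cell η h0 h1
  set r : ℝ := 1 + η / 8 with hr
  have hr1 : 1 < r := by rw [hr]; linarith
  have hlr : 0 < Real.log r := Real.log_pos hr1
  set L : ℝ := Real.log (3 / 2) with hL
  have hL0 : 0 < L := Real.log_pos (by norm_num)
  have hL3 : 1 / 3 ≤ L := by
    have h := Real.one_sub_inv_le_log_of_pos (show (0 : ℝ) < 3 / 2 by norm_num)
    rw [hL]
    norm_num at h ⊢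
    linarith
  set D : ℝ := 2 / Real.log r + 1 with hD
  have hD1 : 1 ≤ D := by
    have : 0 ≤ 2 / Real.log r := by positivity
    rw [hD]
    linarith
  refine ⟨K0 * D, by nlinarith, fun m Λ hΛ S hS => ?_⟩
  have hΛ0 : 0 ≤ Real.log Λ := Real.log_nonneg hΛ
  set J : ℕ := ⌈(2 + Real.log Λ) / Real.log r⌉₊ with hJ
  -- the cells
  set cell : ℕ → Finset (ℕ × ℕ) := fun n => S.filter fun t =>
    r ^ n * L < Real.log (c t) ∧ Real.log (c t) ≤ r ^ (n + 1) * L with hcelldef
  have hcard : ∀ n, ((cell n).card : ℝ) ≤ K0 ^ (m.primeFactors.card + 1) := by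
    intro n
    have hX : 1 < Real.exp (r ^ n * L) := by
      rw [Real.one_lt_exp_iff]
      positivity
    refine hcell m (Real.exp (r ^ n * L)) hX (cell n) fun t ht => ?_
    rw [hcelldef] at ht
    simp only [Finset.mem_filter] at ht
    obtain ⟨htS, ht1, ht2⟩ := ht
    obtain ⟨hc, _, hp⟩ := hS t htS
    refine ⟨hc, ?_, ?_, hp⟩
    · rw [← Real.exp_log hc.c_pos]
      exact Real.exp_lt_exp.2 ht1
    · rw [← Real.exp_mul]
      calc c t = Real.exp (Real.log (c t)) := (Real.exp_log hc.c_pos).symm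
        _ ≤ Real.exp (r ^ (n + 1) * L) := Real.exp_le_exp.2 ht2
        _ = Real.exp (r ^ n * L * (1 + η / 8)) := by rw [← hr]; congr 1; ring
  have hsub : S ⊆ (Finset.range J).biUnion cell := by
    intro t ht
    obtain ⟨hc, hlc, _⟩ := hS t ht
    have hy : 1 < Real.log (c t) / L := by
      rw [one_lt_div hL0, hL]
      refine Real.log_lt_log (by norm_num) ?_
      have := hc.two_le_c
      linarith
    obtain ⟨n, hn1, hn2⟩ := a3a_range r _ hr1 hy
    rw [lt_div_iff₀ hL0] at hn1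
    rw [div_le_iff₀ hL0] at hn2
    rw [Finset.mem_biUnion]
    refine ⟨n, ?_, ?_⟩
    · rw [Finset.mem_range, hJ, Nat.lt_ceil, lt_div_iff₀ hlr, ← Real.log_pow]
      have h3 : r ^ n < 3 * Λ := by
        have h4 : r ^ n * (1 / 3) ≤ r ^ n * L := mul_le_mul_of_nonneg_left hL3 (by positivity)
        linarith
      have h5 : Real.log (r ^ n) < Real.log (3 * Λ) := Real.log_lt_log (by positivity) h3
      rw [Real.log_mul (by norm_num) (by linarith)] at h5
      have h6 := Real.log_le_sub_one_of_pos (show (0 : ℝ) < 3 by norm_num)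
      linarith
    · rw [hcelldef]
      simp only [Finset.mem_filter]
      exact ⟨ht, hn1, hn2⟩
  have hJle : (J : ℝ) ≤ D * (1 + Real.log Λ) := by
    have h7 : (J : ℝ) < (2 + Real.log Λ) / Real.log r + 1 := by
      rw [hJ]
      exact Nat.ceil_lt_add_one (by positivity)
    have h8 : (2 + Real.log Λ) / Real.log r + 1 ≤ D * (1 + Real.log Λ) := by
      have e : D * (1 + Real.log Λ) - ((2 + Real.log Λ) / Real.log r + 1) =
          Real.log Λ / Real.log r + Real.log Λ := by
        rw [hD]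
        field_simp
        ring
      have h9 : 0 ≤ Real.log Λ / Real.log r + Real.log Λ := by positivity
      linarith
    linarith
  have hsum : (S.card : ℝ) ≤ ∑ n ∈ Finset.range J, ((cell n).card : ℝ) := by
    have h10 := (Finset.card_le_card hsub).trans Finset.card_biUnion_le
    exact_mod_cast h10
  have hpos : 0 ≤ K0 ^ (m.primeFactors.card + 1) := by positivity
  calc (S.card : ℝ) ≤ ∑ n ∈ Finset.range J, ((cell n).card : ℝ) := hsum
    _ ≤ ∑ _n ∈ Finset.range J, K0 ^ (m.primeFactors.card + 1) :=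
        Finset.sum_le_sum fun n _ => hcard n
    _ = J * K0 ^ (m.primeFactors.card + 1) := by
        rw [Finset.sum_const, Finset.card_range, nsmul_eq_mul]
    _ ≤ (D * (1 + Real.log Λ)) * K0 ^ (m.primeFactors.card + 1) :=
        mul_le_mul_of_nonneg_right hJle hpos
    _ = K0 ^ (m.primeFactors.card + 1) * D * (1 + Real.log Λ) := by ring
    _ ≤ K0 ^ (m.primeFactors.card + 1) * D ^ (m.primeFactors.card + 1) * (1 + Real.log Λ) := by
        refine mul_le_mul_of_nonneg_right ?_ (by positivity)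
        refine mul_le_mul_of_nonneg_left ?_ hpos
        exact le_self_pow₀ hD1 (by omega)
    _ = (K0 * D) ^ (m.primeFactors.card + 1) * (1 + Real.log Λ) := by rw [mul_pow]

end Pool.Agent.Helper42.RO
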