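import Mathlib
import Pool.Agent.Helper42.RO.A2
import Pool.Agent.Helper94.Abc.Basic

set_option autoImplicit false

open Finset

namespace Pool.Agent.Helper42.RO

private lemma a3b_two_pow_le {m : ℕ} (hm : m ≠ 0) : 2 ^ m.primeFactors.card ≤ m.divisors.card := by
  rw [Nat.card_divisors hm]
  refine Finset.pow_card_le_prod _ _ _ fun p hp => ?_
  have h1 : m.factorization p ≠ 0 := by
    rw [← Finsupp.mem_support_iff, Nat.support_factorization]
    exact hp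
  omega

/-- RO-A3b. `K ^ ω(m) ≤ C m ^ ε`, from the divisor bound and `2 ^ ω(m) ≤ d(m)`. -/
theorem pow_omega_p (K ε : ℝ) (hK : 1 ≤ K) (hε : 0 < ε) :
    ∃ C : ℝ, 1 ≤ C ∧ ∀ m : ℕ, m ≠ 0 → K ^ m.primeFactors.card ≤ C * (m : ℝ) ^ ε := by
  set K' : ℝ := max K 2 with hK'
  have hK2 : 2 ≤ K' := le_max_right _ _
  have hKK : K ≤ K' := le_max_left _ _
  set s : ℝ := Real.logb 2 K' with hs
  have hs1 : 1 ≤ s := by
    have h1 : Real.logb 2 2 ≤ Real.logb 2 K' :=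
      Real.logb_le_logb_of_le (by norm_num) (by norm_num) hK2
    rwa [Real.logb_self_eq_one (by norm_num)] at h1
  have hs0 : 0 < s := by linarith
  obtain ⟨C, hC1, hC⟩ := Pool.Agent.Helper94.Abc.divisor_bound (ε := ε / s) (by positivity)
  refine ⟨C ^ s, Real.one_le_rpow hC1 hs0.le, fun m hm => ?_⟩
  have h2 : ((2 : ℝ) ^ s) = K' := Real.rpow_logb (by norm_num) (by norm_num) (by linarith)
  have h3 : (2 : ℝ) ^ m.primeFactors.card ≤ (m.divisors.card : ℝ) := by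
    exact_mod_cast a3b_two_pow_le hm
  have hm0 : (0 : ℝ) ≤ (m : ℝ) ^ (ε / s) := Real.rpow_nonneg (Nat.cast_nonneg _) _
  calc K ^ m.primeFactors.card ≤ K' ^ m.primeFactors.card :=
        pow_le_pow_left₀ (by linarith) hKK _
    _ = ((2 : ℝ) ^ m.primeFactors.card) ^ s := by
        rw [← h2, ← Real.rpow_natCast, ← Real.rpow_natCast, ← Real.rpow_mul (by norm_num),
          ← Real.rpow_mul (by norm_num), mul_comm]
    _ ≤ (C * (m : ℝ) ^ (ε / s)) ^ s :=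
        Real.rpow_le_rpow (by positivity) (h3.trans (hC m hm)) hs0.le
    _ = C ^ s * (m : ℝ) ^ ε := by
        rw [Real.mul_rpow (by linarith) hm0, ← Real.rpow_mul (Nat.cast_nonneg _),
          div_mul_cancel₀ _ hs0.ne']

/-- RO-A3c. The number of pairs with a given radical. -/
theorem perN_p
    (hgp : ∃ K : ℝ, 1 ≤ K ∧ ∀ (m : ℕ) (Λ : ℝ), 1 ≤ Λ → ∀ S : Finset (ℕ × ℕ),
      (∀ t ∈ S, Cop t ∧ Real.log (c t) ≤ Λ ∧
        ((t.1 : ℝ) * t.2) * (c t) ^ (1 : ℝ) ≤ (part m (T t) : ℝ)) →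
      (S.card : ℝ) ≤ K ^ (m.primeFactors.card + 1) * (1 + Real.log Λ))
    (ε : ℝ) (hε : 0 < ε) :
    ∃ C : ℝ, 1 ≤ C ∧ ∀ (N : ℕ) (Λ : ℝ), 1 ≤ Λ → ∀ S : Finset (ℕ × ℕ),
      (∀ t ∈ S, Cop t ∧ Real.log (c t) ≤ Λ ∧ rad (T t) = N) →
      (S.card : ℝ) ≤ C * (N : ℝ) ^ ε * (1 + Real.log Λ) := by
  obtain ⟨K, hK1, hK⟩ := hgp
  obtain ⟨C, hC1, hC⟩ := pow_omega_p K ε hK1 hε
  refine ⟨K * C, by nlinarith, fun N Λ hΛ S hS => ?_⟩
  have hL : 0 ≤ 1 + Real.log Λ := by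
    have := Real.log_nonneg hΛ
    linarith
  rcases S.eq_empty_or_nonempty with rfl | ⟨t0, ht0⟩
  · rw [Finset.card_empty, Nat.cast_zero]
    have : 0 ≤ K * C * (N : ℝ) ^ ε := by positivity
    exact mul_nonneg this hL
  · have hN : N ≠ 0 := by
      rw [← (hS t0 ht0).2.2]
      exact (rad_pos _).ne'
    have h1 := hK N Λ hΛ S fun t ht => by
      obtain ⟨h2, h3, h4⟩ := hS t ht
      refine ⟨h2, h3, ?_⟩
      rw [← h4, part_self h2.T_ne, Real.rpow_one]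
      unfold T c
      push_cast
      exact le_rfl
    refine h1.trans (mul_le_mul_of_nonneg_right ?_ hL)
    rw [pow_succ, mul_comm, mul_assoc]
    exact mul_le_mul_of_nonneg_left (hC N hN) (by linarith)

end Pool.Agent.Helper42.RO
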