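import Mathlib
import Pool.Agent.Helper42.RO.A2
import Pool.Agent.Helper42.RO.A3_a
import Pool.Agent.Helper42.RO.A3_b
import Pool.Agent.Helper94.Abc.Basic

set_option autoImplicit false

open Finset

namespace Pool.Agent.Helper42.RO

/-- RO-A3a. The gap principle for all `c ≤ exp Λ`.
PROOF. Let `ε = η / 8`, `X_j = (3 / 2) ^ ((1 + ε) ^ j)`. Since `c ≥ 2 > 3 / 2`, every pair has
`X_j < c ≤ X_(j + 1) = X_j ^ (1 + ε)` for exactly one `j` (e.g. `j` = the ceiling of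
`log (log c / log (3 / 2)) / log (1 + ε)` minus one), and `j ≤ log (Λ / log (3 / 2)) / log (1 + ε)`.
Apply `gp_cell` to each of the at most `C (1 + log Λ)` ranges. -/
theorem gp_total (η : ℝ) (h0 : 0 < η) (h1 : η ≤ 1) :
    ∃ K : ℝ, 1 ≤ K ∧ ∀ (m : ℕ) (Λ : ℝ), 1 ≤ Λ → ∀ S : Finset (ℕ × ℕ),
      (∀ t ∈ S, Cop t ∧ Real.log (c t) ≤ Λ ∧
        ((t.1 : ℝ) * t.2) * (c t) ^ η ≤ (part m (T t) : ℝ)) →
      (S.card : ℝ) ≤ K ^ (m.primeFactors.card + 1) * (1 + Real.log Λ) := by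
  exact gp_total_p η h0 h1

/-- RO-A3b. `K ^ ω(m) ≤ C m ^ ε`.
PROOF: `2 ^ ω(m) ≤ d(m) ≤ C' m ^ ε'` (`Pool.Agent.Helper94.Abc.divisor_bound`; `2 ^ ω(m) ≤ d(m)`
because the subsets of the prime divisors inject into the divisors via products), and
`K ^ ω = (2 ^ ω) ^ (log K / log 2)`; take `ε' = ε log 2 / log K` (for `K = 1` trivial; one may
replace `K` by `max K 2`). -/
theorem pow_omega (K ε : ℝ) (hK : 1 ≤ K) (hε : 0 < ε) :
    ∃ C : ℝ, 1 ≤ C ∧ ∀ m : ℕ, m ≠ 0 → K ^ m.primeFactors.card ≤ C * (m : ℝ) ^ ε := by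
  exact pow_omega_p K ε hK hε

/-- RO-A3c. The number of pairs with a given radical.
PROOF: `gp_total` with `η = 1`, `m = N`: `part N (T t) = T t = a b c` by `part_self`
(`rad (T t) = N`); then `pow_omega`. -/
theorem perN (ε : ℝ) (hε : 0 < ε) :
    ∃ C : ℝ, 1 ≤ C ∧ ∀ (N : ℕ) (Λ : ℝ), 1 ≤ Λ → ∀ S : Finset (ℕ × ℕ),
      (∀ t ∈ S, Cop t ∧ Real.log (c t) ≤ Λ ∧ rad (T t) = N) →
      (S.card : ℝ) ≤ C * (N : ℝ) ^ ε * (1 + Real.log Λ) := by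
  exact perN_p (gp_total 1 one_pos le_rfl) ε hε

end Pool.Agent.Helper42.RO
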