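import Mathlib
import Pool.Agent.Helper42.RO.A3

set_option autoImplicit false

open Finset

namespace Pool.Agent.Helper42.RO

private lemma a4_card_cover (S : Finset (ℕ × ℕ)) (M : ℕ) (P : ℕ → ℕ × ℕ → Prop)
    [∀ m, DecidablePred (P m)] (B : ℝ)
    (hcov : ∀ t ∈ S, ∃ m ∈ Icc 1 M, P m t)
    (hB : ∀ m ∈ Icc 1 M, ((S.filter (P m)).card : ℝ) ≤ B) :
    (S.card : ℝ) ≤ M * B := by
  have h1 : S ⊆ (Icc 1 M).biUnion (fun m => S.filter (P m)) := by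
    intro t ht
    obtain ⟨m, hm, hP⟩ := hcov t ht
    exact mem_biUnion.2 ⟨m, hm, mem_filter.2 ⟨ht, hP⟩⟩
  have h2 : (S.card : ℝ) ≤ ∑ m ∈ Icc 1 M, ((S.filter (P m)).card : ℝ) := by
    have h3 := (card_le_card h1).trans card_biUnion_le
    exact_mod_cast h3
  calc (S.card : ℝ) ≤ ∑ m ∈ Icc 1 M, ((S.filter (P m)).card : ℝ) := h2
    _ ≤ ∑ _m ∈ Icc 1 M, B := sum_le_sum hB
    _ = M * B := by simp

/-- RO-A4. Case A: pairs for which a large divisor `n1` of the radical carries a share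
at most `1 - η`.
PROOF. For `t ∈ S` put `m = rad (T t) / n1`. Then `m ≤ Z / Z ^ δ = Z ^ (1 - δ)` and, by
`part_mul_part`, `part m (T t) = T t / part n1 (T t) ≥ a b c / c ^ (1 - η) = a b c ^ η`. So for each
`m ≤ M := ⌊Z ^ (1 - δ)⌋₊` the number of `t ∈ S` with this `m` is at most
`K ^ (ω(m) + 1) (1 + log Λ)` by `gp_total`; with `pow_omega`
`K ^ ω(m) ≤ C m ^ ε' ≤ C Z ^ ε'`; sum over `m` (`Finset.card_eq_sum_card_fiberwise` or a cover by
`Finset.biUnion`). -/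
theorem caseA (η δ ε : ℝ) (h0 : 0 < η) (h1 : η ≤ 1) (hδ : 0 ≤ δ) (hδ1 : δ ≤ 1) (hε : 0 < ε) :
    ∃ C : ℝ, 1 ≤ C ∧ ∀ (Z : ℕ) (Λ : ℝ), 1 ≤ Z → 1 ≤ Λ → ∀ S : Finset (ℕ × ℕ),
      (∀ t ∈ S, Cop t ∧ Real.log (c t) ≤ Λ ∧ rad (T t) ≤ Z ∧
        ∃ n1 : ℕ, n1 ∣ rad (T t) ∧ (Z : ℝ) ^ δ ≤ n1 ∧ (part n1 (T t) : ℝ) ≤ (c t) ^ (1 - η)) →
      (S.card : ℝ) ≤ C * (Z : ℝ) ^ (1 - δ + ε) * (1 + Real.log Λ) := by
  classical
  obtain ⟨K, hK, hgp⟩ := gp_total η h0 h1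
  obtain ⟨C, hC, hpo⟩ := pow_omega K ε hK hε
  refine ⟨K * C, by nlinarith, ?_⟩
  intro Z Λ hZ hΛ S hS
  have hZ1 : (1 : ℝ) ≤ Z := by exact_mod_cast hZ
  have hZ0 : (0 : ℝ) < Z := by linarith
  have hlog : 0 ≤ Real.log Λ := Real.log_nonneg hΛ
  set P : ℕ → ℕ × ℕ → Prop := fun m t => ∃ n1 : ℕ, rad (T t) = m * n1 ∧
    (Z : ℝ) ^ δ ≤ n1 ∧ (part n1 (T t) : ℝ) ≤ (c t) ^ (1 - η) with hP
  set M : ℕ := ⌊(Z : ℝ) ^ (1 - δ)⌋₊ with hM
  have hMle : (M : ℝ) ≤ (Z : ℝ) ^ (1 - δ) := Nat.floor_le (by positivity)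
  have hMZ : (M : ℝ) ≤ Z := by
    refine hMle.trans ?_
    calc (Z : ℝ) ^ (1 - δ) ≤ (Z : ℝ) ^ (1 : ℝ) :=
          Real.rpow_le_rpow_of_exponent_le hZ1 (by linarith)
      _ = Z := Real.rpow_one _
  have key := a4_card_cover S M P (K * C * (Z : ℝ) ^ ε * (1 + Real.log Λ)) ?_ ?_
  · calc (S.card : ℝ) ≤ M * (K * C * (Z : ℝ) ^ ε * (1 + Real.log Λ)) := key
      _ ≤ (Z : ℝ) ^ (1 - δ) * (K * C * (Z : ℝ) ^ ε * (1 + Real.log Λ)) := by
          apply mul_le_mul_of_nonneg_right hMle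
          positivity
      _ = K * C * (Z : ℝ) ^ (1 - δ + ε) * (1 + Real.log Λ) := by
          rw [Real.rpow_add hZ0]
          ring
  · intro t ht
    obtain ⟨hc, _, hr, n1, hd, hn1, hp⟩ := hS t ht
    obtain ⟨m, hm⟩ := hd
    have hrp : 0 < rad (T t) := rad_pos _
    have hm0 : m ≠ 0 := by
      rintro rfl
      rw [hm] at hrp
      simp at hrp
    refine ⟨m, ?_, n1, by rw [hm, mul_comm], hn1, hp⟩
    rw [mem_Icc]
    refine ⟨Nat.pos_of_ne_zero hm0, ?_⟩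
    rw [hM]
    apply Nat.le_floor
    have h2 : (m : ℝ) * (Z : ℝ) ^ δ ≤ Z := by
      calc (m : ℝ) * (Z : ℝ) ^ δ ≤ m * n1 :=
            mul_le_mul_of_nonneg_left hn1 (Nat.cast_nonneg _)
        _ = ((n1 * m : ℕ) : ℝ) := by push_cast; ring
        _ ≤ Z := by rw [← hm]; exact_mod_cast hr
    rw [Real.rpow_sub hZ0, Real.rpow_one, le_div_iff₀ (by positivity)]
    exact h2
  · intro m hm
    rw [mem_Icc] at hm
    have hmM : (m : ℝ) ≤ Z := le_trans (by exact_mod_cast hm.2) hMZ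
    have h3 := hgp m Λ hΛ (S.filter (P m)) ?_
    · have h4 := hpo m (by omega)
      have h5 : (m : ℝ) ^ ε ≤ (Z : ℝ) ^ ε :=
        Real.rpow_le_rpow (Nat.cast_nonneg _) hmM hε.le
      calc ((S.filter (P m)).card : ℝ) ≤ K ^ (m.primeFactors.card + 1) * (1 + Real.log Λ) := h3
        _ = K * K ^ m.primeFactors.card * (1 + Real.log Λ) := by rw [pow_succ]; ring
        _ ≤ K * (C * (Z : ℝ) ^ ε) * (1 + Real.log Λ) := by
            have h6 : K ^ m.primeFactors.card ≤ C * (Z : ℝ) ^ ε :=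
              h4.trans (mul_le_mul_of_nonneg_left h5 (by linarith))
            apply mul_le_mul_of_nonneg_right _ (by linarith)
            exact mul_le_mul_of_nonneg_left h6 (by linarith)
        _ = K * C * (Z : ℝ) ^ ε * (1 + Real.log Λ) := by ring
    · intro t ht
      obtain ⟨htS, n1, hmn, hn1, hp⟩ := mem_filter.1 ht
      obtain ⟨hc, hl, _, _⟩ := hS t htS
      refine ⟨hc, hl, ?_⟩
      have hprod := part_mul_part hc.T_ne hmn
      have hcp := hc.c_pos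
      have hn1p : (0 : ℝ) < (part n1 (T t) : ℕ) := by exact_mod_cast part_pos n1 (T t)
      have hT : ((T t : ℕ) : ℝ) = (t.1 : ℝ) * t.2 * c t := by
        unfold T c
        push_cast
        ring
      have hprod' : (part m (T t) : ℝ) * (part n1 (T t) : ℝ) = (t.1 : ℝ) * t.2 * c t := by
        rw [← hT]
        exact_mod_cast hprod
      have hcc : (c t) ^ η * (c t) ^ (1 - η) = c t := by
        rw [← Real.rpow_add hcp]
        simp
      have h7 : ((t.1 : ℝ) * t.2) * (c t) ^ η * (part n1 (T t) : ℝ) ≤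
          (part m (T t) : ℝ) * (part n1 (T t) : ℝ) := by
        rw [hprod']
        calc ((t.1 : ℝ) * t.2) * (c t) ^ η * (part n1 (T t) : ℝ)
            ≤ ((t.1 : ℝ) * t.2) * (c t) ^ η * (c t) ^ (1 - η) :=
              mul_le_mul_of_nonneg_left hp (by positivity)
          _ = (t.1 : ℝ) * t.2 * ((c t) ^ η * (c t) ^ (1 - η)) := by ring
          _ = (t.1 : ℝ) * t.2 * c t := by rw [hcc]
      exact le_of_mul_le_mul_right h7 hn1p

/-- RO-A4b. Pairs with small radical: sum of `perN` over `N ≤ Y`. -/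
theorem smallRad (ε : ℝ) (hε : 0 < ε) :
    ∃ C : ℝ, 1 ≤ C ∧ ∀ (Y Λ : ℝ), 1 ≤ Y → 1 ≤ Λ → ∀ S : Finset (ℕ × ℕ),
      (∀ t ∈ S, Cop t ∧ Real.log (c t) ≤ Λ ∧ (rad (T t) : ℝ) ≤ Y) →
      (S.card : ℝ) ≤ C * Y ^ (1 + ε) * (1 + Real.log Λ) := by
  classical
  obtain ⟨C, hC, hper⟩ := perN ε hε
  refine ⟨C, hC, ?_⟩
  intro Y Λ hY hΛ S hS
  have hY0 : (0 : ℝ) < Y := by linarith
  have hlog : 0 ≤ Real.log Λ := Real.log_nonneg hΛ
  have hMle : ((⌊Y⌋₊ : ℕ) : ℝ) ≤ Y := Nat.floor_le hY0.le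
  have key := a4_card_cover S ⌊Y⌋₊ (fun N t => rad (T t) = N)
    (C * Y ^ ε * (1 + Real.log Λ)) ?_ ?_
  · calc (S.card : ℝ) ≤ (⌊Y⌋₊ : ℕ) * (C * Y ^ ε * (1 + Real.log Λ)) := key
      _ ≤ Y * (C * Y ^ ε * (1 + Real.log Λ)) := by
          apply mul_le_mul_of_nonneg_right hMle
          positivity
      _ = C * Y ^ (1 + ε) * (1 + Real.log Λ) := by
          rw [Real.rpow_add hY0, Real.rpow_one]
          ring
  · intro t ht
    obtain ⟨_, _, hr⟩ := hS t ht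
    exact ⟨rad (T t), mem_Icc.2 ⟨rad_pos _, Nat.le_floor hr⟩, rfl⟩
  · intro N hN
    rw [mem_Icc] at hN
    have hNY : (N : ℝ) ≤ Y := le_trans (by exact_mod_cast hN.2) hMle
    refine le_trans (hper N Λ hΛ _ ?_) ?_
    · intro t ht
      rw [mem_filter] at ht
      obtain ⟨htS, htN⟩ := ht
      obtain ⟨hc, hl, _⟩ := hS t htS
      exact ⟨hc, hl, htN⟩
    · apply mul_le_mul_of_nonneg_right _ (by linarith)
      exact mul_le_mul_of_nonneg_left (Real.rpow_le_rpow (Nat.cast_nonneg _) hNY hε.le)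
        (by linarith)

end Pool.Agent.Helper42.RO
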