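import Mathlib
import Pool.Agent.Helper42.RO.Defs

set_option autoImplicit false

open Finset

namespace Pool.Agent.Helper42.RO

/-- RO-K2a. Box principle: `n = |G|` integer vectors with entries at most `L` have two disjoint
subfamilies, not both empty, with equal sums.
PROOF. The map `A ↦ (∑ i ∈ A, v i s)_s` from the `2 ^ n` subsets of `G` to the functions
`σ → [-n L, n L]` (`Fintype.piFinset fun _ => Finset.Icc (-(n L)) (n L)`, cardinality
`(2 n L + 1) ^ |σ|`) is not injective (`Finset.exists_ne_map_eq_of_card_lt_of_maps_to`); for two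
subsets `A ≠ B` with the same image take `I = A \ B`, `J = B \ A`. -/
theorem box_relation {ι σ : Type*} [DecidableEq ι] [Fintype σ] (G : Finset ι) (v : ι → σ → ℤ)
    (L : ℕ) (hv : ∀ i ∈ G, ∀ s, |v i s| ≤ L)
    (hn : (2 * G.card * L + 1) ^ Fintype.card σ < 2 ^ G.card) :
    ∃ I J : Finset ι, I ⊆ G ∧ J ⊆ G ∧ Disjoint I J ∧ (I ∪ J).Nonempty ∧
      ∀ s, ∑ i ∈ I, v i s = ∑ j ∈ J, v j s := by
  classical
  set N : ℕ := G.card * L with hN
  set Tg : Finset (σ → ℤ) := Fintype.piFinset fun _ => Finset.Icc (-(N : ℤ)) N with hTg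
  have hTcard : Tg.card = (2 * G.card * L + 1) ^ Fintype.card σ := by
    rw [hTg, Fintype.card_piFinset]
    simp only [Int.card_Icc, Finset.prod_const, Finset.card_univ]
    congr 1
    have : (N : ℤ) + 1 - -(N : ℤ) = ((2 * G.card * L + 1 : ℕ) : ℤ) := by
      rw [hN]
      push_cast
      ring
    rw [this, Int.toNat_natCast]
  have hmaps : ∀ A ∈ G.powerset, (fun s => ∑ i ∈ A, v i s) ∈ Tg := by
    intro A hA
    rw [Finset.mem_powerset] at hA
    rw [hTg, Fintype.mem_piFinset]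
    intro s
    rw [Finset.mem_Icc, ← abs_le]
    calc |∑ i ∈ A, v i s| ≤ ∑ i ∈ A, |v i s| := Finset.abs_sum_le_sum_abs _ _
      _ ≤ ∑ _i ∈ A, (L : ℤ) := Finset.sum_le_sum fun i hi => hv i (hA hi) s
      _ = A.card * L := by rw [Finset.sum_const, nsmul_eq_mul]
      _ ≤ G.card * L := by
          apply mul_le_mul_of_nonneg_right _ (Int.natCast_nonneg _)
          exact_mod_cast Finset.card_le_card hA
      _ = N := by rw [hN]; push_cast; ring
  have hlt : Tg.card < G.powerset.card := by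
    rw [hTcard, Finset.card_powerset]
    exact hn
  obtain ⟨A, hA, B, hB, hne, hAB⟩ := Finset.exists_ne_map_eq_of_card_lt_of_maps_to hlt hmaps
  rw [Finset.mem_powerset] at hA hB
  refine ⟨A \ B, B \ A, Finset.sdiff_subset.trans hA, Finset.sdiff_subset.trans hB, ?_, ?_, ?_⟩
  · exact disjoint_sdiff_sdiff
  · by_contra hcon
    rw [Finset.not_nonempty_iff_eq_empty, Finset.union_eq_empty] at hcon
    apply hne
    exact Finset.Subset.antisymm (Finset.sdiff_eq_empty_iff_subset.1 hcon.1)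
      (Finset.sdiff_eq_empty_iff_subset.1 hcon.2)
  · intro s
    have h1 : ∑ i ∈ A, v i s = ∑ i ∈ B, v i s := congrFun hAB s
    have h2 : ∑ i ∈ A, v i s = ∑ i ∈ A \ B, v i s + ∑ i ∈ A ∩ B, v i s := by
      rw [← Finset.sum_union (Finset.disjoint_left.2 fun x hx hx' =>
        (Finset.mem_sdiff.1 hx).2 (Finset.mem_inter.1 hx').2), Finset.sdiff_union_inter]
    have h3 : ∑ i ∈ B, v i s = ∑ i ∈ B \ A, v i s + ∑ i ∈ A ∩ B, v i s := by
      rw [Finset.inter_comm, ← Finset.sum_union (Finset.disjoint_left.2 fun x hx hx' =>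
        (Finset.mem_sdiff.1 hx).2 (Finset.mem_inter.1 hx').2), Finset.sdiff_union_inter]
    linarith

/-- RO-K2b. The multiplicative relation and the congruences.
PROOF. Multiply the congruences `x q * q ^ i = ± F q` over `I` and over `J`:
`(∏_I x) (∏_I q) ^ i = ± ∏_I F`, `(∏_J x) (∏_J q) ^ i = ± ∏_J F`. Hence
`(∏_I x) (∏_J F) (∏_I q) ^ i = ± (∏_I F) (∏_J F) = ± (∏_J x) (∏_I F) (∏_J q) ^ i`, cancel the unit
`(∏_I x) (∏_J F) = (∏_J x) (∏_I F)` of `ZMod M` and square. -/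
theorem relation_mod (M i : ℕ) (I J : Finset ℕ) (x F : ℕ → ℕ)
    (hu : ∀ q ∈ I ∪ J, (x q).Coprime M ∧ (F q).Coprime M)
    (hr : ∀ q ∈ I ∪ J, ((x q * q ^ i : ℕ) : ZMod M) = (F q : ZMod M) ∨
      ((x q * q ^ i : ℕ) : ZMod M) = -(F q : ZMod M))
    (hprod : (∏ q ∈ I, x q) * ∏ q ∈ J, F q = (∏ q ∈ J, x q) * ∏ q ∈ I, F q) :
    (((∏ q ∈ I, q : ℕ) : ZMod M)) ^ (2 * i) = (((∏ q ∈ J, q : ℕ) : ZMod M)) ^ (2 * i) := by
  have hsq : ∀ q ∈ I ∪ J, ((x q : ZMod M)) ^ 2 * (q : ZMod M) ^ (2 * i) = (F q : ZMod M) ^ 2 := by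
    intro q hq
    have h : (x q : ZMod M) * (q : ZMod M) ^ i = F q ∨ (x q : ZMod M) * (q : ZMod M) ^ i = -F q := by
      simpa using hr q hq
    have e : ((x q : ZMod M)) ^ 2 * (q : ZMod M) ^ (2 * i) = ((x q : ZMod M) * (q : ZMod M) ^ i) ^ 2 := by
      ring
    rw [e]
    rcases h with h | h
    · rw [h]
    · rw [h]; ring
  have hI : (∏ q ∈ I, (x q : ZMod M)) ^ 2 * (∏ q ∈ I, (q : ZMod M)) ^ (2 * i) =
      (∏ q ∈ I, (F q : ZMod M)) ^ 2 := by
    rw [← Finset.prod_pow, ← Finset.prod_pow, ← Finset.prod_pow, ← Finset.prod_mul_distrib]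
    exact Finset.prod_congr rfl fun q hq => hsq q (Finset.mem_union_left _ hq)
  have hJ : (∏ q ∈ J, (x q : ZMod M)) ^ 2 * (∏ q ∈ J, (q : ZMod M)) ^ (2 * i) =
      (∏ q ∈ J, (F q : ZMod M)) ^ 2 := by
    rw [← Finset.prod_pow, ← Finset.prod_pow, ← Finset.prod_pow, ← Finset.prod_mul_distrib]
    exact Finset.prod_congr rfl fun q hq => hsq q (Finset.mem_union_right _ hq)
  have hp : (∏ q ∈ I, (x q : ZMod M)) * ∏ q ∈ J, (F q : ZMod M) =
      (∏ q ∈ J, (x q : ZMod M)) * ∏ q ∈ I, (F q : ZMod M) := by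
    have := congrArg (Nat.cast : ℕ → ZMod M) hprod
    push_cast at this
    exact this
  have hunit : IsUnit ((∏ q ∈ I, (x q : ZMod M)) * ∏ q ∈ J, (F q : ZMod M)) := by
    have e : (∏ q ∈ I, (x q : ZMod M)) * ∏ q ∈ J, (F q : ZMod M) =
        (((∏ q ∈ I, x q) * ∏ q ∈ J, F q : ℕ) : ZMod M) := by push_cast; rfl
    rw [e, ZMod.isUnit_iff_coprime]
    apply Nat.Coprime.mul_left
    · exact Nat.Coprime.prod_left fun q hq => (hu q (Finset.mem_union_left _ hq)).1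
    · exact Nat.Coprime.prod_left fun q hq => (hu q (Finset.mem_union_right _ hq)).2
  have key : ((∏ q ∈ I, (x q : ZMod M)) * ∏ q ∈ J, (F q : ZMod M)) ^ 2 *
      (∏ q ∈ I, (q : ZMod M)) ^ (2 * i) =
      ((∏ q ∈ I, (x q : ZMod M)) * ∏ q ∈ J, (F q : ZMod M)) ^ 2 *
      (∏ q ∈ J, (q : ZMod M)) ^ (2 * i) := by
    calc ((∏ q ∈ I, (x q : ZMod M)) * ∏ q ∈ J, (F q : ZMod M)) ^ 2 *
          (∏ q ∈ I, (q : ZMod M)) ^ (2 * i)
        = (∏ q ∈ J, (F q : ZMod M)) ^ 2 * ((∏ q ∈ I, (x q : ZMod M)) ^ 2 *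
          (∏ q ∈ I, (q : ZMod M)) ^ (2 * i)) := by ring
      _ = (∏ q ∈ I, (F q : ZMod M)) ^ 2 * (∏ q ∈ J, (F q : ZMod M)) ^ 2 := by rw [hI]; ring
      _ = (∏ q ∈ I, (F q : ZMod M)) ^ 2 * ((∏ q ∈ J, (x q : ZMod M)) ^ 2 *
          (∏ q ∈ J, (q : ZMod M)) ^ (2 * i)) := by rw [hJ]
      _ = ((∏ q ∈ J, (x q : ZMod M)) * ∏ q ∈ I, (F q : ZMod M)) ^ 2 *
          (∏ q ∈ J, (q : ZMod M)) ^ (2 * i) := by ring
      _ = _ := by rw [hp]
  have := (hunit.pow 2).mul_left_cancel key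
  push_cast
  exact this

/-- RO-K2c. From exponent vectors to the product relation: two positive integers with prime factors
in `S0` are equal when their exponents agree on `S0`.
PROOF. The exponent of `l ∈ S0` in `(∏_I x) (∏_J F)` is `∑_I v_l(x) + ∑_J v_l(F)`. -/
theorem prod_eq_of_sum_eq (S0 : Finset ℕ) (I J : Finset ℕ) (x F : ℕ → ℕ)
    (h0 : ∀ q ∈ I ∪ J, x q ≠ 0 ∧ F q ≠ 0 ∧ (x q).primeFactors ⊆ S0 ∧ (F q).primeFactors ⊆ S0)
    (hs : ∀ l ∈ S0, ∑ q ∈ I, (((x q).factorization l : ℤ) - (F q).factorization l) =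
      ∑ q ∈ J, (((x q).factorization l : ℤ) - (F q).factorization l)) :
    (∏ q ∈ I, x q) * ∏ q ∈ J, F q = (∏ q ∈ J, x q) * ∏ q ∈ I, F q := by
  have hxI : ∀ q ∈ I, x q ≠ 0 := fun q hq => (h0 q (Finset.mem_union_left _ hq)).1
  have hxJ : ∀ q ∈ J, x q ≠ 0 := fun q hq => (h0 q (Finset.mem_union_right _ hq)).1
  have hFI : ∀ q ∈ I, F q ≠ 0 := fun q hq => (h0 q (Finset.mem_union_left _ hq)).2.1
  have hFJ : ∀ q ∈ J, F q ≠ 0 := fun q hq => (h0 q (Finset.mem_union_right _ hq)).2.1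
  apply Nat.eq_of_factorization_eq
  · exact mul_ne_zero (Finset.prod_ne_zero_iff.2 hxI) (Finset.prod_ne_zero_iff.2 hFJ)
  · exact mul_ne_zero (Finset.prod_ne_zero_iff.2 hxJ) (Finset.prod_ne_zero_iff.2 hFI)
  intro l
  rw [Nat.factorization_mul (Finset.prod_ne_zero_iff.2 hxI) (Finset.prod_ne_zero_iff.2 hFJ),
    Nat.factorization_mul (Finset.prod_ne_zero_iff.2 hxJ) (Finset.prod_ne_zero_iff.2 hFI),
    Nat.factorization_prod hxI, Nat.factorization_prod hFJ, Nat.factorization_prod hxJ,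
    Nat.factorization_prod hFI]
  simp only [Finsupp.add_apply, Finsupp.finsetSum_apply]
  by_cases hl : l ∈ S0
  · have h := hs l hl
    rw [Finset.sum_sub_distrib, Finset.sum_sub_distrib] at h
    zify
    linarith
  · have hzx : ∀ q ∈ I ∪ J, (x q).factorization l = 0 := fun q hq => by
      rw [← Finsupp.notMem_support_iff]
      exact fun hh => hl ((h0 q hq).2.2.1 hh)
    have hzF : ∀ q ∈ I ∪ J, (F q).factorization l = 0 := fun q hq => by
      rw [← Finsupp.notMem_support_iff]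
      exact fun hh => hl ((h0 q hq).2.2.2 hh)
    rw [Finset.sum_eq_zero fun q hq => hzx q (Finset.mem_union_left _ hq),
      Finset.sum_eq_zero fun q hq => hzF q (Finset.mem_union_right _ hq),
      Finset.sum_eq_zero fun q hq => hzx q (Finset.mem_union_right _ hq),
      Finset.sum_eq_zero fun q hq => hzF q (Finset.mem_union_left _ hq)]

end Pool.Agent.Helper42.RO
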