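import Mathlib
import Pool.Agent.Helper42.RO.Defs

set_option autoImplicit false

open Finset

namespace Pool.Agent.Helper42.RO

/-- A finite cyclic group has at most `gcd (n, |G|)` solutions of `x ^ n = 1`. -/
private theorem K1_cyclic {G : Type} [Group G] [Finite G] [IsCyclic G] (n : ℕ) (hn : 1 ≤ n) :
    Nat.card {x : G // x ^ n = 1} ≤ Nat.gcd n (Nat.card G) := by
  classical
  have : Fintype G := Fintype.ofFinite G
  have hg : 0 < Nat.gcd n (Nat.card G) := Nat.gcd_pos_of_pos_left _ hn
  have h1 := IsCyclic.card_pow_eq_one_le (α := G) hg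
  rw [Nat.card_eq_fintype_card, Fintype.card_subtype]
  refine le_trans (Finset.card_le_card ?_) h1
  intro x hx
  rw [Finset.mem_filter] at hx ⊢
  exact ⟨hx.1, pow_gcd_eq_one.mpr ⟨hx.2, pow_card_eq_one'⟩⟩

/-- A finite commutative group with a cyclic subgroup of index `2`. -/
private theorem K1_index_two {G : Type} [CommGroup G] [Finite G] (H : Subgroup G) [IsCyclic H]
    (hi : H.index ∣ 2) (n : ℕ) (hn : 1 ≤ n) :
    Nat.card {x : G // x ^ n = 1} ≤ 2 * Nat.gcd n (Nat.card H) := by
  classical
  let T : Subgroup G := (powMonoidHom n : G →* G).ker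
  have hT : Nat.card {x : G // x ^ n = 1} = Nat.card T := by
    refine Nat.card_congr (Equiv.subtypeEquivRight fun x => ?_)
    show x ^ n = 1 ↔ x ∈ (powMonoidHom n : G →* G).ker
    rw [MonoidHom.mem_ker, powMonoidHom_apply]
  have h1 := Subgroup.card_mul_index (H.subgroupOf T)
  have h2 : (H.subgroupOf T).index ≤ 2 :=
    Nat.le_of_dvd two_pos ((Subgroup.relIndex_dvd_index_of_normal H T).trans hi)
  have h3 : Nat.card (H.subgroupOf T) ≤ Nat.card {x : H // x ^ n = 1} := by
    let φ : (H.subgroupOf T) → {x : H // x ^ n = 1} := fun y =>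
      ⟨⟨y.1.1, y.2⟩, by
        apply Subtype.ext
        have h4 : (y.1.1 : G) ∈ (powMonoidHom n : G →* G).ker := y.1.2
        rw [MonoidHom.mem_ker, powMonoidHom_apply] at h4
        exact h4⟩
    refine Nat.card_le_card_of_injective φ ?_
    intro y z hyz
    apply Subtype.ext
    apply Subtype.ext
    exact congrArg (fun t : {x : H // x ^ n = 1} => (t.1.1 : G)) hyz
  have h4 := K1_cyclic (G := H) n hn
  rw [hT, ← h1, mul_comm]
  exact Nat.mul_le_mul h2 (h3.trans h4)

/-- RO-K1. The number of solutions of `ρ ^ n = 1` modulo a prime power.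
PROOF. For odd `p` the group is cyclic (`ZMod.isCyclic_units_of_prime_pow`), its order is
`φ(p ^ e)` (`ZMod.card_units_eq_totient`), `ρ ^ n = 1` implies `ρ ^ gcd (n, φ) = 1`, and a cyclic
group has at most `g` solutions of `ρ ^ g = 1` (`IsCyclic.card_pow_eq_one_le`). For `p = 2` let `H`
be the subgroup generated by `5`, cyclic of order `2 ^ (e - 2)`, index `2` (`ZMod.orderOf_five`;
`e ≤ 2` is trivial because the group has at most `2` elements): two solutions in the same coset of
`H` differ by a solution in `H`, so each of the two cosets has at most `gcd (n, 2 ^ (e - 2))`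
solutions, and this divides `gcd (n, φ)`. -/
theorem card_roots (p e n : ℕ) (hp : p.Prime) (he : 1 ≤ e) (hn : 1 ≤ n) :
    Nat.card {ρ : (ZMod (p ^ e))ˣ // ρ ^ n = 1} ≤ 2 * Nat.gcd n (Nat.totient (p ^ e)) := by
  have hne : NeZero (p ^ e) := ⟨pow_ne_zero e hp.ne_zero⟩
  have hcard : Nat.card (ZMod (p ^ e))ˣ = Nat.totient (p ^ e) := by
    rw [Nat.card_eq_fintype_card, ZMod.card_units_eq_totient]
  by_cases hp2 : p = 2
  · subst hp2
    by_cases he2 : e ≤ 2
    · have : IsCyclic (ZMod (2 ^ e))ˣ := (ZMod.isCyclic_units_two_pow_iff e).mpr he2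
      have h1 := K1_cyclic (G := (ZMod (2 ^ e))ˣ) n hn
      rw [hcard] at h1
      omega
    · push Not at he2
      let five : (ZMod (2 ^ e))ˣ := ZMod.unitOfCoprime 5 (Nat.Coprime.pow_right e (by norm_num))
      have h5 : orderOf five = 2 ^ (e - 2) := by
        have h6 : ((5 : ZMod (2 ^ e))) = (five : ZMod (2 ^ e)) := rfl
        rw [← orderOf_units, ← h6]
        have h7 := ZMod.orderOf_five (e - 2)
        rwa [show e - 2 + 2 = e by omega] at h7
      have hH : Nat.card (Subgroup.zpowers five) = 2 ^ (e - 2) := by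
        rw [Nat.card_zpowers, h5]
      have hφ : Nat.totient (2 ^ e) = 2 ^ (e - 2) * 2 := by
        rw [Nat.totient_prime_pow Nat.prime_two (by omega), ← pow_succ]
        rw [show e - 2 + 1 = e - 1 by omega]
        omega
      have hi : (Subgroup.zpowers five).index = 2 := by
        have h1 := Subgroup.card_mul_index (Subgroup.zpowers five)
        rw [hcard, hH, hφ] at h1
        exact Nat.eq_of_mul_eq_mul_left (by positivity) h1
      have h1 := K1_index_two (Subgroup.zpowers five) (dvd_of_eq hi) n hn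
      refine h1.trans (Nat.mul_le_mul_left 2 ?_)
      rw [hH, hφ]
      refine Nat.le_of_dvd (Nat.gcd_pos_of_pos_left _ hn) ?_
      exact Nat.gcd_dvd_gcd_of_dvd_right n (dvd_mul_right _ _)
  · have : IsCyclic (ZMod (p ^ e))ˣ := ZMod.isCyclic_units_of_prime_pow p hp hp2 e
    have h1 := K1_cyclic (G := (ZMod (p ^ e))ˣ) n hn
    rw [hcard] at h1
    omega

end Pool.Agent.Helper42.RO
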