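import Mathlib
import Pool.Agent.Helper42.RO.Defs

set_option autoImplicit false

open Finset

namespace Pool.Agent.Helper42.RO

private theorem D1_a_card (Z r : ℕ) : ((Icc 1 Z).filter (fun N => r ∣ N)).card = Z / r := by
  have h : Icc 1 Z = Ioc 0 Z := rfl
  rw [h]
  exact Nat.Ioc_filter_dvd_card_eq_div Z r

private theorem D1_a_f (P : Finset ℕ) (N : ℕ) :
    ((P.filter (fun p => p ∣ N)).card : ℝ) = ∑ p ∈ P, if p ∣ N then (1 : ℝ) else 0 := by
  rw [Finset.card_filter]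
  push_cast
  rfl

/-- Turan's inequality. -/
theorem turan_p (Z : ℕ) (P : Finset ℕ) (hP : ∀ p ∈ P, p.Prime) :
    ∑ N ∈ Icc 1 Z, (((P.filter (fun p => p ∣ N)).card : ℝ) - ∑ p ∈ P, (1 : ℝ) / p) ^ 2 ≤
      Z * (∑ p ∈ P, (1 : ℝ) / p) + 2 * (∑ p ∈ P, (1 : ℝ) / p) * P.card := by
  classical
  set μ : ℝ := ∑ p ∈ P, (1 : ℝ) / p with hμ
  have hμ0 : 0 ≤ μ := Finset.sum_nonneg fun p _ => by positivity
  have hsum : (Z : ℝ) * μ - P.card ≤
      ∑ N ∈ Icc 1 Z, ((P.filter (fun p => p ∣ N)).card : ℝ) := by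
    simp only [D1_a_f]
    rw [Finset.sum_comm]
    have h1 : ∀ p ∈ P, (Z : ℝ) * (1 / p) - 1 ≤
        ∑ N ∈ Icc 1 Z, (if p ∣ N then (1 : ℝ) else 0) := by
      intro p hp
      have hpos : 0 < p := (hP p hp).pos
      have h2 : (∑ N ∈ Icc 1 Z, (if p ∣ N then (1 : ℝ) else 0)) = ((Z / p : ℕ) : ℝ) := by
        rw [← D1_a_card Z p, Finset.card_filter]
        push_cast
        rfl
      rw [h2]
      have h3 : (Z : ℝ) < p * ((Z / p : ℕ) : ℝ) + p := by
        have h4 := Nat.lt_mul_div_succ Z hpos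
        have h5 : ((Z : ℕ) : ℝ) < ((p * (Z / p + 1) : ℕ) : ℝ) := by exact_mod_cast h4
        push_cast at h5
        linarith
      have hp0 : (0 : ℝ) < p := by exact_mod_cast hpos
      have h6 : (Z : ℝ) * (1 / p) = Z / p := by ring
      rw [h6, sub_le_iff_le_add, div_le_iff₀ hp0]
      nlinarith
    calc (Z : ℝ) * μ - P.card = ∑ p ∈ P, ((Z : ℝ) * (1 / p) - 1) := by
          rw [Finset.sum_sub_distrib, ← Finset.mul_sum, hμ]
          simp
      _ ≤ _ := Finset.sum_le_sum h1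
  have hsq : ∑ N ∈ Icc 1 Z, ((P.filter (fun p => p ∣ N)).card : ℝ) ^ 2 ≤
      Z * μ ^ 2 + Z * μ := by
    have h1 : ∀ N, ((P.filter (fun p => p ∣ N)).card : ℝ) ^ 2 =
        ∑ p ∈ P, ∑ q ∈ P, if p ∣ N ∧ q ∣ N then (1 : ℝ) else 0 := by
      intro N
      rw [D1_a_f, pow_two, Finset.sum_mul_sum]
      refine Finset.sum_congr rfl fun p _ => Finset.sum_congr rfl fun q _ => ?_
      by_cases hp : p ∣ N <;> by_cases hq : q ∣ N <;> simp [hp, hq]
    simp only [h1]
    rw [Finset.sum_comm]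
    have h2 : ∀ p ∈ P, ∑ N ∈ Icc 1 Z, ∑ q ∈ P, (if p ∣ N ∧ q ∣ N then (1 : ℝ) else 0) ≤
        (Z : ℝ) * (1 / p) * μ + Z * (1 / p) := by
      intro p hp
      rw [Finset.sum_comm]
      have hp0 : (0 : ℝ) < p := by exact_mod_cast (hP p hp).pos
      have h3 : ∀ q ∈ P, ∑ N ∈ Icc 1 Z, (if p ∣ N ∧ q ∣ N then (1 : ℝ) else 0) ≤
          (Z : ℝ) * (1 / p) * (1 / q) + if q = p then (Z : ℝ) * (1 / p) else 0 := by
        intro q hq
        have hq0 : (0 : ℝ) < q := by exact_mod_cast (hP q hq).pos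
        by_cases hqp : q = p
        · rw [if_pos hqp]
          subst hqp
          have h4 : (∑ N ∈ Icc 1 Z, (if q ∣ N ∧ q ∣ N then (1 : ℝ) else 0)) =
              ((Z / q : ℕ) : ℝ) := by
            rw [← D1_a_card Z q, Finset.card_filter]
            push_cast
            simp
          rw [h4]
          have h5 : ((Z / q : ℕ) : ℝ) ≤ (Z : ℝ) / q := Nat.cast_div_le
          have h6 : (0 : ℝ) ≤ (Z : ℝ) * (1 / q) * (1 / q) := by positivity
          have h7 : (Z : ℝ) * (1 / q) = Z / q := by ring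
          linarith
        · rw [if_neg hqp, add_zero]
          have hc : p.Coprime q := (Nat.coprime_primes (hP p hp) (hP q hq)).2
            (fun h => hqp h.symm)
          have h4 : (∑ N ∈ Icc 1 Z, (if p ∣ N ∧ q ∣ N then (1 : ℝ) else 0)) =
              ((Z / (p * q) : ℕ) : ℝ) := by
            rw [← D1_a_card Z (p * q), Finset.card_filter]
            push_cast
            refine Finset.sum_congr rfl fun N _ => ?_
            have h5 : (p ∣ N ∧ q ∣ N) ↔ p * q ∣ N :=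
              ⟨fun h => hc.mul_dvd_of_dvd_of_dvd h.1 h.2,
                fun h => ⟨(Dvd.intro _ rfl).trans h, (Dvd.intro_left _ rfl).trans h⟩⟩
            simp only [h5]
          rw [h4]
          have h5 : ((Z / (p * q) : ℕ) : ℝ) ≤ (Z : ℝ) / ((p * q : ℕ) : ℝ) := Nat.cast_div_le
          have h6 : (Z : ℝ) / ((p * q : ℕ) : ℝ) = (Z : ℝ) * (1 / p) * (1 / q) := by
            push_cast
            field_simp
          linarith
      calc ∑ q ∈ P, ∑ N ∈ Icc 1 Z, (if p ∣ N ∧ q ∣ N then (1 : ℝ) else 0)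
          ≤ ∑ q ∈ P, ((Z : ℝ) * (1 / p) * (1 / q) +
              if q = p then (Z : ℝ) * (1 / p) else 0) := Finset.sum_le_sum h3
        _ = (Z : ℝ) * (1 / p) * μ + Z * (1 / p) := by
            rw [Finset.sum_add_distrib, ← Finset.mul_sum, Finset.sum_ite_eq' P p, if_pos hp]
    calc ∑ p ∈ P, ∑ N ∈ Icc 1 Z, ∑ q ∈ P, (if p ∣ N ∧ q ∣ N then (1 : ℝ) else 0)
        ≤ ∑ p ∈ P, ((Z : ℝ) * (1 / p) * μ + Z * (1 / p)) := Finset.sum_le_sum h2
      _ = Z * μ ^ 2 + Z * μ := by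
          rw [Finset.sum_add_distrib, ← Finset.sum_mul, ← Finset.mul_sum]
          rw [← hμ]
          ring
  have hexp : ∑ N ∈ Icc 1 Z, (((P.filter (fun p => p ∣ N)).card : ℝ) - μ) ^ 2 =
      ∑ N ∈ Icc 1 Z, ((P.filter (fun p => p ∣ N)).card : ℝ) ^ 2 -
        2 * μ * ∑ N ∈ Icc 1 Z, ((P.filter (fun p => p ∣ N)).card : ℝ) + Z * μ ^ 2 := by
    have h1 : ∀ N, (((P.filter (fun p => p ∣ N)).card : ℝ) - μ) ^ 2 =
        ((P.filter (fun p => p ∣ N)).card : ℝ) ^ 2 -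
          2 * μ * ((P.filter (fun p => p ∣ N)).card : ℝ) + μ ^ 2 := fun N => by ring
    simp only [h1]
    rw [Finset.sum_add_distrib, Finset.sum_sub_distrib, ← Finset.mul_sum]
    simp
  rw [hexp]
  nlinarith [mul_le_mul_of_nonneg_left hsum hμ0]

end Pool.Agent.Helper42.RO
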