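import Mathlib
import Pool.Agent.Helper9.Fam.Mertens

set_option autoImplicit false

open Finset

namespace Pool.Agent.Helper42.RO

private lemma D1b_two_le {Z : ℝ} (hZ : 16 ≤ Z) : (2 : ℝ) ≤ Z ^ (1 / 4 : ℝ) := by
  have h1 : (2 : ℝ) = ((16 : ℝ)) ^ (1 / 4 : ℝ) := by
    rw [show (16 : ℝ) = (2 : ℝ) ^ (4 : ℝ) by norm_num, ← Real.rpow_mul (by norm_num)]
    norm_num
  rw [h1]
  exact Real.rpow_le_rpow (by norm_num) hZ (by norm_num)

private lemma D1b_set (Z : ℕ) (ε : ℝ) (hZ : 1 ≤ Z) :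
    (Icc 1 Z).filter
      (fun p : ℕ => p.Prime ∧ (Z : ℝ) ^ ε < p ∧ (p : ℝ) ≤ (Z : ℝ) ^ (1 / 4 : ℝ)) =
      Pool.Agent.Helper9.Fam.pr ⌊(Z : ℝ) ^ (1 / 4 : ℝ)⌋₊ \
        Pool.Agent.Helper9.Fam.pr ⌊(Z : ℝ) ^ ε⌋₊ := by
  have hZ1 : (1 : ℝ) ≤ Z := by exact_mod_cast hZ
  ext p
  rw [mem_filter, mem_Icc, mem_sdiff, Pool.Agent.Helper9.Fam.mem_pr,
    Pool.Agent.Helper9.Fam.mem_pr, Nat.le_floor_iff (by positivity),
    Nat.le_floor_iff (by positivity)]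
  constructor
  · rintro ⟨_, h1, h2, h3⟩
    exact ⟨⟨h1, h3⟩, fun h => absurd h.2 (not_le.2 h2)⟩
  · rintro ⟨⟨h1, h3⟩, h2⟩
    refine ⟨⟨h1.one_le, ?_⟩, h1, ?_, h3⟩
    · have h4 : (Z : ℝ) ^ (1 / 4 : ℝ) ≤ (Z : ℝ) ^ (1 : ℝ) :=
        Real.rpow_le_rpow_of_exponent_le hZ1 (by norm_num)
      rw [Real.rpow_one] at h4
      exact_mod_cast h3.trans h4
    · by_contra h
      exact h2 ⟨h1, not_lt.1 h⟩

/-- RO-D2. The primes between `Z ^ ε` and `Z ^ (1 / 4)`: the reciprocal sum is large. -/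
theorem mertens_gap_p (B : ℝ) : ∃ ε0 : ℝ, 0 < ε0 ∧ ∀ ε : ℝ, 0 < ε → ε ≤ ε0 →
    ∃ Z0 : ℕ, ∀ Z : ℕ, Z0 ≤ Z → B ≤ ∑ p ∈ (Icc 1 Z).filter
      (fun p : ℕ => p.Prime ∧ (Z : ℝ) ^ ε < p ∧ (p : ℝ) ≤ (Z : ℝ) ^ (1 / 4 : ℝ)), (1 : ℝ) / p := by
  obtain ⟨C, hC0, hC⟩ := Pool.Agent.Helper9.Fam.mertens_two
  refine ⟨Real.exp (-(B + 2 * C)) / 8, by positivity, fun ε hε hε0 => ?_⟩
  refine ⟨max 256 ⌈(2 : ℝ) ^ (1 / ε)⌉₊, fun Z hZ => ?_⟩
  have hZ1 : 256 ≤ Z := (le_max_left _ _).trans hZ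
  have hZ1' : (256 : ℝ) ≤ Z := by exact_mod_cast hZ1
  have hZ2 : (2 : ℝ) ^ (1 / ε) ≤ Z :=
    (Nat.le_ceil _).trans (by exact_mod_cast (le_max_right _ _).trans hZ)
  have hZ0 : (0 : ℝ) < Z := by linarith
  rw [D1b_set Z ε (by omega)]
  set u := ⌊(Z : ℝ) ^ (1 / 4 : ℝ)⌋₊ with hu
  set v := ⌊(Z : ℝ) ^ ε⌋₊ with hv
  have h4 : (2 : ℝ) ≤ (Z : ℝ) ^ (1 / 4 : ℝ) := D1b_two_le (by linarith)
  have h5 : (2 : ℝ) ≤ (Z : ℝ) ^ ε := by
    have h6 : (2 : ℝ) = ((2 : ℝ) ^ (1 / ε)) ^ ε := by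
      rw [← Real.rpow_mul (by norm_num), one_div_mul_cancel hε.ne', Real.rpow_one]
    calc (2 : ℝ) = ((2 : ℝ) ^ (1 / ε)) ^ ε := h6
      _ ≤ (Z : ℝ) ^ ε := Real.rpow_le_rpow (by positivity) hZ2 hε.le
  have hu2 : 2 ≤ u := Nat.le_floor (by exact_mod_cast h4)
  have hv2 : 2 ≤ v := Nat.le_floor (by exact_mod_cast h5)
  have hlogZ : 0 < Real.log Z := Real.log_pos (by linarith)
  have hlog2 : 8 * Real.log 2 ≤ Real.log Z := by
    rw [show (8 : ℝ) * Real.log 2 = Real.log 256 by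
      rw [show (256 : ℝ) = 2 ^ 8 by norm_num, Real.log_pow]
      norm_num]
    exact Real.log_le_log (by norm_num) hZ1'
  -- lower bound for `u`
  have hul : 1 / 8 * Real.log Z ≤ Real.log u := by
    have h7 : (Z : ℝ) ^ (1 / 4 : ℝ) / 2 ≤ u := by
      have := Nat.lt_floor_add_one ((Z : ℝ) ^ (1 / 4 : ℝ))
      rw [← hu] at this
      linarith
    have h8 := Real.log_le_log (by positivity) h7
    rw [Real.log_div (by positivity) (by norm_num), Real.log_rpow hZ0] at h8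
    linarith
  have hvu : Real.log v ≤ ε * Real.log Z := by
    have h7 : (v : ℝ) ≤ (Z : ℝ) ^ ε := Nat.floor_le (by positivity)
    have h8 := Real.log_le_log (by exact_mod_cast (by omega : 0 < v)) h7
    rwa [Real.log_rpow hZ0] at h8
  have hv0 : 0 < Real.log v := Real.log_pos (by exact_mod_cast (by omega : 1 < v))
  have h9 : Real.log (1 / 8) + Real.log (Real.log Z) ≤ Real.log (Real.log u) := by
    rw [← Real.log_mul (by norm_num) hlogZ.ne']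
    exact Real.log_le_log (by positivity) hul
  have h10 : Real.log (Real.log v) ≤ Real.log ε + Real.log (Real.log Z) := by
    rw [← Real.log_mul hε.ne' hlogZ.ne']
    exact Real.log_le_log hv0 hvu
  have h11 : Real.log ε ≤ -(B + 2 * C) - Real.log 8 := by
    have := Real.log_le_log hε hε0
    rwa [Real.log_div (by positivity) (by norm_num), Real.log_exp] at this
  have h12 : Real.log (1 / 8 : ℝ) = -Real.log 8 := by
    rw [one_div, Real.log_inv]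
  have h13 := abs_le.1 (hC u hu2)
  have h14 := abs_le.1 (hC v hv2)
  have h15 : ∑ r ∈ Pool.Agent.Helper9.Fam.pr u, 1 / (r : ℝ) ≤
      ∑ r ∈ Pool.Agent.Helper9.Fam.pr u \ Pool.Agent.Helper9.Fam.pr v, 1 / (r : ℝ) +
        ∑ r ∈ Pool.Agent.Helper9.Fam.pr v, 1 / (r : ℝ) := by
    rw [← Finset.sum_union sdiff_disjoint]
    apply Finset.sum_le_sum_of_subset_of_nonneg
    · intro r hr
      rw [mem_union, mem_sdiff]
      by_cases h : r ∈ Pool.Agent.Helper9.Fam.pr v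
      · exact Or.inr h
      · exact Or.inl ⟨hr, h⟩
    · intro r _ _
      positivity
  linarith [h13.1, h14.2]

end Pool.Agent.Helper42.RO
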