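import Mathlib
import Pool.Agent.Helper42.RO.Defs

set_option autoImplicit false

open Finset

namespace Pool.Agent.Helper42.RO

private lemma S1_a_choose {ι : Type*} [DecidableEq ι] (F : Finset ι) (w s : ι → ℝ)
    (hw : ∀ i ∈ F, 0 ≤ w i) (hs : ∀ i ∈ F, 0 ≤ s i) (hF : F.Nonempty) :
    ∃ j ∈ F, ∀ i ∈ F, s i * w j ≤ s j * w i := by
  by_cases h : ∃ j ∈ F, w j = 0
  · obtain ⟨j, hj, hj0⟩ := h
    refine ⟨j, hj, fun i hi => ?_⟩
    rw [hj0, mul_zero]
    exact mul_nonneg (hs j hj) (hw i hi)
  · push Not at h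
    obtain ⟨j, hj, hmax⟩ := F.exists_max_image (fun i => s i / w i) hF
    refine ⟨j, hj, fun i hi => ?_⟩
    have h1 : 0 < w i := lt_of_le_of_ne (hw i hi) (h i hi).symm
    have h2 : 0 < w j := lt_of_le_of_ne (hw j hj) (h j hj).symm
    exact (div_le_div_iff₀ h1 h2).1 (hmax i hi)

/-- RO-S1a. Greedy choice. -/
theorem greedy_p {ι : Type*} [DecidableEq ι] (F : Finset ι) (w s : ι → ℝ) (hw : ∀ i ∈ F, 0 ≤ w i)
    (hs : ∀ i ∈ F, 0 ≤ s i) (M t : ℝ) (hM : ∀ i ∈ F, s i ≤ M) (h0 : 0 ≤ M) (ht : 0 ≤ t)
    (htW : t ≤ ∑ i ∈ F, w i) :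
    ∃ A : Finset ι, A ⊆ F ∧ ∑ i ∈ A, w i ≤ t ∧
      t * ∑ i ∈ F, s i ≤ (∑ i ∈ A, s i + M) * ∑ i ∈ F, w i := by
  induction F using Finset.strongInduction generalizing t with
  | H F ih =>
    rcases eq_or_lt_of_le htW with heq | hlt
    · refine ⟨F, Finset.Subset.refl F, heq.ge, ?_⟩
      rw [heq, add_mul, mul_comm]
      have h1 : 0 ≤ M * ∑ i ∈ F, w i := mul_nonneg h0 (Finset.sum_nonneg hw)
      linarith
    · have hF : F.Nonempty := by
        rw [Finset.nonempty_iff_ne_empty]
        rintro rfl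
        simp at hlt
        linarith
      obtain ⟨j, hj, hmax⟩ := S1_a_choose F w s hw hs hF
      have hsum : (∑ i ∈ F, s i) * w j ≤ s j * ∑ i ∈ F, w i := by
        rw [Finset.sum_mul, Finset.mul_sum]
        exact Finset.sum_le_sum hmax
      have hS : 0 ≤ ∑ i ∈ F, s i := Finset.sum_nonneg hs
      have hW : 0 ≤ ∑ i ∈ F, w i := Finset.sum_nonneg hw
      rcases lt_or_ge t (w j) with hlt' | hge
      · refine ⟨∅, Finset.empty_subset F, by simpa using ht, ?_⟩
        rw [Finset.sum_empty, zero_add]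
        calc t * ∑ i ∈ F, s i ≤ w j * ∑ i ∈ F, s i := mul_le_mul_of_nonneg_right hlt'.le hS
          _ = (∑ i ∈ F, s i) * w j := mul_comm _ _
          _ ≤ s j * ∑ i ∈ F, w i := hsum
          _ ≤ M * ∑ i ∈ F, w i := mul_le_mul_of_nonneg_right (hM j hj) hW
      · have hWe : w j + ∑ i ∈ F.erase j, w i = ∑ i ∈ F, w i := Finset.add_sum_erase F w hj
        have hSe : s j + ∑ i ∈ F.erase j, s i = ∑ i ∈ F, s i := Finset.add_sum_erase F s hj
        obtain ⟨A', hA', hA1, hA2⟩ := ih (F.erase j) (Finset.erase_ssubset hj)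
          (fun i hi => hw i (Finset.mem_of_mem_erase hi))
          (fun i hi => hs i (Finset.mem_of_mem_erase hi)) (t - w j)
          (fun i hi => hM i (Finset.mem_of_mem_erase hi)) (by linarith) (by linarith)
        have hjA : j ∉ A' := fun h => Finset.notMem_erase j F (hA' h)
        refine ⟨insert j A', ?_, ?_, ?_⟩
        · intro i hi
          rcases Finset.mem_insert.1 hi with rfl | hi
          · exact hj
          · exact Finset.mem_of_mem_erase (hA' hi)
        · rw [Finset.sum_insert hjA]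
          linarith
        · rw [Finset.sum_insert hjA]
          set W' := ∑ i ∈ F.erase j, w i with hW'
          set S' := ∑ i ∈ F.erase j, s i with hS'
          set x := ∑ i ∈ A', s i with hx
          rw [← hWe, ← hSe] at hsum
          rw [← hWe] at hlt
          rw [← hWe, ← hSe]
          have hW'pos : 0 < W' := by linarith
          have key : 0 ≤ (W' - (t - w j)) * (s j * W' - S' * w j) := by
            apply mul_nonneg
            · linarith
            · nlinarith
          have h3 : (t - w j) * S' * (w j + W') ≤ (x + M) * W' * (w j + W') := by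
            apply mul_le_mul_of_nonneg_right hA2
            have := hw j hj
            linarith
          have h4 : (t * (s j + S')) * W' ≤ ((s j + x + M) * (w j + W')) * W' := by
            nlinarith
          exact le_of_mul_le_mul_right h4 hW'pos

end Pool.Agent.Helper42.RO
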