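import Mathlib
import Pool.Agent.Helper42.RO.Defs
import Pool.Agent.Helper42.RO.S1_a

set_option autoImplicit false

open Finset

namespace Pool.Agent.Helper42.RO

/-- RO-S1a. Greedy choice.
PROOF. Strong induction on `F` for all `t`. If `t = ∑ w` take `A = F`. So `t < W = ∑ w`, `F` is
nonempty. Choose `j ∈ F` with `s i * w j ≤ s j * w i` for all `i ∈ F` (if some `w j = 0` take this
`j`, otherwise maximise `s j / w j`); summing, `S w_j ≤ s_j W` with `S = ∑ s`. If `w_j > t` take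
`A = ∅`: `t S ≤ w_j S ≤ s_j W ≤ M W`. If `w_j ≤ t` apply the induction hypothesis to `F \ {j}` and
`t' = t - w_j`, with result `A'`, and take `A = A' ∪ {j}`. With `W' = W - w_j`, `S' = S - s_j`,
`x = ∑_{A'} s + M` we have `t' S' ≤ x W'`, `t' < W'`, and must show `t S ≤ (x + s_j) W`; this follows
from `(t' S' + s_j W') W - t S W' = (W' - t') (s_j W' - S' w_j) ≥ 0` (note
`s_j W' - S' w_j = s_j W - S w_j ≥ 0`) and `W' > 0`. -/
theorem greedy {ι : Type*} [DecidableEq ι] (F : Finset ι) (w s : ι → ℝ) (hw : ∀ i ∈ F, 0 ≤ w i)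
    (hs : ∀ i ∈ F, 0 ≤ s i) (M t : ℝ) (hM : ∀ i ∈ F, s i ≤ M) (h0 : 0 ≤ M) (ht : 0 ≤ t)
    (htW : t ≤ ∑ i ∈ F, w i) :
    ∃ A : Finset ι, A ⊆ F ∧ ∑ i ∈ A, w i ≤ t ∧
      t * ∑ i ∈ F, s i ≤ (∑ i ∈ A, s i + M) * ∑ i ∈ F, w i := by
  exact greedy_p F w s hw hs M t hM h0 ht htW

/-- The product of the light primes: those with `p ^ v_p(abc) ≤ c ^ (1 - η)`. -/
noncomputable def light (η : ℝ) (t : ℕ × ℕ) : ℕ :=
  ∏ p ∈ (T t).primeFactors.filter
    (fun p => ((p ^ (T t).factorization p : ℕ) : ℝ) ≤ (c t) ^ (1 - η)), p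

end Pool.Agent.Helper42.RO
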