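import Mathlib
import Pool.Agent.Helper42.RO.S1

set_option autoImplicit false

open Finset

namespace Pool.Agent.Helper42.RO

private theorem D1_c_one {t : ℕ × ℕ} (ht : Cop t) (η : ℝ) (h1 : η ≤ 1 / 2) (n m : ℕ)
    (hT : T t = n * m) (hc : n.Coprime m) (hn0 : 0 < n) (hnc : (n : ℝ) ≤ c t) (p q : ℕ)
    (hp : p.Prime) (hq : q.Prime) (hpn : p ∣ n) (hqn : q ∣ n)
    (hph : ¬ ((p ^ (T t).factorization p : ℕ) : ℝ) ≤ (c t) ^ (1 - η))
    (hqh : ¬ ((q ^ (T t).factorization q : ℕ) : ℝ) ≤ (c t) ^ (1 - η)) : p = q := by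
  by_contra hne
  have hm0 : m ≠ 0 := by
    rintro rfl
    exact ht.T_ne (by rw [hT]; simp)
  have hfac : ∀ r : ℕ, r.Prime → r ∣ n → (T t).factorization r = n.factorization r := by
    intro r hr hrn
    have hrm : ¬ r ∣ m := fun hrm => by
      have h2 := Nat.dvd_gcd hrn hrm
      rw [hc.gcd_eq_one] at h2
      exact hr.one_lt.ne' (Nat.dvd_one.1 h2)
    rw [hT, Nat.factorization_mul hn0.ne' hm0, Finsupp.add_apply,
      Nat.factorization_eq_zero_of_not_dvd hrm, add_zero]
  rw [hfac p hp hpn] at hph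
  rw [hfac q hq hqn] at hqh
  push Not at hph hqh
  have hd : p ^ n.factorization p * q ^ n.factorization q ∣ n := by
    apply Nat.Coprime.mul_dvd_of_dvd_of_dvd
    · exact Nat.Coprime.pow _ _ ((Nat.coprime_primes hp hq).2 hne)
    · exact Nat.ordProj_dvd n p
    · exact Nat.ordProj_dvd n q
  have hle : p ^ n.factorization p * q ^ n.factorization q ≤ n := Nat.le_of_dvd hn0 hd
  have hle' : ((p ^ n.factorization p : ℕ) : ℝ) * ((q ^ n.factorization q : ℕ) : ℝ) ≤ c t := by
    refine le_trans ?_ hnc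
    exact_mod_cast hle
  have hc0 := ht.c_pos
  have hpow : 0 < (c t) ^ (1 - η) := Real.rpow_pos_of_pos hc0 _
  have hsq : c t ≤ (c t) ^ (1 - η) * (c t) ^ (1 - η) := by
    rw [← Real.rpow_add hc0]
    conv_lhs => rw [← Real.rpow_one (c t)]
    apply Real.rpow_le_rpow_of_exponent_le
    · linarith [ht.two_le_c]
    · linarith
  have hlt : (c t) ^ (1 - η) * (c t) ^ (1 - η) <
      ((p ^ n.factorization p : ℕ) : ℝ) * ((q ^ n.factorization q : ℕ) : ℝ) :=
    mul_lt_mul'' hph hqh hpow.le hpow.le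
  linarith

/-- At most three heavy primes. -/
theorem heavy_card_p {t : ℕ × ℕ} (ht : Cop t) (η : ℝ) (_h0 : 0 ≤ η) (h1 : η ≤ 1 / 2) :
    ((T t).primeFactors.filter
      (fun p => ¬ ((p ^ (T t).factorization p : ℕ) : ℝ) ≤ (c t) ^ (1 - η))).card ≤ 3 := by
  classical
  set H := (T t).primeFactors.filter
      (fun p => ¬ ((p ^ (T t).factorization p : ℕ) : ℝ) ≤ (c t) ^ (1 - η)) with hH
  have hsub : H ⊆ (H.filter (fun p => p ∣ t.1) ∪ H.filter (fun p => p ∣ t.2)) ∪
      H.filter (fun p => p ∣ t.1 + t.2) := by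
    intro p hp
    have hp' := hp
    rw [hH, Finset.mem_filter] at hp'
    have hpr := Nat.prime_of_mem_primeFactors hp'.1
    rcases (mem_primeFactors_T ht hpr).1 hp'.1 with h | h | h
    · exact Finset.mem_union_left _ (Finset.mem_union_left _ (Finset.mem_filter.2 ⟨hp, h⟩))
    · exact Finset.mem_union_left _ (Finset.mem_union_right _ (Finset.mem_filter.2 ⟨hp, h⟩))
    · exact Finset.mem_union_right _ (Finset.mem_filter.2 ⟨hp, h⟩)
  have hone : ∀ n m : ℕ, T t = n * m → n.Coprime m → 0 < n → (n : ℝ) ≤ c t →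
      (H.filter (fun p => p ∣ n)).card ≤ 1 := by
    intro n m hT hc hn0 hnc
    rw [Finset.card_le_one]
    intro p hp q hq
    rw [Finset.mem_filter, hH, Finset.mem_filter] at hp hq
    exact D1_c_one ht η h1 n m hT hc hn0 hnc p q (Nat.prime_of_mem_primeFactors hp.1.1)
      (Nat.prime_of_mem_primeFactors hq.1.1) hp.2 hq.2 hp.1.2 hq.1.2
  have hp1 := ht.pos1
  have hp2 := ht.pos2
  have hA : (H.filter (fun p => p ∣ t.1)).card ≤ 1 := by
    apply hone t.1 (t.2 * (t.1 + t.2)) _ _ hp1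
    · unfold c
      exact_mod_cast (by omega : t.1 ≤ t.1 + t.2)
    · unfold T
      ring
    · exact Nat.Coprime.mul_right ht.cop ht.cop1
  have hB : (H.filter (fun p => p ∣ t.2)).card ≤ 1 := by
    apply hone t.2 (t.1 * (t.1 + t.2)) _ _ hp2
    · unfold c
      exact_mod_cast (by omega : t.2 ≤ t.1 + t.2)
    · unfold T
      ring
    · exact Nat.Coprime.mul_right ht.cop.symm ht.cop2
  have hC : (H.filter (fun p => p ∣ t.1 + t.2)).card ≤ 1 := by
    apply hone (t.1 + t.2) (t.1 * t.2) _ _ (by omega)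
    · exact le_refl _
    · unfold T
      ring
    · exact Nat.Coprime.mul_right ht.cop1.symm ht.cop2.symm
  calc H.card ≤ _ := Finset.card_le_card hsub
    _ ≤ (H.filter (fun p => p ∣ t.1) ∪ H.filter (fun p => p ∣ t.2)).card +
        (H.filter (fun p => p ∣ t.1 + t.2)).card := Finset.card_union_le _ _
    _ ≤ ((H.filter (fun p => p ∣ t.1)).card + (H.filter (fun p => p ∣ t.2)).card) +
        (H.filter (fun p => p ∣ t.1 + t.2)).card :=
        Nat.add_le_add_right (Finset.card_union_le _ _) _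
    _ ≤ 3 := by omega

end Pool.Agent.Helper42.RO
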