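import Mathlib
import Pool.Agent.Helper42.RO.S1
import Pool.Agent.Helper42.RO.D1_a
import Pool.Agent.Helper42.RO.D1_b
import Pool.Agent.Helper42.RO.D1_c

set_option autoImplicit false

open Finset

namespace Pool.Agent.Helper42.RO

/-- RO-D1. Turan's inequality.
PROOF. With `f N = |{p ∈ P : p ∣ N}|`: `∑ f = ∑_p ⌊Z / p⌋ ≥ Z μ - |P|`,
`∑ f ^ 2 = ∑_(p, p') #{N : p ∣ N, p' ∣ N} ≤ ∑_(p ≠ p') Z / (p p') + ∑_p Z / p ≤ Z μ ^ 2 + Z μ`, so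
`∑ (f - μ) ^ 2 ≤ Z μ + 2 μ |P|`. -/
theorem turan (Z : ℕ) (P : Finset ℕ) (hP : ∀ p ∈ P, p.Prime) :
    ∑ N ∈ Icc 1 Z, (((P.filter (fun p => p ∣ N)).card : ℝ) - ∑ p ∈ P, (1 : ℝ) / p) ^ 2 ≤
      Z * (∑ p ∈ P, (1 : ℝ) / p) + 2 * (∑ p ∈ P, (1 : ℝ) / p) * P.card := by
  exact turan_p Z P hP

/-- RO-D2. The primes between `Z ^ ε` and `Z ^ (1 / 4)`: the reciprocal sum is large.
PROOF. Both ends by `Pool.Agent.Helper9.Fam.mertens_two`: the difference of `log log` at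
`⌊Z ^ (1 / 4)⌋₊` and at `⌊Z ^ ε⌋₊` is at least `log (1 / (4 ε)) - 1` for `Z` large; choose `ε` with
`log (1 / (4 ε)) ≥ B + 2 C + 1`. -/
theorem mertens_gap (B : ℝ) : ∃ ε0 : ℝ, 0 < ε0 ∧ ∀ ε : ℝ, 0 < ε → ε ≤ ε0 →
    ∃ Z0 : ℕ, ∀ Z : ℕ, Z0 ≤ Z → B ≤ ∑ p ∈ (Icc 1 Z).filter
      (fun p : ℕ => p.Prime ∧ (Z : ℝ) ^ ε < p ∧ (p : ℝ) ≤ (Z : ℝ) ^ (1 / 4 : ℝ)), (1 : ℝ) / p := by
  exact mertens_gap_p B

/-- RO-D3. At most three heavy primes.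
PROOF. A heavy prime `p` (`p ^ v_p(T t) > c ^ (1 - η)`, `1 - η ≥ 1 / 2`) divides exactly one entry `n`
(the entries are pairwise coprime, so `v_p(T t) = v_p(n)`), and two different heavy primes of the
same entry `n ≤ c` would give `n ≥ p ^ v q ^ w > c ^ (2 - 2 η) ≥ c`. -/
theorem heavy_card {t : ℕ × ℕ} (ht : Cop t) (η : ℝ) (h0 : 0 ≤ η) (h1 : η ≤ 1 / 2) :
    ((T t).primeFactors.filter
      (fun p => ¬ ((p ^ (T t).factorization p : ℕ) : ℝ) ≤ (c t) ^ (1 - η))).card ≤ 3 := by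
  exact heavy_card_p ht η h0 h1

end Pool.Agent.Helper42.RO
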