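import Mathlib
import Pool.Agent.Helper42.RO.D1

set_option autoImplicit false

open Finset

namespace Pool.Agent.Helper42.RO

theorem few_large_primes_p (δ : ℝ) (hδ : 0 < δ) : ∃ ε0 : ℝ, 0 < ε0 ∧ ∀ ε : ℝ, 0 < ε → ε ≤ ε0 →
    ∃ Z0 : ℕ, ∀ Z : ℕ, Z0 ≤ Z →
      (((Icc 1 Z).filter (fun N => (N.primeFactors.filter (fun p : ℕ =>
        (Z : ℝ) ^ ε < p ∧ (p : ℝ) ≤ (Z : ℝ) ^ (1 / 4 : ℝ))).card ≤ 3)).card : ℝ) ≤ δ * Z := by
  obtain ⟨ε0, hε0, H⟩ := mertens_gap (max 6 (12 / δ))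
  refine ⟨ε0, hε0, fun ε h0 h1 => ?_⟩
  obtain ⟨Z0, hZ⟩ := H ε h0 h1
  refine ⟨Z0, fun Z hZ0 => ?_⟩
  set P : Finset ℕ := (Icc 1 Z).filter
      (fun p : ℕ => p.Prime ∧ (Z : ℝ) ^ ε < p ∧ (p : ℝ) ≤ (Z : ℝ) ^ (1 / 4 : ℝ)) with hP
  set μ : ℝ := ∑ p ∈ P, (1 : ℝ) / p with hμ
  have hμ0 := hZ Z hZ0
  have hμ6 : 6 ≤ μ := le_trans (le_max_left _ _) hμ0
  have hμδ : 12 / δ ≤ μ := le_trans (le_max_right _ _) hμ0
  have hcard : (P.card : ℝ) ≤ Z := by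
    have h2 : P.card ≤ (Icc 1 Z).card := Finset.card_filter_le _ _
    rw [Nat.card_Icc] at h2
    exact_mod_cast (by omega : P.card ≤ Z)
  have hT := turan Z P (fun p hp => (Finset.mem_filter.1 hp).2.1)
  rw [← hμ] at hT
  set S := (Icc 1 Z).filter (fun N => (N.primeFactors.filter (fun p : ℕ =>
        (Z : ℝ) ^ ε < p ∧ (p : ℝ) ≤ (Z : ℝ) ^ (1 / 4 : ℝ))).card ≤ 3) with hS
  have hlow : (S.card : ℝ) * (μ ^ 2 / 4) ≤
      ∑ N ∈ Icc 1 Z, (((P.filter (fun p => p ∣ N)).card : ℝ) - μ) ^ 2 := by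
    calc (S.card : ℝ) * (μ ^ 2 / 4) = ∑ N ∈ S, μ ^ 2 / 4 := by
          rw [Finset.sum_const, nsmul_eq_mul]
      _ ≤ ∑ N ∈ S, (((P.filter (fun p => p ∣ N)).card : ℝ) - μ) ^ 2 := by
          refine Finset.sum_le_sum fun N hN => ?_
          obtain ⟨hN1, hN2⟩ := Finset.mem_filter.1 hN
          rw [Finset.mem_Icc] at hN1
          have h3 : P.filter (fun p => p ∣ N) = N.primeFactors.filter (fun p : ℕ =>
              (Z : ℝ) ^ ε < p ∧ (p : ℝ) ≤ (Z : ℝ) ^ (1 / 4 : ℝ)) := by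
            ext p
            rw [Finset.mem_filter, hP, Finset.mem_filter, Finset.mem_filter, Finset.mem_Icc,
              Nat.mem_primeFactors]
            constructor
            · rintro ⟨⟨h4, h5, h6⟩, h7⟩
              exact ⟨⟨h5, h7, by omega⟩, h6⟩
            · rintro ⟨⟨h5, h7, h8⟩, h6⟩
              exact ⟨⟨⟨h5.one_lt.le, (Nat.le_of_dvd (by omega) h7).trans hN1.2⟩, h5, h6⟩, h7⟩
          rw [h3]
          have h4 : (((N.primeFactors.filter (fun p : ℕ =>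
              (Z : ℝ) ^ ε < p ∧ (p : ℝ) ≤ (Z : ℝ) ^ (1 / 4 : ℝ))).card : ℕ) : ℝ) ≤ 3 := by
            exact_mod_cast hN2
          nlinarith
      _ ≤ _ := Finset.sum_le_sum_of_subset_of_nonneg (Finset.filter_subset _ _)
          fun _ _ _ => sq_nonneg _
  have hup : (S.card : ℝ) * (μ ^ 2 / 4) ≤ 3 * Z * μ := by
    have h2 : 2 * μ * (P.card : ℝ) ≤ 2 * μ * Z :=
      mul_le_mul_of_nonneg_left hcard (by linarith)
    nlinarith [hlow, hT]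
  have hμpos : 0 < μ := by linarith
  have h3 : (S.card : ℝ) * μ ≤ 12 * Z := by
    have h4 : ((S.card : ℝ) * μ) * μ ≤ (12 * Z) * μ := by nlinarith
    exact le_of_mul_le_mul_right h4 hμpos
  have h5 : 12 ≤ δ * μ := by
    rw [div_le_iff₀ hδ] at hμδ
    linarith
  have hZnn : (0 : ℝ) ≤ Z := Nat.cast_nonneg _
  have hSnn : (0 : ℝ) ≤ S.card := Nat.cast_nonneg _
  have h6 : (S.card : ℝ) * μ ≤ (δ * Z) * μ := by nlinarith
  exact le_of_mul_le_mul_right h6 hμpos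

end Pool.Agent.Helper42.RO
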