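import Pool.Agent.Helper42.RO.K6

set_option autoImplicit false

open Finset

namespace Pool.Agent.Helper42.RO

/-- RO-K6b. PROOF. `kl_sum` and `sum_bound` for `Z ≥ Z0`; for `Z < Z0` the set `Q` has at most
`Z0 + 1` elements. -/
theorem kl_m0 (ε : ℝ) (hε : 0 < ε) : ∃ C : ℝ, 1 ≤ C ∧ ∀ (Z m : ℕ) (Λ : ℝ), 1 ≤ Z → 1 ≤ m →
    m ≤ Z → 1 ≤ Λ → Λ ≤ Z →
    ∀ Q : Finset ℕ, (∀ q ∈ Q, q.Prime ∧ q ≤ Z ∧ ∃ t : ℕ × ℕ, Cop t ∧ rad (T t) = m * q ∧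
      (Real.log Z) ^ 5 < Real.log (c t) ∧ Real.log (c t) ≤ Λ) →
    (Q.card : ℝ) ≤ C * (Z : ℝ) ^ ε * Λ := by
  obtain ⟨Z0, hZ0⟩ := kl_sum
  obtain ⟨C, hC, hb⟩ := sum_bound ε hε
  refine ⟨C + Z0 + 1, by have : (0 : ℝ) ≤ Z0 := Nat.cast_nonneg _; linarith, ?_⟩
  intro Z m Λ hZ hm hmZ hΛ hΛZ Q hQ
  have hZ1 : (1 : ℝ) ≤ Z := by exact_mod_cast hZ
  have hp : (1 : ℝ) ≤ (Z : ℝ) ^ ε := Real.one_le_rpow hZ1 hε.le
  have hZ00 : (0 : ℝ) ≤ Z0 := Nat.cast_nonneg _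
  have hpL : (1 : ℝ) ≤ (Z : ℝ) ^ ε * Λ := by nlinarith
  rcases le_or_gt Z0 Z with h | h
  · have h1 := hZ0 Z m Λ h hm hmZ hΛ hΛZ Q hQ
    have h2 := hb Z m Λ hZ hm hmZ hΛ hΛZ
    have h3 : (Q.card : ℝ) ≤ C * (Z : ℝ) ^ ε * Λ := by
      refine le_trans ?_ h2
      exact_mod_cast h1
    have h4 : 0 ≤ ((Z0 : ℝ) + 1) * ((Z : ℝ) ^ ε * Λ) := by positivity
    nlinarith
  · have h1 : Q ⊆ range (Z + 1) := by
      intro q hq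
      rw [mem_range]
      have := (hQ q hq).2.1
      omega
    have h2 : Q.card ≤ Z + 1 := by
      have := card_le_card h1
      rwa [card_range] at this
    have h3 : (Q.card : ℝ) ≤ Z0 + 1 := by
      have : Q.card ≤ Z0 + 1 := by omega
      exact_mod_cast this
    nlinarith

/-- RO-K6c. The number of radicals `N = m q ≤ Z` with a large prime `q`.
PROOF. For fixed `m` (then `Z / m ≥ q ≥ Z ^ (1 / 3 - ε / 2)`) apply `kl_m0` with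
`Λ = (Z / m) ^ (1 - ε)` and `ε / 100` in place of `ε`: at most
`C Z ^ (ε / 100) (Z / m) (Z / m) ^ (-ε) ≤ C (Z / m) Z ^ (ε / 100 - ε (1 / 3 - ε / 2))` primes `q`;
sum over `m ≤ Z` with `∑ 1 / m ≤ 1 + log Z ≤ C Z ^ (ε / 100)`;
`1 + ε / 50 - ε (1 / 3 - ε / 2) ≤ 1 - (3 / 10) ε` for `ε ≤ 1 / 100`. -/
theorem part2 (ε : ℝ) (hε : 0 < ε) (hε1 : ε ≤ 1 / 100) : ∃ C : ℝ, 1 ≤ C ∧ ∀ Z : ℕ, 1 ≤ Z →
    ∀ S : Finset ℕ, (∀ N ∈ S, N ≤ Z ∧ ∃ (m q : ℕ) (t : ℕ × ℕ), N = m * q ∧ q.Prime ∧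
      (Z : ℝ) ^ (1 / 3 - ε / 2) ≤ q ∧ Cop t ∧ rad (T t) = N ∧
      (Real.log Z) ^ 5 < Real.log (c t) ∧ Real.log (c t) ≤ (q : ℝ) ^ (1 - ε)) →
    (S.card : ℝ) ≤ C * (Z : ℝ) ^ (1 - 3 / 10 * ε) := by
  classical
  obtain ⟨C, hC, hkl⟩ := kl_m0 (ε / 100) (by positivity)
  refine ⟨C * (1 + 1 / (ε / 100)), ?_, ?_⟩
  · have : 0 < 1 / (ε / 100) := by positivity
    nlinarith
  intro Z hZ S hS
  have hZ1 : (1 : ℝ) ≤ Z := by exact_mod_cast hZ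
  have hZ0 : (0 : ℝ) < Z := by linarith
  -- the property of the pair
  let R : ℕ → ℕ → Prop := fun m q => q.Prime ∧ (Z : ℝ) ^ (1 / 3 - ε / 2) ≤ q ∧ ∃ t : ℕ × ℕ,
    Cop t ∧ rad (T t) = m * q ∧ (Real.log Z) ^ 5 < Real.log (c t) ∧
      Real.log (c t) ≤ (q : ℝ) ^ (1 - ε)
  let Q : ℕ → Finset ℕ := fun m => (range (Z + 1)).filter fun q => R m q ∧ m * q ≤ Z
  have hcov : S ⊆ (Icc 1 Z).biUnion fun m => (Q m).image fun q => m * q := by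
    intro N hN
    obtain ⟨hNZ, m, q, t, hmq, hq, hlow, ht, hrad, hl1, hl2⟩ := hS N hN
    have hNpos : 0 < N := by
      rw [← hrad]
      exact rad_pos _
    have hm0 : 0 < m := by
      rcases Nat.eq_zero_or_pos m with h0 | h0
      · rw [h0, zero_mul] at hmq
        omega
      · exact h0
    have hmZ : m ≤ Z := by
      refine le_trans ?_ hNZ
      rw [hmq]
      exact Nat.le_mul_of_pos_right m hq.pos
    have hqZ : q ≤ Z := by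
      refine le_trans ?_ hNZ
      rw [hmq]
      exact Nat.le_mul_of_pos_left q hm0
    rw [mem_biUnion]
    refine ⟨m, mem_Icc.2 ⟨hm0, hmZ⟩, ?_⟩
    rw [mem_image]
    refine ⟨q, ?_, hmq.symm⟩
    rw [mem_filter]
    refine ⟨mem_range.2 (by omega), ⟨hq, hlow, t, ht, ?_, hl1, hl2⟩, ?_⟩
    · rw [hrad, hmq]
    · rw [← hmq]
      exact hNZ
  have hcard : (S.card : ℝ) ≤ ∑ m ∈ Icc 1 Z, ((Q m).card : ℝ) := by
    have h1 : S.card ≤ ∑ m ∈ Icc 1 Z, (Q m).card := by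
      refine (card_le_card hcov).trans (card_biUnion_le.trans (sum_le_sum fun m _ => ?_))
      exact card_image_le
    exact_mod_cast h1
  have hbound : ∀ m ∈ Icc 1 Z, ((Q m).card : ℝ) ≤
      C * (Z : ℝ) ^ (ε / 100) * (Z : ℝ) ^ (1 - ε * (1 / 3 - ε / 2)) * (m : ℝ)⁻¹ := by
    intro m hm
    obtain ⟨hm1, hmZ⟩ := mem_Icc.1 hm
    have hm1' : (1 : ℝ) ≤ m := by exact_mod_cast hm1
    have hm0 : (0 : ℝ) < m := by linarith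
    rcases (Q m).eq_empty_or_nonempty with he | hne
    · rw [he, card_empty, Nat.cast_zero]
      positivity
    · obtain ⟨q0, hq0⟩ := hne
      have hq0' := (mem_filter.1 hq0).2
      have hq0Z : (q0 : ℝ) ≤ Z / m := by
        rw [le_div_iff₀ hm0]
        have : q0 * m ≤ Z := by rw [mul_comm]; exact hq0'.2
        exact_mod_cast this
      have hWlow : (Z : ℝ) ^ (1 / 3 - ε / 2) ≤ Z / m := le_trans hq0'.1.2.1 hq0Z
      have hW1 : (1 : ℝ) ≤ Z / m := by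
        rw [le_div_iff₀ hm0]
        have : (m : ℝ) ≤ Z := by exact_mod_cast hmZ
        linarith
      have hW0 : (0 : ℝ) < Z / m := by linarith
      have hWZ : (Z : ℝ) / m ≤ Z := div_le_self hZ0.le hm1'
      have hΛ1 : (1 : ℝ) ≤ ((Z : ℝ) / m) ^ (1 - ε) := Real.one_le_rpow hW1 (by linarith)
      have hΛZ : ((Z : ℝ) / m) ^ (1 - ε) ≤ Z := by
        refine le_trans (Real.rpow_le_rpow_of_exponent_le hW1 (by linarith : 1 - ε ≤ 1)) ?_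
        rw [Real.rpow_one]
        exact hWZ
      have h1 := hkl Z m (((Z : ℝ) / m) ^ (1 - ε)) hZ hm1 hmZ hΛ1 hΛZ (Q m) (by
        intro q hq
        obtain ⟨hqr, ⟨hqp, _, t, ht, hrad, hl1, hl2⟩, hmq⟩ := mem_filter.1 hq
        refine ⟨hqp, by have := mem_range.1 hqr; omega, t, ht, hrad, hl1, le_trans hl2 ?_⟩
        refine Real.rpow_le_rpow (Nat.cast_nonneg _) ?_ (by linarith)
        rw [le_div_iff₀ hm0]
        have : q * m ≤ Z := by rw [mul_comm]; exact hmq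
        exact_mod_cast this)
      refine h1.trans ?_
      have h2 : ((Z : ℝ) / m) ^ (1 - ε) ≤ (Z : ℝ) ^ (1 - ε * (1 / 3 - ε / 2)) * (m : ℝ)⁻¹ := by
        have e1 : ((Z : ℝ) / m) ^ (1 - ε) = ((Z : ℝ) / m) * (((Z : ℝ) / m) ^ ε)⁻¹ := by
          rw [Real.rpow_sub hW0, Real.rpow_one]
          rfl
        have e2 : (Z : ℝ) ^ (1 - ε * (1 / 3 - ε / 2)) =
            (Z : ℝ) * (((Z : ℝ) ^ (1 / 3 - ε / 2)) ^ ε)⁻¹ := by
          rw [Real.rpow_sub hZ0, Real.rpow_one, ← Real.rpow_mul hZ0.le, mul_comm ε]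
          rfl
        have hpow0 : 0 < ((Z : ℝ) ^ (1 / 3 - ε / 2)) ^ ε := by positivity
        have h3 : (((Z : ℝ) / m) ^ ε)⁻¹ ≤ (((Z : ℝ) ^ (1 / 3 - ε / 2)) ^ ε)⁻¹ := by
          apply inv_anti₀ hpow0
          exact Real.rpow_le_rpow (by positivity) hWlow hε.le
        rw [e1, e2]
        calc ((Z : ℝ) / m) * (((Z : ℝ) / m) ^ ε)⁻¹
            ≤ ((Z : ℝ) / m) * (((Z : ℝ) ^ (1 / 3 - ε / 2)) ^ ε)⁻¹ :=
              mul_le_mul_of_nonneg_left h3 hW0.le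
          _ = (Z : ℝ) * (((Z : ℝ) ^ (1 / 3 - ε / 2)) ^ ε)⁻¹ * (m : ℝ)⁻¹ := by
              rw [div_eq_mul_inv]; ring
      have h4 : 0 ≤ C * (Z : ℝ) ^ (ε / 100) := by positivity
      have h5 := mul_le_mul_of_nonneg_left h2 h4
      calc C * (Z : ℝ) ^ (ε / 100) * ((Z : ℝ) / m) ^ (1 - ε)
          ≤ C * (Z : ℝ) ^ (ε / 100) * ((Z : ℝ) ^ (1 - ε * (1 / 3 - ε / 2)) * (m : ℝ)⁻¹) := h5
        _ = _ := by ring
  have hharm : ∑ m ∈ Icc 1 Z, (m : ℝ)⁻¹ ≤ 1 + Real.log Z := by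
    have h1 := harmonic_le_one_add_log Z
    have h2 : ((harmonic Z : ℚ) : ℝ) = ∑ m ∈ Icc 1 Z, (m : ℝ)⁻¹ := by
      rw [harmonic_eq_sum_Icc]
      push_cast
      rfl
    rwa [h2] at h1
  have hlog : 1 + Real.log Z ≤ (1 + 1 / (ε / 100)) * (Z : ℝ) ^ (ε / 100) := by
    have h1 := Real.log_le_rpow_div hZ0.le (show 0 < ε / 100 by positivity)
    have h2 : (1 : ℝ) ≤ (Z : ℝ) ^ (ε / 100) := Real.one_le_rpow hZ1 (by positivity)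
    have h3 : (Z : ℝ) ^ (ε / 100) / (ε / 100) = 1 / (ε / 100) * (Z : ℝ) ^ (ε / 100) := by ring
    rw [h3] at h1
    linarith
  have hfin : (Z : ℝ) ^ (ε / 100) * (Z : ℝ) ^ (1 - ε * (1 / 3 - ε / 2)) * (Z : ℝ) ^ (ε / 100) ≤
      (Z : ℝ) ^ (1 - 3 / 10 * ε) := by
    rw [← Real.rpow_add hZ0, ← Real.rpow_add hZ0]
    apply Real.rpow_le_rpow_of_exponent_le hZ1
    nlinarith
  have hpos : 0 ≤ C * (Z : ℝ) ^ (ε / 100) * (Z : ℝ) ^ (1 - ε * (1 / 3 - ε / 2)) := by positivity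
  calc (S.card : ℝ) ≤ ∑ m ∈ Icc 1 Z, ((Q m).card : ℝ) := hcard
    _ ≤ ∑ m ∈ Icc 1 Z,
        C * (Z : ℝ) ^ (ε / 100) * (Z : ℝ) ^ (1 - ε * (1 / 3 - ε / 2)) * (m : ℝ)⁻¹ :=
      sum_le_sum hbound
    _ = C * (Z : ℝ) ^ (ε / 100) * (Z : ℝ) ^ (1 - ε * (1 / 3 - ε / 2)) *
        ∑ m ∈ Icc 1 Z, (m : ℝ)⁻¹ := by rw [mul_sum]
    _ ≤ C * (Z : ℝ) ^ (ε / 100) * (Z : ℝ) ^ (1 - ε * (1 / 3 - ε / 2)) *
        ((1 + 1 / (ε / 100)) * (Z : ℝ) ^ (ε / 100)) :=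
      mul_le_mul_of_nonneg_left (hharm.trans hlog) hpos
    _ = C * (1 + 1 / (ε / 100)) * ((Z : ℝ) ^ (ε / 100) *
        (Z : ℝ) ^ (1 - ε * (1 / 3 - ε / 2)) * (Z : ℝ) ^ (ε / 100)) := by ring
    _ ≤ C * (1 + 1 / (ε / 100)) * (Z : ℝ) ^ (1 - 3 / 10 * ε) :=
      mul_le_mul_of_nonneg_left hfin (by positivity)

end Pool.Agent.Helper42.RO
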