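import Pool.Agent.Helper42.RO.S1

set_option autoImplicit false

open Finset

namespace Pool.Agent.Helper42.RO

private lemma log_prod_id {A : Finset ℕ} (hA : ∀ p ∈ A, p.Prime) :
    Real.log ((∏ p ∈ A, p : ℕ) : ℝ) = ∑ p ∈ A, Real.log p := by
  rw [Nat.cast_prod, Real.log_prod]
  intro p hp
  exact_mod_cast (hA p hp).ne_zero

private lemma log_prod_pow {A : Finset ℕ} (hA : ∀ p ∈ A, p.Prime) (f : ℕ → ℕ) :
    Real.log ((∏ p ∈ A, p ^ f p : ℕ) : ℝ) = ∑ p ∈ A, (f p : ℝ) * Real.log p := by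
  rw [Nat.cast_prod, Real.log_prod]
  · refine Finset.sum_congr rfl fun p _ => ?_
    rw [Nat.cast_pow, Real.log_pow]
  · intro p hp
    exact_mod_cast pow_ne_zero _ (hA p hp).ne_zero

private lemma rpow_le_nat {Z m : ℕ} (hZ : 1 ≤ Z) (hm : 0 < m) {x : ℝ}
    (h : x * Real.log Z ≤ Real.log m) : (Z : ℝ) ^ x ≤ m := by
  have hZ' : (0 : ℝ) < Z := by exact_mod_cast hZ
  have hm' : (0 : ℝ) < m := by exact_mod_cast hm
  rw [← Real.log_le_log_iff (Real.rpow_pos_of_pos hZ' x) hm', Real.log_rpow hZ']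
  exact h

/-- RO-S1b. -/
theorem select {t : ℕ × ℕ} (ht : Cop t) (η μ : ℝ) (h0 : 0 ≤ η) (h1 : η ≤ 1) (hμ : 0 ≤ μ)
    (A0 : Finset ℕ) (hA0 : A0 ⊆ (T t).primeFactors) (hp : ∀ p ∈ A0, Real.log p ≤ μ) :
    ∃ A : Finset ℕ, A ⊆ A0 ∧ (part (∏ p ∈ A, p) (T t) : ℝ) ≤ (c t) ^ (1 - η) ∧
      (1 - η) / 3 * ∑ p ∈ A0, Real.log p - μ ≤ ∑ p ∈ A, Real.log p := by
  classical
  have hc := ht.c_pos
  have hlc := ht.log_c_pos
  have hpr : ∀ p ∈ A0, p.Prime := fun p hp => Nat.prime_of_mem_primeFactors (hA0 hp)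
  have hlog : ∀ p ∈ A0, 0 ≤ Real.log p := fun p _ => Real.log_natCast_nonneg p
  let w : ℕ → ℝ := fun p => ((T t).factorization p : ℝ) * Real.log p / Real.log (c t)
  -- the logarithm of the part
  have hpart : ∀ A : Finset ℕ, A ⊆ A0 → ∑ p ∈ A, w p ≤ 1 - η →
      (part (∏ p ∈ A, p) (T t) : ℝ) ≤ (c t) ^ (1 - η) := by
    intro A hA hw
    have hprA : ∀ p ∈ A, p.Prime := fun p hp => hpr p (hA hp)
    have hpos : (0 : ℝ) < (part (∏ p ∈ A, p) (T t) : ℕ) := by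
      exact_mod_cast part_pos _ _
    rw [← Real.log_le_log_iff hpos (Real.rpow_pos_of_pos hc _), Real.log_rpow hc,
      part_prod hprA, log_prod_pow hprA]
    have h2 : ∑ p ∈ A, w p =
        (∑ p ∈ A, ((T t).factorization p : ℝ) * Real.log p) / Real.log (c t) := by
      rw [Finset.sum_div]
    rw [h2, div_le_iff₀ hlc] at hw
    exact hw
  have hW : ∑ p ∈ A0, w p ≤ 3 := by
    have h2 : ∑ p ∈ A0, w p =
        (∑ p ∈ A0, ((T t).factorization p : ℝ) * Real.log p) / Real.log (c t) := by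
      rw [Finset.sum_div]
    rw [h2, div_le_iff₀ hlc]
    refine le_trans ?_ (log_T_le ht)
    have h3 : Real.log (T t) =
        ∑ p ∈ (T t).primeFactors, ((T t).factorization p : ℝ) * Real.log p := by
      rw [← log_prod_pow (fun p hp => Nat.prime_of_mem_primeFactors hp)]
      have h4 : (∏ p ∈ (T t).primeFactors, p ^ (T t).factorization p) = T t :=
        Nat.prod_factorization_pow_eq_self ht.T_ne
      rw [h4]
    rw [h3]
    exact Finset.sum_le_sum_of_subset_of_nonneg hA0 fun p _ _ =>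
      mul_nonneg (Nat.cast_nonneg _) (Real.log_natCast_nonneg p)
  have hw0 : ∀ p ∈ A0, 0 ≤ w p := fun p hp =>
    div_nonneg (mul_nonneg (Nat.cast_nonneg _) (hlog p hp)) hlc.le
  have hS : 0 ≤ ∑ p ∈ A0, Real.log (p : ℝ) := Finset.sum_nonneg hlog
  rcases le_total (∑ p ∈ A0, w p) (1 - η) with h2 | h2
  · refine ⟨A0, subset_rfl, hpart A0 subset_rfl h2, ?_⟩
    nlinarith
  · obtain ⟨A, hA, hA1, hA2⟩ := greedy A0 w (fun p => Real.log p) hw0 hlog μ (1 - η) hp hμ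
      (by linarith) h2
    refine ⟨A, hA, hpart A hA hA1, ?_⟩
    have h3 : 0 ≤ ∑ p ∈ A, Real.log (p : ℝ) + μ := by
      have : 0 ≤ ∑ p ∈ A, Real.log (p : ℝ) := Finset.sum_nonneg fun p hp => hlog p (hA hp)
      linarith
    have h4 : (∑ p ∈ A, Real.log (p : ℝ) + μ) * ∑ p ∈ A0, w p ≤
        (∑ p ∈ A, Real.log (p : ℝ) + μ) * 3 := mul_le_mul_of_nonneg_left hW h3
    have h5 := hA2.trans h4
    linarith

/-- RO-S1c. -/
theorem select_small {t : ℕ × ℕ} (ht : Cop t) (Z : ℕ) (hZ : 1 ≤ Z) (η δ κ : ℝ) (h0 : 0 ≤ η)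
    (h1 : η ≤ 1) (hδ : 0 ≤ δ) (hκ : 0 ≤ κ) (hp : ∀ p ∈ (T t).primeFactors, (p : ℝ) ≤ (Z : ℝ) ^ κ)
    (hr : (Z : ℝ) ^ (1 - δ) ≤ rad (T t)) :
    ∃ n1 : ℕ, n1 ∣ rad (T t) ∧ (Z : ℝ) ^ ((1 - η) * (1 - δ) / 3 - κ) ≤ n1 ∧
      (part n1 (T t) : ℝ) ≤ (c t) ^ (1 - η) := by
  have hZ0 : (0 : ℝ) < Z := by exact_mod_cast hZ
  have hlZ : 0 ≤ Real.log (Z : ℝ) := Real.log_natCast_nonneg Z
  obtain ⟨A, hA, hA1, hA2⟩ := select ht η (κ * Real.log Z) h0 h1 (mul_nonneg hκ hlZ)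
    (T t).primeFactors subset_rfl (by
      intro p hp'
      have hp0 : (0 : ℝ) < p := by exact_mod_cast (Nat.prime_of_mem_primeFactors hp').pos
      rw [← Real.log_rpow hZ0]
      exact Real.log_le_log hp0 (hp p hp'))
  have hprA : ∀ p ∈ A, p.Prime := fun p hp => Nat.prime_of_mem_primeFactors (hA hp)
  refine ⟨∏ p ∈ A, p, prod_dvd_of_subset hA, ?_, hA1⟩
  refine rpow_le_nat hZ (Finset.prod_pos fun p hp => (hprA p hp).pos) ?_
  rw [log_prod_id hprA]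
  refine le_trans ?_ hA2
  have h2 : (1 - δ) * Real.log Z ≤ ∑ p ∈ (T t).primeFactors, Real.log (p : ℝ) := by
    rw [← log_prod_id (fun p hp => Nat.prime_of_mem_primeFactors hp), ← Real.log_rpow hZ0]
    exact Real.log_le_log (Real.rpow_pos_of_pos hZ0 _) hr
  have h3 : (1 - η) / 3 * ((1 - δ) * Real.log Z) ≤
      (1 - η) / 3 * ∑ p ∈ (T t).primeFactors, Real.log (p : ℝ) :=
    mul_le_mul_of_nonneg_left h2 (by linarith)
  linarith

/-- RO-S1d. -/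
theorem light_small {t : ℕ × ℕ} (ht : Cop t) (Z : ℕ) (hZ : 1 ≤ Z) (η δ : ℝ) (h0 : 0 ≤ η)
    (h1 : η ≤ 1 / 7) (hδ : 0 ≤ δ)
    (hno : ¬ ∃ n1 : ℕ, n1 ∣ rad (T t) ∧ (Z : ℝ) ^ δ ≤ n1 ∧
      (part n1 (T t) : ℝ) ≤ (c t) ^ (1 - η)) :
    (light η t : ℝ) ≤ (Z : ℝ) ^ (7 * δ) := by
  classical
  have hZ0 : (0 : ℝ) < Z := by exact_mod_cast hZ
  have hlZ : 0 ≤ Real.log (Z : ℝ) := Real.log_natCast_nonneg Z
  have hδZ : 0 ≤ δ * Real.log Z := mul_nonneg hδ hlZ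
  set A0 : Finset ℕ := (T t).primeFactors.filter
    (fun p => ((p ^ (T t).factorization p : ℕ) : ℝ) ≤ (c t) ^ (1 - η)) with hA0
  have hsub : A0 ⊆ (T t).primeFactors := Finset.filter_subset _ _
  have hpr : ∀ p ∈ A0, p.Prime := fun p hp => Nat.prime_of_mem_primeFactors (hsub hp)
  -- a subset of the prime divisors with small part has a small product
  have key : ∀ A : Finset ℕ, A ⊆ A0 → (part (∏ p ∈ A, p) (T t) : ℝ) ≤ (c t) ^ (1 - η) →
      ∑ p ∈ A, Real.log (p : ℝ) < δ * Real.log Z := by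
    intro A hA hA1
    have hprA : ∀ p ∈ A, p.Prime := fun p hp => hpr p (hA hp)
    by_contra hcon
    rw [not_lt] at hcon
    apply hno
    refine ⟨∏ p ∈ A, p, prod_dvd_of_subset (hA.trans hsub), ?_, hA1⟩
    refine rpow_le_nat hZ (Finset.prod_pos fun p hp => (hprA p hp).pos) ?_
    rw [log_prod_id hprA]
    exact hcon
  obtain ⟨A, hA, hA1, hA2⟩ := select ht η (δ * Real.log Z) h0 (by linarith) hδZ A0 hsub (by
    intro p hp'
    have h2 := key {p} (Finset.singleton_subset_iff.2 hp') (by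
      rw [part_prod (fun q hq => by
        rw [Finset.mem_singleton] at hq
        rw [hq]
        exact hpr p hp'), Finset.prod_singleton]
      exact (Finset.mem_filter.1 hp').2)
    rw [Finset.sum_singleton] at h2
    exact h2.le)
  have h3 := key A hA hA1
  have h4 : (1 - η) / 3 * ∑ p ∈ A0, Real.log (p : ℝ) < 2 * (δ * Real.log Z) := by linarith
  have hS : 0 ≤ ∑ p ∈ A0, Real.log (p : ℝ) :=
    Finset.sum_nonneg fun p _ => Real.log_natCast_nonneg p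
  have h5 : ∑ p ∈ A0, Real.log (p : ℝ) ≤ 7 * (δ * Real.log Z) := by nlinarith
  have h6 : (light η t : ℝ) = ((∏ p ∈ A0, p : ℕ) : ℝ) := rfl
  have hpos : (0 : ℝ) < ((∏ p ∈ A0, p : ℕ) : ℝ) := by
    exact_mod_cast Finset.prod_pos fun p hp => (hpr p hp).pos
  rw [h6, ← Real.log_le_log_iff hpos (Real.rpow_pos_of_pos hZ0 _), Real.log_rpow hZ0,
    log_prod_id hpr]
  linarith

end Pool.Agent.Helper42.RO
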