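import Mathlib
import Pool.Agent.Helper42.RO.Defs

set_option autoImplicit false

open Finset

namespace Pool.Agent.Helper42.RO

private lemma s2a_young (B ε : ℝ) (hB : 0 ≤ B) (hε : 0 < ε) (y : ℝ) (hy : 0 ≤ y) :
    B * y ^ 11 ≤ ε * y ^ 12 + B * (B / ε) ^ 11 := by
  rcases le_total (B / ε) y with h | h
  · have h1 : B ≤ ε * y := by
      rw [div_le_iff₀ hε] at h
      linarith
    have h2 : B * y ^ 11 ≤ (ε * y) * y ^ 11 := mul_le_mul_of_nonneg_right h1 (by positivity)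
    have h3 : 0 ≤ B * (B / ε) ^ 11 := by positivity
    calc B * y ^ 11 ≤ (ε * y) * y ^ 11 := h2
      _ = ε * y ^ 12 := by ring
      _ ≤ _ := by linarith
  · have h1 : y ^ 11 ≤ (B / ε) ^ 11 := pow_le_pow_left₀ hy h 11
    have h2 : B * y ^ 11 ≤ B * (B / ε) ^ 11 := mul_le_mul_of_nonneg_left h1 hB
    have h3 : 0 ≤ ε * y ^ 12 := by positivity
    linarith

private lemma s2a_growth (A ε : ℝ) (hA : 1 ≤ A) (hε : 0 < ε) :
    ∃ C : ℝ, 0 ≤ C ∧ ∀ x : ℝ, 0 ≤ x →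
      (A * (1 + x) ^ 10) ^ (1 / 12 : ℝ) * Real.log (A * (1 + x) ^ 10) ≤ C + ε * x := by
  set B : ℝ := 120 * A ^ (11 / 120 : ℝ) with hB
  have hB0 : 0 ≤ B := by positivity
  refine ⟨ε + B * (B / ε) ^ 11, by positivity, fun x hx => ?_⟩
  have hx1 : 0 < 1 + x := by linarith
  have hA0 : 0 < A := by linarith
  set K : ℝ := A * (1 + x) ^ 10 with hK
  have hK0 : 0 < K := by positivity
  have h1 : Real.log K ≤ K ^ (1 / 120 : ℝ) / (1 / 120) :=
    Real.log_le_rpow_div hK0.le (by norm_num)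
  have h2 : K ^ (1 / 12 : ℝ) * Real.log K ≤ 120 * K ^ (11 / 120 : ℝ) := by
    calc K ^ (1 / 12 : ℝ) * Real.log K ≤ K ^ (1 / 12 : ℝ) * (K ^ (1 / 120 : ℝ) / (1 / 120)) :=
          mul_le_mul_of_nonneg_left h1 (by positivity)
      _ = 120 * (K ^ (1 / 12 : ℝ) * K ^ (1 / 120 : ℝ)) := by ring
      _ = 120 * K ^ (11 / 120 : ℝ) := by
          rw [← Real.rpow_add hK0]
          norm_num
  have h3 : K ^ (11 / 120 : ℝ) = A ^ (11 / 120 : ℝ) * ((1 + x) ^ (1 / 12 : ℝ)) ^ 11 := by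
    rw [hK, Real.mul_rpow hA0.le (by positivity)]
    congr 1
    rw [← Real.rpow_natCast, ← Real.rpow_natCast, ← Real.rpow_mul hx1.le, ← Real.rpow_mul hx1.le]
    norm_num
  have h4 : (((1 + x) ^ (1 / 12 : ℝ)) ^ 12 : ℝ) = 1 + x := by
    rw [← Real.rpow_natCast, ← Real.rpow_mul hx1.le]
    norm_num
  have h5 := s2a_young B ε hB0 hε ((1 + x) ^ (1 / 12 : ℝ)) (by positivity)
  rw [h4] at h5
  calc K ^ (1 / 12 : ℝ) * Real.log K ≤ 120 * K ^ (11 / 120 : ℝ) := h2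
    _ = B * ((1 + x) ^ (1 / 12 : ℝ)) ^ 11 := by
        rw [h3, hB]
        ring
    _ ≤ ε * (1 + x) + B * (B / ε) ^ 11 := h5
    _ = ε + B * (B / ε) ^ 11 + ε * x := by ring

/-- RO-S2a. `(A (1 + log Z) ^ 10) ^ ω(m) ≤ C Z ^ ε m ^ 12`. -/
theorem pow_log_omega_p (A ε : ℝ) (hA : 1 ≤ A) (hε : 0 < ε) :
    ∃ C : ℝ, 1 ≤ C ∧ ∀ Z m : ℕ, 1 ≤ Z → m ≠ 0 →
      (A * (1 + Real.log Z) ^ 10) ^ m.primeFactors.card ≤ C * (Z : ℝ) ^ ε * (m : ℝ) ^ 12 := by
  obtain ⟨C0, hC0, hmain⟩ := s2a_growth A ε hA hε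
  refine ⟨Real.exp C0, Real.one_le_exp hC0, fun Z m hZ hm => ?_⟩
  have hZR : (1 : ℝ) ≤ Z := by exact_mod_cast hZ
  have hL : 0 ≤ Real.log Z := Real.log_nonneg hZR
  have hg := hmain (Real.log Z) hL
  set K : ℝ := A * (1 + Real.log Z) ^ 10 with hK
  have hK1 : 1 ≤ K := by
    rw [hK]
    have h1 : (1 : ℝ) ≤ (1 + Real.log Z) ^ 10 := one_le_pow₀ (by linarith)
    nlinarith
  have hK0 : 0 < K := by linarith
  set K1 : ℝ := K ^ (1 / 12 : ℝ) with hK1d
  have hK10 : 0 ≤ K1 := by positivity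
  have hK12 : K1 ^ 12 = K := by
    rw [hK1d, ← Real.rpow_natCast, ← Real.rpow_mul hK0.le]
    norm_num
  -- the small primes
  set s : Finset ℕ := m.primeFactors.filter (fun p : ℕ => (p : ℝ) ≤ K1) with hs
  have hcard : (#s : ℝ) ≤ K1 := by
    have h1 : s ⊆ Icc 1 ⌊K1⌋₊ := by
      intro p hp
      obtain ⟨h2, h3⟩ := mem_filter.1 hp
      exact mem_Icc.2 ⟨(Nat.prime_of_mem_primeFactors h2).pos, Nat.le_floor h3⟩
    have h2 := card_le_card h1
    rw [Nat.card_Icc, Nat.add_sub_cancel] at h2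
    refine le_trans ?_ (Nat.floor_le hK10)
    exact_mod_cast h2
  have hsm : K ^ #s ≤ Real.exp (K1 * Real.log K) := by
    rw [← Real.rpow_natCast, Real.rpow_def_of_pos hK0]
    apply Real.exp_le_exp.2
    rw [mul_comm]
    exact mul_le_mul_of_nonneg_right hcard (Real.log_nonneg hK1)
  have hprod : K ^ m.primeFactors.card ≤ K ^ #s * (m : ℝ) ^ 12 := by
    have h1 : K ^ m.primeFactors.card = ∏ p ∈ m.primeFactors, K := by
      rw [prod_const]
    have h2 : K ^ #s = ∏ p ∈ m.primeFactors, (if (p : ℝ) ≤ K1 then K else 1) := by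
      rw [hs, ← prod_const, prod_filter]
    have h3 : ∏ p ∈ m.primeFactors, (p : ℝ) ≤ m := by
      have h4 : ((∏ p ∈ m.primeFactors, p : ℕ) : ℝ) ≤ m := by
        exact_mod_cast Nat.le_of_dvd (by omega) (Nat.prod_primeFactors_dvd m)
      push_cast at h4
      exact h4
    have h5 : (∏ p ∈ m.primeFactors, (p : ℝ)) ^ 12 ≤ (m : ℝ) ^ 12 :=
      pow_le_pow_left₀ (prod_nonneg fun p _ => Nat.cast_nonneg p) h3 12
    refine le_trans ?_ (mul_le_mul_of_nonneg_left h5 (by positivity))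
    rw [h1, h2, ← prod_pow, ← prod_mul_distrib]
    apply prod_le_prod
    · intro p _
      exact hK0.le
    · intro p hp
      have hp1 : (1 : ℝ) ≤ p := by
        exact_mod_cast (Nat.prime_of_mem_primeFactors hp).pos
      have hp12 : (1 : ℝ) ≤ (p : ℝ) ^ 12 := one_le_pow₀ hp1
      split_ifs with h
      · nlinarith
      · rw [one_mul, ← hK12]
        exact pow_le_pow_left₀ hK10 (not_le.1 h).le 12
  have hfin : Real.exp (K1 * Real.log K) ≤ Real.exp C0 * (Z : ℝ) ^ ε := by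
    rw [Real.rpow_def_of_pos (by linarith), ← Real.exp_add]
    apply Real.exp_le_exp.2
    calc K1 * Real.log K ≤ C0 + ε * Real.log Z := hg
      _ = C0 + Real.log Z * ε := by ring
  calc K ^ m.primeFactors.card ≤ K ^ #s * (m : ℝ) ^ 12 := hprod
    _ ≤ (Real.exp C0 * (Z : ℝ) ^ ε) * (m : ℝ) ^ 12 :=
        mul_le_mul_of_nonneg_right (hsm.trans hfin) (by positivity)

end Pool.Agent.Helper42.RO
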