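import Mathlib
import Pool.Agent.Helper42.RO.S1

set_option autoImplicit false

open Finset

namespace Pool.Agent.Helper42.RO

private lemma light_primes (η : ℝ) (t : ℕ × ℕ) :
    (light η t).primeFactors = (T t).primeFactors.filter
      (fun p => ((p ^ (T t).factorization p : ℕ) : ℝ) ≤ (c t) ^ (1 - η)) :=
  primeFactors_prod_id fun _ hp => Nat.prime_of_mem_primeFactors (Finset.mem_filter.1 hp).1

private lemma light_pos (η : ℝ) (t : ℕ × ℕ) : 0 < light η t :=
  Finset.prod_pos fun _ hp => (Nat.prime_of_mem_primeFactors (Finset.mem_filter.1 hp).1).pos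

private lemma light_dvd (η : ℝ) (t : ℕ × ℕ) : light η t ∣ rad (T t) :=
  prod_dvd_of_subset (Finset.filter_subset _ _)

/-- The decomposition of one entry. -/
private lemma entry {t : ℕ × ℕ} (ht : Cop t) (η : ℝ) (h1 : η ≤ 1 / 2) (n : ℕ)
    (hn : 0 < n) (hnc : (n : ℝ) ≤ c t) (hd : n ∣ T t)
    (hv : ∀ q, q.Prime → q ∣ n → (T t).factorization q = n.factorization q) :
    ∃ u p e : ℕ, n = u * p ^ e ∧ (0 < u ∧ 0 < p ∧
      u.primeFactors ⊆ (light η t).primeFactors ∧ (p = 1 → e = 0)) ∧ p ∣ n ∧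
      p.Coprime (light η t) ∧ p ∣ rad (T t) := by
  have hn0 : n ≠ 0 := hn.ne'
  by_cases h : ∃ p ∈ n.primeFactors, (c t) ^ (1 - η) < ((p ^ (T t).factorization p : ℕ) : ℝ)
  · obtain ⟨p, hp, hpc⟩ := h
    have hpp := Nat.prime_of_mem_primeFactors hp
    have hpn := Nat.dvd_of_mem_primeFactors hp
    have hpT : p ∈ (T t).primeFactors := Nat.mem_primeFactors.2 ⟨hpp, hpn.trans hd, ht.T_ne⟩
    refine ⟨n / p ^ n.factorization p, p, n.factorization p,
      (Nat.div_mul_cancel (Nat.ordProj_dvd n p)).symm,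
      ⟨Nat.ordCompl_pos p hn0, hpp.pos, fun q hq => ?_, fun h2 => absurd h2 hpp.one_lt.ne'⟩,
      hpn, ?_, Finset.dvd_prod_of_mem _ hpT⟩
    · have hqp := Nat.prime_of_mem_primeFactors hq
      have hqu := Nat.dvd_of_mem_primeFactors hq
      have hqn : q ∣ n := hqu.trans (Nat.ordCompl_dvd n p)
      have hne : q ≠ p := by
        rintro rfl
        exact Nat.not_dvd_ordCompl hqp hn0 hqu
      rw [light_primes, Finset.mem_filter]
      refine ⟨Nat.mem_primeFactors.2 ⟨hqp, hqn.trans hd, ht.T_ne⟩, ?_⟩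
      by_contra hcon
      rw [not_le] at hcon
      have hcop : (p ^ n.factorization p).Coprime (q ^ n.factorization q) :=
        Nat.Coprime.pow _ _ ((Nat.coprime_primes hpp hqp).2 (Ne.symm hne))
      have hdv : p ^ n.factorization p * q ^ n.factorization q ∣ n :=
        Nat.Coprime.mul_dvd_of_dvd_of_dvd hcop (Nat.ordProj_dvd n p) (Nat.ordProj_dvd n q)
      have hle : ((p ^ n.factorization p * q ^ n.factorization q : ℕ) : ℝ) ≤ c t :=
        le_trans (by exact_mod_cast Nat.le_of_dvd hn hdv) hnc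
      rw [hv p hpp hpn] at hpc
      rw [hv q hqp hqn] at hcon
      have hc1 : (1 : ℝ) ≤ c t := le_trans (by norm_num) ht.two_le_c
      have hpos : 0 < (c t) ^ (1 - η) := Real.rpow_pos_of_pos ht.c_pos _
      have h3 : (c t) ^ (1 - η) * (c t) ^ (1 - η) <
          ((p ^ n.factorization p : ℕ) : ℝ) * ((q ^ n.factorization q : ℕ) : ℝ) :=
        mul_lt_mul'' hpc hcon hpos.le hpos.le
      have h4 : c t ≤ (c t) ^ (1 - η) * (c t) ^ (1 - η) := by
        rw [← Real.rpow_add ht.c_pos]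
        calc c t = (c t) ^ (1 : ℝ) := (Real.rpow_one _).symm
          _ ≤ _ := Real.rpow_le_rpow_of_exponent_le hc1 (by linarith)
      rw [Nat.cast_mul] at hle
      linarith
    · rw [Nat.Prime.coprime_iff_not_dvd hpp]
      intro h2
      have h3 : p ∈ (light η t).primeFactors :=
        Nat.mem_primeFactors.2 ⟨hpp, h2, (light_pos η t).ne'⟩
      rw [light_primes, Finset.mem_filter] at h3
      exact absurd hpc (not_lt.2 h3.2)
  · refine ⟨n, 1, 0, by simp, ⟨hn, one_pos, fun q hq => ?_, fun _ => rfl⟩, one_dvd _,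
      Nat.coprime_one_left _, one_dvd _⟩
    rw [light_primes, Finset.mem_filter]
    refine ⟨Nat.mem_primeFactors.2 ⟨Nat.prime_of_mem_primeFactors hq,
      (Nat.dvd_of_mem_primeFactors hq).trans hd, ht.T_ne⟩, ?_⟩
    by_contra hcon
    exact h ⟨q, hq, not_le.1 hcon⟩

theorem decomp_p {t : ℕ × ℕ} (ht : Cop t) (η : ℝ) (h0 : 0 ≤ η) (h1 : η ≤ 1 / 2) :
    ∃ u p e : Fin 3 → ℕ, t.1 = u 0 * p 0 ^ e 0 ∧ t.2 = u 1 * p 1 ^ e 1 ∧
      t.1 + t.2 = u 2 * p 2 ^ e 2 ∧ (∀ k, 0 < u k ∧ 0 < p k ∧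
        (u k).primeFactors ⊆ (light η t).primeFactors ∧ (p k = 1 → e k = 0)) ∧
      p 0 * p 1 * p 2 * light η t ≤ rad (T t) := by
  have p1 := ht.pos1
  have p2 := ht.pos2
  have hT : T t = t.1 * t.2 * (t.1 + t.2) := rfl
  have h10 : t.1 ≠ 0 := p1.ne'
  have h20 : t.2 ≠ 0 := p2.ne'
  have h30 : t.1 + t.2 ≠ 0 := by omega
  have hf : (T t).factorization = t.1.factorization + t.2.factorization +
      (t.1 + t.2).factorization := by
    rw [hT, Nat.factorization_mul (mul_ne_zero h10 h20) h30, Nat.factorization_mul h10 h20]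
  have hz : ∀ {q m n : ℕ}, q.Prime → q ∣ m → m.Coprime n → n.factorization q = 0 := by
    intro q m n hq hm hc
    apply Nat.factorization_eq_zero_of_not_dvd
    intro hn
    exact hq.one_lt.ne' (Nat.dvd_one.1 (hc ▸ Nat.dvd_gcd hm hn))
  obtain ⟨u0, q0, e0, a0, b0, c0, d0, f0⟩ := entry ht η h1 t.1 p1
    (by unfold c; exact_mod_cast Nat.le_add_right _ _)
    (by rw [hT, mul_assoc]; exact Dvd.intro _ rfl)
    (fun q hq hd => by
      rw [hf]
      simp [hz hq hd ht.cop, hz hq hd ht.cop1])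
  obtain ⟨u1, q1, e1, a1, b1, c1, d1, f1⟩ := entry ht η h1 t.2 p2
    (by unfold c; exact_mod_cast Nat.le_add_left _ _)
    (by rw [hT]; exact Dvd.dvd.mul_right (Dvd.intro_left _ rfl) _)
    (fun q hq hd => by
      rw [hf]
      simp [hz hq hd ht.cop.symm, hz hq hd ht.cop2])
  obtain ⟨u2, q2, e2, a2, b2, c2, d2, f2⟩ := entry ht η h1 (t.1 + t.2) (by omega)
    le_rfl (by rw [hT]; exact Dvd.intro_left _ rfl)
    (fun q hq hd => by
      rw [hf]
      simp [hz hq hd ht.cop1.symm, hz hq hd ht.cop2.symm])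
  refine ⟨![u0, u1, u2], ![q0, q1, q2], ![e0, e1, e2], a0, a1, a2, fun k => ?_, ?_⟩
  · fin_cases k
    · exact b0
    · exact b1
    · exact b2
  · change q0 * q1 * q2 * light η t ≤ rad (T t)
    have k01 : q0.Coprime q1 := Nat.Coprime.of_dvd c0 c1 ht.cop
    have k02 : q0.Coprime q2 := Nat.Coprime.of_dvd c0 c2 ht.cop1
    have k12 : q1.Coprime q2 := Nat.Coprime.of_dvd c1 c2 ht.cop2
    have g1 : q0 * q1 ∣ rad (T t) := Nat.Coprime.mul_dvd_of_dvd_of_dvd k01 f0 f1
    have g2 : q0 * q1 * q2 ∣ rad (T t) :=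
      Nat.Coprime.mul_dvd_of_dvd_of_dvd (Nat.Coprime.mul_left k02 k12) g1 f2
    have g3 : q0 * q1 * q2 * light η t ∣ rad (T t) :=
      Nat.Coprime.mul_dvd_of_dvd_of_dvd
        (Nat.Coprime.mul_left (Nat.Coprime.mul_left d0 d1) d2) g2 (light_dvd η t)
    exact Nat.le_of_dvd (rad_pos _) g3

end Pool.Agent.Helper42.RO
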