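import Mathlib
import Pool.Agent.Helper42.RO.S1_b
import Pool.Agent.Helper42.RO.S2_a
import Pool.Agent.Helper42.RO.S2_b

set_option autoImplicit false

open Finset

namespace Pool.Agent.Helper42.RO

/-- RO-S2a. `(A (1 + log Z) ^ 10) ^ ω(m) ≤ C Z ^ ε m ^ 12`.
PROOF. Put `K = A (1 + log Z) ^ 10 ≥ 1` and `K1 = K ^ (1 / 12)`. Then
`K ^ ω(m) = ∏_{p ∣ m} K ≤ ∏_{p ∣ m, p ≤ K1} K * ∏_{p ∣ m, p > K1} p ^ 12 ≤ K ^ K1 * m ^ 12`
(at most `K1` primes are `≤ K1`), and `log (K ^ K1) = K1 log K = O((log Z) ^ (5 / 6) * log log Z)`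
is at most `ε log Z + C`. -/
theorem pow_log_omega (A ε : ℝ) (hA : 1 ≤ A) (hε : 0 < ε) :
    ∃ C : ℝ, 1 ≤ C ∧ ∀ Z m : ℕ, 1 ≤ Z → m ≠ 0 →
      (A * (1 + Real.log Z) ^ 10) ^ m.primeFactors.card ≤ C * (Z : ℝ) ^ ε * (m : ℝ) ^ 12 := by
  exact pow_log_omega_p A ε hA hε

/-- RO-S2b. Decomposition of the entries into a light part and one heavy prime power.
PROOF. A prime `p ∣ abc` is heavy if `p ^ v_p > c ^ (1 - η)`. As `1 - η ≥ 1 / 2`, an entry (being
at most `c`) has at most one heavy prime divisor. For an entry `n` with a heavy prime `p` put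
`u = n / p ^ v_p(n)`, `e = v_p(n)`; without heavy prime put `u = n`, `p = 1`, `e = 0`. The prime
divisors of the `u`'s are light, and the heavy primes and the light part are coprime divisors of the
radical, so the product of the four numbers divides (indeed equals) `rad (T t)`. -/
theorem decomp {t : ℕ × ℕ} (ht : Cop t) (η : ℝ) (h0 : 0 ≤ η) (h1 : η ≤ 1 / 2) :
    ∃ u p e : Fin 3 → ℕ, t.1 = u 0 * p 0 ^ e 0 ∧ t.2 = u 1 * p 1 ^ e 1 ∧
      t.1 + t.2 = u 2 * p 2 ^ e 2 ∧ (∀ k, 0 < u k ∧ 0 < p k ∧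
        (u k).primeFactors ⊆ (light η t).primeFactors ∧ (p k = 1 → e k = 0)) ∧
      p 0 * p 1 * p 2 * light η t ≤ rad (T t) := by
  exact decomp_p ht η h0 h1

end Pool.Agent.Helper42.RO
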