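import Mathlib
import Pool.Agent.Helper42.RO.S2

set_option autoImplicit false

open Finset

namespace Pool.Agent.Helper42.RO

/-- numbers with prime factors among those of `m` and exponents at most `K` -/
private noncomputable def Us (K m : ℕ) : Finset ℕ :=
  (m.primeFactors.pi fun _ => range (K + 1)).image
    (fun f => ∏ p ∈ m.primeFactors.attach, (p : ℕ) ^ f p.1 p.2)

private lemma card_Us (K m : ℕ) : (Us K m).card ≤ (K + 1) ^ m.primeFactors.card := by
  refine card_image_le.trans ?_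
  rw [card_pi]
  simp

private lemma mem_Us {K m u : ℕ} (hu : u ≠ 0) (h : u.primeFactors ⊆ m.primeFactors)
    (hK : ∀ q, q.Prime → u.factorization q ≤ K) : u ∈ Us K m := by
  rw [Us, mem_image]
  refine ⟨fun p _ => u.factorization p, ?_, ?_⟩
  · rw [mem_pi]
    intro a ha
    rw [mem_range]
    exact Nat.lt_succ_of_le (hK a (Nat.prime_of_mem_primeFactors ha))
  · rw [prod_attach m.primeFactors (fun p => p ^ u.factorization p)]
    conv_rhs => rw [← Nat.prod_factorization_pow_eq_self hu]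
    rw [Finsupp.prod, Nat.support_factorization]
    symm
    refine prod_subset h fun p _ hp => ?_
    rw [← Nat.support_factorization, Finsupp.notMem_support_iff] at hp
    rw [hp, pow_zero]

/-- the decoding map -/
private def dec (d : Fin 3 × (Σ _ : ℕ, ℕ × ℕ) × (ℕ × ℕ) × (Σ _ : ℕ, ℕ)) : ℕ × ℕ :=
  let n := d.2.1.2.1 * d.2.2.2.1 ^ d.2.2.1.1
  let n' := d.2.1.2.2 * d.2.2.2.2 ^ d.2.2.1.2
  if d.1 = 0 then (n' - n, n) else if d.1 = 1 then (n, n' - n) else (n, n')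

private lemma sum_div_le (X : ℕ) :
    ((∑ p ∈ Icc 1 X, X / p : ℕ) : ℝ) ≤ X * (1 + Real.log X) := by
  have h1 : ((∑ p ∈ Icc 1 X, X / p : ℕ) : ℝ) ≤ ∑ p ∈ Icc 1 X, (X : ℝ) * (p : ℝ)⁻¹ := by
    push_cast
    refine sum_le_sum fun p _ => ?_
    rw [← div_eq_mul_inv]
    exact Nat.cast_div_le
  have h2 : ∑ p ∈ Icc 1 X, (X : ℝ) * (p : ℝ)⁻¹ = X * (harmonic X : ℝ) := by
    rw [← mul_sum, harmonic_eq_sum_Icc]
    push_cast
    rfl
  rw [h2] at h1
  refine h1.trans (mul_le_mul_of_nonneg_left ?_ (Nat.cast_nonneg _))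
  exact harmonic_le_one_add_log X

private lemma pair_le {a b m Z : ℕ} (ha : a ≤ m) (hb : b ≤ m) (h : a * b * m ≤ Z) :
    a * b ≤ ⌊(Z : ℝ) ^ (2 / 3 : ℝ)⌋₊ := by
  rw [Nat.le_floor_iff (by positivity)]
  have h1 : (a * b) ^ 3 ≤ Z ^ 2 := by
    calc (a * b) ^ 3 = (a * b) ^ 2 * (a * b) := by ring
      _ ≤ (a * b) ^ 2 * (m * m) := Nat.mul_le_mul_left _ (Nat.mul_le_mul ha hb)
      _ = (a * b * m) ^ 2 := by ring
      _ ≤ Z ^ 2 := Nat.pow_le_pow_left h 2
  have h2 : (((a * b : ℕ) : ℝ)) ^ 3 ≤ (Z : ℝ) ^ 2 := by exact_mod_cast h1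
  have h3 : ((a * b : ℕ) : ℝ) = ((((a * b : ℕ) : ℝ)) ^ 3) ^ (1 / 3 : ℝ) := by
    rw [← Real.rpow_natCast, ← Real.rpow_mul (Nat.cast_nonneg _)]
    norm_num
  have h4 : (Z : ℝ) ^ (2 / 3 : ℝ) = ((Z : ℝ) ^ 2) ^ (1 / 3 : ℝ) := by
    rw [← Real.rpow_natCast, ← Real.rpow_mul (Nat.cast_nonneg _)]
    norm_num
  rw [h3, h4]
  exact Real.rpow_le_rpow (by positivity) h2 (by norm_num)

/-- RO-S3. Pairs with `log c ≤ (log Z) ^ 5` and light part at most `W`.
PROOF. Let `K0 = ⌊(log Z) ^ 5 / log 2⌋₊`: all exponents `v_l(n)` of entries and the `e k` of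
`decomp` are at most `K0` (`p k = 1` gives `e k = 0`). For a pair `t` let `u, p, e` be as in
`decomp`; `p 0 p 1 p 2 ≤ Z`, so for two of the three indices `k ≠ l` the product `p k * p l` is at
most `Z ^ (2 / 3)` (leave out the largest). The pair `t` is determined by the two entries number
`k` and `l`, hence by `(k, l)`, `m = light η t ≤ W`, `u k`, `u l`, `e k`, `e l`, `p k`, `p l`. The
number of possible values: `(k, l)`: at most `3` (or `9`); `m`: at most `W`; for given `m` each of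
`u k`, `u l` lies in the set of numbers with prime factors among those of `m` and exponents at most
`K0`, which has at most `(K0 + 1) ^ ω(m)` elements; `e`'s: `(K0 + 1) ^ 2`; `(p k, p l)`: at most
`Z ^ (2 / 3) (1 + log Z)`. With `(K0 + 1) ^ 2 ≤ A (1 + log Z) ^ 10` and `pow_log_omega` the total is
at most `9 W * C Z ^ (ε / 3) W ^ 12 * A (1 + log Z) ^ 10 * Z ^ (2 / 3) (1 + log Z)`. -/
theorem smallC (η ε : ℝ) (h0 : 0 ≤ η) (h1 : η ≤ 1 / 2) (hε : 0 < ε) :
    ∃ C : ℝ, 1 ≤ C ∧ ∀ (Z : ℕ) (W : ℝ), 1 ≤ Z → 1 ≤ W → ∀ S : Finset (ℕ × ℕ),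
      (∀ t ∈ S, Cop t ∧ rad (T t) ≤ Z ∧ Real.log (c t) ≤ (Real.log Z) ^ 5 ∧
        (light η t : ℝ) ≤ W) →
      (S.card : ℝ) ≤ C * W ^ 13 * (Z : ℝ) ^ (2 / 3 + ε) := by
  obtain ⟨C, hC1, hC⟩ := pow_log_omega 4 (ε / 3) (by norm_num) (by positivity)
  refine ⟨3 * C ^ 3 * 2 ^ 24, ?_, ?_⟩
  · have : 1 ≤ C ^ 3 := one_le_pow₀ hC1
    nlinarith
  intro Z W hZ hW S hS
  have hZ' : (1 : ℝ) ≤ Z := by exact_mod_cast hZ
  have hlog : 0 ≤ Real.log Z := Real.log_nonneg hZ'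
  have hl2 : (1 / 2 : ℝ) < Real.log 2 := by have := Real.log_two_gt_d9; linarith
  set K0 : ℕ := ⌊(Real.log Z) ^ 5 / Real.log 2⌋₊ with hK0
  set M : ℕ := ⌊W⌋₊ with hM
  set X : ℕ := ⌊(Z : ℝ) ^ (2 / 3 : ℝ)⌋₊ with hX
  -- the bound for `K0`
  have hK : (K0 : ℝ) + 1 ≤ 2 * (1 + Real.log Z) ^ 5 := by
    have h2 : (K0 : ℝ) ≤ (Real.log Z) ^ 5 / Real.log 2 := Nat.floor_le (by positivity)
    have h3 : (Real.log Z) ^ 5 / Real.log 2 ≤ 2 * (Real.log Z) ^ 5 := by
      rw [div_le_iff₀ (by linarith)]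
      have : 0 ≤ (Real.log Z) ^ 5 := by positivity
      nlinarith
    have h4 : (Real.log Z) ^ 5 + 1 ≤ (1 + Real.log Z) ^ 5 := by
      have e1 : 0 ≤ Real.log Z ^ 2 := by positivity
      have e2 : 0 ≤ Real.log Z ^ 3 := by positivity
      have e3 : 0 ≤ Real.log Z ^ 4 := by positivity
      nlinarith
    linarith
  have hKK : ((K0 : ℝ) + 1) ^ 2 ≤ 4 * (1 + Real.log Z) ^ 10 := by
    calc ((K0 : ℝ) + 1) ^ 2 ≤ (2 * (1 + Real.log Z) ^ 5) ^ 2 :=
          pow_le_pow_left₀ (by positivity) hK 2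
      _ = 4 * (1 + Real.log Z) ^ 10 := by ring
  have hbase : 4 * (1 + Real.log Z) ^ 10 ≤ C * (Z : ℝ) ^ (ε / 3) * 2 ^ 12 := by
    have := hC Z 2 hZ (by norm_num)
    rw [Nat.prime_two.primeFactors, card_singleton, pow_one] at this
    exact_mod_cast this
  -- exponents
  have hexp : ∀ t ∈ S, ∀ e : ℕ, 2 ^ e ≤ t.1 + t.2 → e ≤ K0 := by
    intro t ht e he
    obtain ⟨hc, _, h3, _⟩ := hS t ht
    rw [hK0, Nat.le_floor_iff (by positivity), le_div_iff₀ (by linarith)]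
    refine le_trans ?_ h3
    rw [← Real.log_pow]
    apply Real.log_le_log (by positivity)
    unfold c
    exact_mod_cast he
  -- the finite set of codes
  set F : Finset (Fin 3 × (Σ _ : ℕ, ℕ × ℕ) × (ℕ × ℕ) × (Σ _ : ℕ, ℕ)) :=
    (univ : Finset (Fin 3)) ×ˢ ((Icc 1 M).sigma fun m => Us K0 m ×ˢ Us K0 m) ×ˢ
      (range (K0 + 1) ×ˢ range (K0 + 1)) ×ˢ ((Icc 1 X).sigma fun p => Icc 1 (X / p)) with hF
  have hsub : S ⊆ F.image dec := by
    intro t ht
    obtain ⟨hc, hr, h3, h4⟩ := hS t ht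
    obtain ⟨u, p, e, hu0, hu1, hu2, hup, hprod⟩ := decomp hc η h0 h1
    have hm1 : 1 ≤ light η t := by
      unfold light
      exact Finset.prod_pos fun q hq =>
        (Nat.prime_of_mem_primeFactors (mem_filter.1 hq).1).pos
    have hmM : light η t ≤ M := by
      rw [hM, Nat.le_floor_iff (by linarith)]
      exact h4
    have hpp : p 0 * p 1 * p 2 ≤ Z := by
      calc p 0 * p 1 * p 2 ≤ p 0 * p 1 * p 2 * light η t := Nat.le_mul_of_pos_right _ hm1
        _ ≤ Z := hprod.trans hr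
    have hent : ∀ k, u k * p k ^ e k ≤ t.1 + t.2 := by
      intro k
      match k with
      | 0 => rw [← hu0]; omega
      | 1 => rw [← hu1]; omega
      | 2 => rw [← hu2]
    have hUm : ∀ k, u k ∈ Us K0 (light η t) := by
      intro k
      obtain ⟨a1, a2, a3, _⟩ := hup k
      refine mem_Us a1.ne' a3 fun q hq => ?_
      apply hexp t ht
      calc 2 ^ (u k).factorization q ≤ q ^ (u k).factorization q :=
            Nat.pow_le_pow_left hq.two_le _
        _ ≤ u k := Nat.le_of_dvd a1 (Nat.ordProj_dvd _ _)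
        _ ≤ u k * p k ^ e k := Nat.le_mul_of_pos_right _ (pow_pos a2 _)
        _ ≤ t.1 + t.2 := hent k
    have hem : ∀ k, e k ∈ range (K0 + 1) := by
      intro k
      obtain ⟨a1, a2, _, a4⟩ := hup k
      rw [mem_range]
      apply Nat.lt_succ_of_le
      by_cases hpk : p k = 1
      · rw [a4 hpk]; exact Nat.zero_le _
      · apply hexp t ht
        calc 2 ^ e k ≤ p k ^ e k := Nat.pow_le_pow_left (by omega) _
          _ ≤ u k * p k ^ e k := Nat.le_mul_of_pos_left _ a1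
          _ ≤ t.1 + t.2 := hent k
    have hpm : ∀ k l, p k * p l ≤ X →
        (⟨p k, p l⟩ : Σ _ : ℕ, ℕ) ∈ (Icc 1 X).sigma fun p => Icc 1 (X / p) := by
      intro k l hkl
      have b1 := (hup k).2.1
      have b2 := (hup l).2.1
      rw [mem_sigma, mem_Icc, mem_Icc]
      refine ⟨⟨b1, (Nat.le_mul_of_pos_right _ b2).trans hkl⟩, b2, ?_⟩
      rw [Nat.le_div_iff_mul_le b1, Nat.mul_comm]
      exact hkl
    have hmem : ∀ i k l, p k * p l ≤ X →
        ((i, ⟨light η t, u k, u l⟩, (e k, e l), ⟨p k, p l⟩) :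
          Fin 3 × (Σ _ : ℕ, ℕ × ℕ) × (ℕ × ℕ) × (Σ _ : ℕ, ℕ)) ∈ F := by
      intro i k l hkl
      rw [hF, mem_product, mem_product, mem_product]
      refine ⟨mem_univ _, ?_, ?_, hpm k l hkl⟩
      · rw [mem_sigma]
        exact ⟨mem_Icc.2 ⟨hm1, hmM⟩, mem_product.2 ⟨hUm k, hUm l⟩⟩
      · exact mem_product.2 ⟨hem k, hem l⟩
    obtain ⟨i, _, hi⟩ := exists_max_image (univ : Finset (Fin 3)) p ⟨0, mem_univ _⟩
    rw [mem_image]
    fin_cases i
    · refine ⟨_, hmem 0 1 2 (pair_le (hi 1 (mem_univ _)) (hi 2 (mem_univ _)) ?_), ?_⟩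
      · have : p 1 * p 2 * p 0 = p 0 * p 1 * p 2 := by ring
        change p 1 * p 2 * p 0 ≤ Z
        rw [this]; exact hpp
      · simp only [dec, if_true]
        rw [← hu1, ← hu2]
        ext
        · change t.1 + t.2 - t.2 = t.1
          omega
        · rfl
    · refine ⟨_, hmem 1 0 2 (pair_le (hi 0 (mem_univ _)) (hi 2 (mem_univ _)) ?_), ?_⟩
      · have : p 0 * p 2 * p 1 = p 0 * p 1 * p 2 := by ring
        change p 0 * p 2 * p 1 ≤ Z
        rw [this]; exact hpp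
      · simp only [dec, one_ne_zero, if_true, if_false]
        rw [← hu0, ← hu2]
        ext
        · rfl
        · change t.1 + t.2 - t.1 = t.2
          omega
    · refine ⟨_, hmem 2 0 1 (pair_le (hi 0 (mem_univ _)) (hi 1 (mem_univ _)) ?_), ?_⟩
      · exact hpp
      · have e1 : (2 : Fin 3) ≠ 0 := by decide
        have e2 : (2 : Fin 3) ≠ 1 := by decide
        simp only [dec, if_neg e1, if_neg e2]
        rw [← hu0, ← hu1]
  have hcard : S.card ≤ 3 * ((∑ m ∈ Icc 1 M, (Us K0 m).card * (Us K0 m).card) *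
      (((K0 + 1) * (K0 + 1)) * ∑ p ∈ Icc 1 X, X / p)) := by
    refine (card_le_card hsub).trans (card_image_le.trans ?_)
    rw [hF, card_product, card_product, card_product, card_sigma, card_sigma, card_product,
      card_range, card_univ, Fintype.card_fin]
    simp only [card_product, Nat.card_Icc, Nat.add_sub_cancel]
    exact le_refl _
  -- the three factors
  have hMW : (M : ℝ) ≤ W := Nat.floor_le (by linarith)
  have f1 : ((∑ m ∈ Icc 1 M, (Us K0 m).card * (Us K0 m).card : ℕ) : ℝ) ≤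
      C * (Z : ℝ) ^ (ε / 3) * W ^ 13 := by
    push_cast
    have hb : ∀ m ∈ Icc 1 M, ((Us K0 m).card : ℝ) * ((Us K0 m).card : ℝ) ≤
        C * (Z : ℝ) ^ (ε / 3) * W ^ 12 := by
      intro m hm
      rw [mem_Icc] at hm
      have g1 : ((Us K0 m).card : ℝ) ≤ ((K0 : ℝ) + 1) ^ m.primeFactors.card := by
        exact_mod_cast card_Us K0 m
      calc ((Us K0 m).card : ℝ) * ((Us K0 m).card : ℝ)
          ≤ ((K0 : ℝ) + 1) ^ m.primeFactors.card * ((K0 : ℝ) + 1) ^ m.primeFactors.card :=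
            mul_le_mul g1 g1 (Nat.cast_nonneg _) (by positivity)
        _ = (((K0 : ℝ) + 1) ^ 2) ^ m.primeFactors.card := by
            rw [← pow_mul, ← pow_add, two_mul]
        _ ≤ (4 * (1 + Real.log Z) ^ 10) ^ m.primeFactors.card :=
            pow_le_pow_left₀ (by positivity) hKK _
        _ ≤ C * (Z : ℝ) ^ (ε / 3) * (m : ℝ) ^ 12 := hC Z m hZ (by omega)
        _ ≤ C * (Z : ℝ) ^ (ε / 3) * W ^ 12 := by
            refine mul_le_mul_of_nonneg_left ?_ (by positivity)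
            refine pow_le_pow_left₀ (Nat.cast_nonneg _) ?_ 12
            exact le_trans (by exact_mod_cast hm.2) hMW
    refine (sum_le_card_nsmul _ _ _ hb).trans ?_
    rw [Nat.card_Icc, Nat.add_sub_cancel, nsmul_eq_mul]
    have g2 : 0 ≤ C * (Z : ℝ) ^ (ε / 3) * W ^ 12 := by positivity
    calc (M : ℝ) * (C * (Z : ℝ) ^ (ε / 3) * W ^ 12) ≤ W * (C * (Z : ℝ) ^ (ε / 3) * W ^ 12) :=
          mul_le_mul_of_nonneg_right hMW g2
      _ = C * (Z : ℝ) ^ (ε / 3) * W ^ 13 := by ring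
  have f2 : (((K0 + 1) * (K0 + 1) : ℕ) : ℝ) ≤ C * (Z : ℝ) ^ (ε / 3) * 2 ^ 12 := by
    push_cast
    calc ((K0 : ℝ) + 1) * ((K0 : ℝ) + 1) = ((K0 : ℝ) + 1) ^ 2 := by ring
      _ ≤ _ := hKK.trans hbase
  have hXZ : (X : ℝ) ≤ (Z : ℝ) ^ (2 / 3 : ℝ) := Nat.floor_le (by positivity)
  have f3 : ((∑ p ∈ Icc 1 X, X / p : ℕ) : ℝ) ≤
      (Z : ℝ) ^ (2 / 3 : ℝ) * (C * (Z : ℝ) ^ (ε / 3) * 2 ^ 12) := by
    refine (sum_div_le X).trans ?_
    have g1 : 1 + Real.log X ≤ 1 + Real.log Z := by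
      have hX1 : (1 : ℝ) ≤ X := by
        have : 1 ≤ X := by
          rw [hX, Nat.le_floor_iff (by positivity)]
          rw [Nat.cast_one]
          exact Real.one_le_rpow hZ' (by norm_num)
        exact_mod_cast this
      have : Real.log X ≤ Real.log Z := by
        apply Real.log_le_log (by linarith)
        refine hXZ.trans ?_
        calc (Z : ℝ) ^ (2 / 3 : ℝ) ≤ (Z : ℝ) ^ (1 : ℝ) :=
              Real.rpow_le_rpow_of_exponent_le hZ' (by norm_num)
          _ = Z := Real.rpow_one _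
      linarith
    have g2 : 1 + Real.log Z ≤ 4 * (1 + Real.log Z) ^ 10 := by
      have h5 : (1 : ℝ) ≤ 1 + Real.log Z := by linarith
      have h6 : (1 + Real.log Z) ^ 1 ≤ (1 + Real.log Z) ^ 10 :=
        pow_le_pow_right₀ h5 (by norm_num)
      rw [pow_one] at h6
      linarith
    have g3 : 0 ≤ 1 + Real.log (X : ℝ) := by
      have := Real.log_natCast_nonneg X
      linarith
    exact mul_le_mul hXZ (g1.trans (g2.trans hbase)) g3 (by positivity)
  have hfin : (S.card : ℝ) ≤ 3 * ((C * (Z : ℝ) ^ (ε / 3) * W ^ 13) *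
      ((C * (Z : ℝ) ^ (ε / 3) * 2 ^ 12) *
        ((Z : ℝ) ^ (2 / 3 : ℝ) * (C * (Z : ℝ) ^ (ε / 3) * 2 ^ 12)))) := by
    calc (S.card : ℝ) ≤ ((3 * ((∑ m ∈ Icc 1 M, (Us K0 m).card * (Us K0 m).card) *
          (((K0 + 1) * (K0 + 1)) * ∑ p ∈ Icc 1 X, X / p)) : ℕ) : ℝ) := by exact_mod_cast hcard
      _ = 3 * (((∑ m ∈ Icc 1 M, (Us K0 m).card * (Us K0 m).card : ℕ) : ℝ) *
          ((((K0 + 1) * (K0 + 1) : ℕ) : ℝ) * ((∑ p ∈ Icc 1 X, X / p : ℕ) : ℝ))) := by
        push_cast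
        ring
      _ ≤ _ := by
        refine mul_le_mul_of_nonneg_left ?_ (by norm_num)
        refine mul_le_mul f1 ?_ (by positivity) (by positivity)
        exact mul_le_mul f2 f3 (by positivity) (by positivity)
  refine hfin.trans (le_of_eq ?_)
  have hz : (Z : ℝ) ^ (2 / 3 + ε) = (Z : ℝ) ^ (2 / 3 : ℝ) * ((Z : ℝ) ^ (ε / 3) *
      (Z : ℝ) ^ (ε / 3) * (Z : ℝ) ^ (ε / 3)) := by
    have hZ0 : (0 : ℝ) < Z := by linarith
    rw [← Real.rpow_add hZ0, ← Real.rpow_add hZ0, ← Real.rpow_add hZ0]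
    congr 1
    ring
  rw [hz]
  ring

end Pool.Agent.Helper42.RO
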