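import Mathlib
import Pool.Agent.Helper42.RO.A4
import Pool.Agent.Helper42.RO.K6_b
import Pool.Agent.Helper42.RO.S3

set_option autoImplicit false

open Finset

namespace Pool.Agent.Helper42.RO

/-- Logarithms are dominated by powers. -/
lemma one_add_log_le (ε : ℝ) (hε : 0 < ε) : ∃ C : ℝ, 1 ≤ C ∧ ∀ Z : ℕ, 1 ≤ Z →
    1 + Real.log Z ≤ C * (Z : ℝ) ^ ε := by
  refine ⟨1 + 1 / ε, le_add_of_nonneg_right (by positivity), fun Z hZ => ?_⟩
  have hZ1 : (1 : ℝ) ≤ Z := by exact_mod_cast hZ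
  have h1 : Real.log Z ≤ (Z : ℝ) ^ ε / ε := Real.log_le_rpow_div (by linarith) hε
  have h2 : (1 : ℝ) ≤ (Z : ℝ) ^ ε := Real.one_le_rpow hZ1 hε.le
  have : (1 + 1 / ε) * (Z : ℝ) ^ ε = (Z : ℝ) ^ ε + (Z : ℝ) ^ ε / ε := by ring
  rw [this]
  linarith

/-- The prime divisors of `T t` are at most the radical. -/
lemma le_rad {n p : ℕ} (hp : p ∈ n.primeFactors) : p ≤ rad n :=
  Nat.le_of_dvd (rad_pos n) (Finset.dvd_prod_of_mem (fun p => p) hp)

/-- Pairs with a large prime `q` of the radical, `log c ≤ q ^ (1 - ε)`, `log c > (log Z) ^ 5`. -/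
theorem big_count (ε : ℝ) (hε : 0 < ε) (hε1 : ε ≤ 1 / 100) : ∃ C : ℝ, 1 ≤ C ∧ ∀ Z : ℕ, 1 ≤ Z →
    ∀ S : Finset (ℕ × ℕ), (∀ t ∈ S, Cop t ∧ rad (T t) ≤ Z ∧
      (Real.log Z) ^ 5 < Real.log (c t) ∧
      ∃ q ∈ (T t).primeFactors, (Z : ℝ) ^ (1 / 3 - ε / 2) ≤ q ∧
        Real.log (c t) ≤ (q : ℝ) ^ (1 - ε)) →
    (S.card : ℝ) ≤ C * (Z : ℝ) ^ (1 - 29 / 100 * ε) := by
  classical
  obtain ⟨C1, hC1, h1⟩ := part2 ε hε hε1
  obtain ⟨C2, hC2, h2⟩ := perN (ε / 200) (by positivity)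
  obtain ⟨C3, hC3, h3⟩ := one_add_log_le (ε / 200) (by positivity)
  refine ⟨C1 * (C2 * C3), ?_, fun Z hZ S hS => ?_⟩
  · have h12 : 1 ≤ C2 * C3 := by nlinarith
    nlinarith
  have hZ1 : (1 : ℝ) ≤ Z := by exact_mod_cast hZ
  have hZ0 : (0 : ℝ) < Z := by linarith
  -- the radicals
  have hR : ((S.image (fun t => rad (T t))).card : ℝ) ≤ C1 * (Z : ℝ) ^ (1 - 3 / 10 * ε) := by
    apply h1 Z hZ
    intro N hN
    obtain ⟨t, ht, rfl⟩ := Finset.mem_image.1 hN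
    obtain ⟨hc, hr, hl, q, hq, hq1, hq2⟩ := hS t ht
    refine ⟨hr, ?_⟩
    have hqd : q ∣ rad (T t) := Finset.dvd_prod_of_mem (fun p => p) hq
    obtain ⟨m, hm⟩ := hqd
    exact ⟨m, q, t, by rw [hm, mul_comm], Nat.prime_of_mem_primeFactors hq, hq1, hc, rfl, hl, hq2⟩
  have hfib : ∀ N ∈ S.image (fun t => rad (T t)),
      ((S.filter (fun t => rad (T t) = N)).card : ℝ) ≤
        C2 * (Z : ℝ) ^ (ε / 200) * (C3 * (Z : ℝ) ^ (ε / 200)) := by
    intro N hN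
    obtain ⟨t0, ht0, hN0⟩ := Finset.mem_image.1 hN
    have hNZ : N ≤ Z := by rw [← hN0]; exact (hS t0 ht0).2.1
    have hb := h2 N (Z : ℝ) hZ1 (S.filter (fun t => rad (T t) = N)) (by
      intro t ht
      rw [Finset.mem_filter] at ht
      obtain ⟨hc, hr, hl, q, hq, hq1, hq2⟩ := hS t ht.1
      refine ⟨hc, ?_, ht.2⟩
      have hqZ : (q : ℝ) ≤ Z := by exact_mod_cast (le_rad hq).trans hr
      have hq1' : (1 : ℝ) ≤ q := by
        exact_mod_cast (Nat.prime_of_mem_primeFactors hq).one_le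
      calc Real.log (c t) ≤ (q : ℝ) ^ (1 - ε) := hq2
        _ ≤ (q : ℝ) ^ (1 : ℝ) := Real.rpow_le_rpow_of_exponent_le hq1' (by linarith)
        _ = q := Real.rpow_one _
        _ ≤ Z := hqZ)
    refine hb.trans ?_
    have h4 : (N : ℝ) ^ (ε / 200) ≤ (Z : ℝ) ^ (ε / 200) :=
      Real.rpow_le_rpow (Nat.cast_nonneg _) (by exact_mod_cast hNZ) (by positivity)
    have h5 := h3 Z hZ
    have h6 : 0 ≤ 1 + Real.log Z := by
      have := Real.log_nonneg hZ1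
      linarith
    have h7 : 0 ≤ (Z : ℝ) ^ (ε / 200) := by positivity
    calc C2 * (N : ℝ) ^ (ε / 200) * (1 + Real.log Z)
        ≤ C2 * (Z : ℝ) ^ (ε / 200) * (1 + Real.log Z) := by
          apply mul_le_mul_of_nonneg_right _ h6
          apply mul_le_mul_of_nonneg_left h4 (by linarith)
      _ ≤ C2 * (Z : ℝ) ^ (ε / 200) * (C3 * (Z : ℝ) ^ (ε / 200)) := by
          apply mul_le_mul_of_nonneg_left h5
          exact mul_nonneg (by linarith) h7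
  have hcard : (S.card : ℝ) =
      ∑ N ∈ S.image (fun t => rad (T t)), ((S.filter (fun t => rad (T t) = N)).card : ℝ) := by
    rw [← Nat.cast_sum, ← Finset.card_eq_sum_card_image]
  rw [hcard]
  calc ∑ N ∈ S.image (fun t => rad (T t)), ((S.filter (fun t => rad (T t) = N)).card : ℝ)
      ≤ ∑ N ∈ S.image (fun t => rad (T t)),
          C2 * (Z : ℝ) ^ (ε / 200) * (C3 * (Z : ℝ) ^ (ε / 200)) := Finset.sum_le_sum hfib
    _ = ((S.image (fun t => rad (T t))).card : ℝ) *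
          (C2 * (Z : ℝ) ^ (ε / 200) * (C3 * (Z : ℝ) ^ (ε / 200))) := by
        rw [Finset.sum_const, nsmul_eq_mul]
    _ ≤ C1 * (Z : ℝ) ^ (1 - 3 / 10 * ε) *
          (C2 * (Z : ℝ) ^ (ε / 200) * (C3 * (Z : ℝ) ^ (ε / 200))) := by
        apply mul_le_mul_of_nonneg_right hR
        have : 0 ≤ (Z : ℝ) ^ (ε / 200) := by positivity
        exact mul_nonneg (mul_nonneg (by linarith) this) (mul_nonneg (by linarith) this)
    _ = C1 * (C2 * C3) * (Z : ℝ) ^ (1 - 29 / 100 * ε) := by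
        have : (Z : ℝ) ^ (1 - 29 / 100 * ε) =
            (Z : ℝ) ^ (1 - 3 / 10 * ε) * (Z : ℝ) ^ (ε / 200) * (Z : ℝ) ^ (ε / 200) := by
          rw [← Real.rpow_add hZ0, ← Real.rpow_add hZ0]
          congr 1
          ring
        rw [this]
        ring

/-- The main count. -/
theorem main_count (η δ ε : ℝ) (hη : 0 < η) (hη1 : η ≤ 1 / 7) (hδ : 0 < δ) (hδ1 : 91 * δ ≤ 3 / 10)
    (hε : 0 < ε) (hε1 : ε ≤ 1 / 100) (hc : (η + δ) / 3 + δ ≤ ε / 2) :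
    ∃ C : ℝ, 1 ≤ C ∧ ∀ (Z : ℕ) (Λ : ℝ), 1 ≤ Z → 1 ≤ Λ → ∀ S : Finset (ℕ × ℕ),
      (∀ t ∈ S, Cop t ∧ rad (T t) ≤ Z ∧ Real.log (c t) ≤ Λ ∧
        ((∃ n1 : ℕ, n1 ∣ rad (T t) ∧ (Z : ℝ) ^ δ ≤ n1 ∧
          (part n1 (T t) : ℝ) ≤ (c t) ^ (1 - η)) ∨
         Real.log (c t) ≤ (Z : ℝ) ^ (1 / 3 - ε) ∨
         (∃ p ∈ (T t).primeFactors, Real.log (c t) ≤ (p : ℝ) ^ (1 - ε)) ∨
         (∀ p ∈ (T t).primeFactors, (p : ℝ) ≤ (Z : ℝ) ^ (1 / 3 - ε / 2)))) →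
      (S.card : ℝ) ≤ C * ((Z : ℝ) ^ (1 - δ + ε / 1000) * (1 + Real.log Λ) +
        (Z : ℝ) ^ (1 - 29 / 100 * ε)) := by
  classical
  obtain ⟨C1, hC1, h1⟩ := caseA η δ (ε / 1000) hη (by linarith) hδ.le (by linarith) (by positivity)
  obtain ⟨C2, hC2, h2⟩ := smallRad (ε / 1000) (by positivity)
  obtain ⟨C3, hC3, h3⟩ := smallC η (ε / 1000) hη.le (by linarith) (by positivity)
  obtain ⟨C4, hC4, h4⟩ := big_count ε hε hε1
  refine ⟨C1 + C2 + C3 + C4, by linarith, fun Z Λ hZ hΛ S hS => ?_⟩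
  have hZ1 : (1 : ℝ) ≤ Z := by exact_mod_cast hZ
  have hZ0 : (0 : ℝ) < Z := by linarith
  have hlΛ : 0 ≤ 1 + Real.log Λ := by
    have := Real.log_nonneg hΛ
    linarith
  set W : ℕ × ℕ → Prop := fun t => ∃ n1 : ℕ, n1 ∣ rad (T t) ∧ (Z : ℝ) ^ δ ≤ n1 ∧
          (part n1 (T t) : ℝ) ≤ (c t) ^ (1 - η) with hW
  set S1 := S.filter (fun t => W t) with hS1
  set S2 := S.filter (fun t => (rad (T t) : ℝ) ≤ (Z : ℝ) ^ (1 - δ)) with hS2
  set S3 := S.filter (fun t => Real.log (c t) ≤ (Real.log Z) ^ 5 ∧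
    (light η t : ℝ) ≤ (Z : ℝ) ^ (7 * δ)) with hS3
  set S4 := S.filter (fun t => (Real.log Z) ^ 5 < Real.log (c t) ∧
      ∃ q ∈ (T t).primeFactors, (Z : ℝ) ^ (1 / 3 - ε / 2) ≤ q ∧
        Real.log (c t) ≤ (q : ℝ) ^ (1 - ε)) with hS4
  have hcover : S ⊆ S1 ∪ S2 ∪ S3 ∪ S4 := by
    intro t ht
    obtain ⟨hcop, hr, hl, hcase⟩ := hS t ht
    by_cases hw : W t
    · have : t ∈ S1 := Finset.mem_filter.2 ⟨ht, hw⟩
      simp [this]
    by_cases hsr : (rad (T t) : ℝ) ≤ (Z : ℝ) ^ (1 - δ)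
    · have : t ∈ S2 := Finset.mem_filter.2 ⟨ht, hsr⟩
      simp [this]
    have hsr' : (Z : ℝ) ^ (1 - δ) ≤ rad (T t) := (not_le.1 hsr).le
    -- there is a large prime
    have hbig : ∃ p ∈ (T t).primeFactors, (Z : ℝ) ^ (1 / 3 - ε / 2) < p := by
      by_contra hcon0
      have hcon : ∀ p ∈ (T t).primeFactors, (p : ℝ) ≤ (Z : ℝ) ^ (1 / 3 - ε / 2) := by
        intro p hp
        by_contra hlt
        exact hcon0 ⟨p, hp, not_le.1 hlt⟩
      obtain ⟨n1, hn1, hn2, hn3⟩ := select_small hcop Z hZ η δ (1 / 3 - ε / 2) hη.le (by linarith)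
        hδ.le (by linarith) hcon hsr'
      apply hw
      refine ⟨n1, hn1, le_trans ?_ hn2, hn3⟩
      apply Real.rpow_le_rpow_of_exponent_le hZ1
      have : (1 - η) * (1 - δ) / 3 = 1 / 3 - (η + δ) / 3 + η * δ / 3 := by ring
      rw [this]
      have : 0 ≤ η * δ / 3 := by positivity
      linarith
    obtain ⟨p, hp, hpZ⟩ := hbig
    have hq : ∃ q ∈ (T t).primeFactors, (Z : ℝ) ^ (1 / 3 - ε / 2) ≤ q ∧
        Real.log (c t) ≤ (q : ℝ) ^ (1 - ε) := by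
      rcases hcase with h | h | h | h
      · exact absurd h hw
      · refine ⟨p, hp, hpZ.le, h.trans ?_⟩
        calc (Z : ℝ) ^ (1 / 3 - ε) ≤ (Z : ℝ) ^ ((1 / 3 - ε / 2) * (1 - ε)) := by
              apply Real.rpow_le_rpow_of_exponent_le hZ1
              nlinarith
          _ = ((Z : ℝ) ^ (1 / 3 - ε / 2)) ^ (1 - ε) := by
              rw [← Real.rpow_mul hZ0.le]
          _ ≤ (p : ℝ) ^ (1 - ε) :=
              Real.rpow_le_rpow (by positivity) hpZ.le (by linarith)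
      · obtain ⟨p', hp', hp2⟩ := h
        rcases le_total p p' with hpp | hpp
        · exact ⟨p', hp', hpZ.le.trans (by exact_mod_cast hpp), hp2⟩
        · refine ⟨p, hp, hpZ.le, hp2.trans ?_⟩
          exact Real.rpow_le_rpow (Nat.cast_nonneg _) (by exact_mod_cast hpp) (by linarith)
      · exact absurd (h p hp) (not_le.2 hpZ)
    by_cases hs : Real.log (c t) ≤ (Real.log Z) ^ 5
    · have hli := light_small hcop Z hZ η δ hη.le hη1 hδ.le hw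
      have : t ∈ S3 := Finset.mem_filter.2 ⟨ht, hs, hli⟩
      simp [this]
    · have : t ∈ S4 := Finset.mem_filter.2 ⟨ht, not_le.1 hs, hq⟩
      simp [this]
  have hb1 : (S1.card : ℝ) ≤ C1 * (Z : ℝ) ^ (1 - δ + ε / 1000) * (1 + Real.log Λ) := by
    apply h1 Z Λ hZ hΛ
    intro t ht
    rw [hS1, Finset.mem_filter] at ht
    obtain ⟨hcop, hr, hl, -⟩ := hS t ht.1
    exact ⟨hcop, hl, hr, ht.2⟩
  have hb2 : (S2.card : ℝ) ≤ C2 * (Z : ℝ) ^ (1 - δ + ε / 1000) * (1 + Real.log Λ) := by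
    have := h2 ((Z : ℝ) ^ (1 - δ)) Λ (Real.one_le_rpow hZ1 (by linarith)) hΛ S2 (by
      intro t ht
      rw [hS2, Finset.mem_filter] at ht
      obtain ⟨hcop, hr, hl, -⟩ := hS t ht.1
      exact ⟨hcop, hl, ht.2⟩)
    refine this.trans ?_
    apply mul_le_mul_of_nonneg_right _ hlΛ
    apply mul_le_mul_of_nonneg_left _ (by linarith)
    rw [← Real.rpow_mul hZ0.le]
    apply Real.rpow_le_rpow_of_exponent_le hZ1
    nlinarith [mul_pos hδ hε]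
  have hb3 : (S3.card : ℝ) ≤ C3 * (Z : ℝ) ^ (1 - 29 / 100 * ε) := by
    have := h3 Z ((Z : ℝ) ^ (7 * δ)) hZ (Real.one_le_rpow hZ1 (by positivity)) S3 (by
      intro t ht
      rw [hS3, Finset.mem_filter] at ht
      obtain ⟨hcop, hr, hl, -⟩ := hS t ht.1
      exact ⟨hcop, hr, ht.2.1, ht.2.2⟩)
    refine this.trans ?_
    rw [mul_assoc]
    apply mul_le_mul_of_nonneg_left _ (by linarith)
    have e1 : ((Z : ℝ) ^ (7 * δ)) ^ 13 = (Z : ℝ) ^ (91 * δ) := by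
      rw [← Real.rpow_natCast, ← Real.rpow_mul hZ0.le]
      congr 1
      push_cast
      ring
    rw [e1, ← Real.rpow_add hZ0]
    apply Real.rpow_le_rpow_of_exponent_le hZ1
    linarith
  have hb4 : (S4.card : ℝ) ≤ C4 * (Z : ℝ) ^ (1 - 29 / 100 * ε) := by
    apply h4 Z hZ
    intro t ht
    rw [hS4, Finset.mem_filter] at ht
    obtain ⟨hcop, hr, hl, -⟩ := hS t ht.1
    exact ⟨hcop, hr, ht.2.1, ht.2.2⟩
  have hcard : (S.card : ℝ) ≤ S1.card + S2.card + S3.card + S4.card := by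
    have e1 := Finset.card_le_card hcover
    have e2 := Finset.card_union_le (S1 ∪ S2 ∪ S3) S4
    have e3 := Finset.card_union_le (S1 ∪ S2) S3
    have e4 := Finset.card_union_le S1 S2
    exact_mod_cast (by omega : S.card ≤ S1.card + S2.card + S3.card + S4.card)
  set X1 : ℝ := (Z : ℝ) ^ (1 - δ + ε / 1000) * (1 + Real.log Λ) with hX1
  set X2 : ℝ := (Z : ℝ) ^ (1 - 29 / 100 * ε) with hX2
  have hX1' : 0 ≤ X1 := mul_nonneg (by positivity) hlΛ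
  have hX2' : 0 ≤ X2 := by positivity
  have hb1' : (S1.card : ℝ) ≤ C1 * X1 := by rw [hX1, ← mul_assoc]; exact hb1
  have hb2' : (S2.card : ℝ) ≤ C2 * X1 := by rw [hX1, ← mul_assoc]; exact hb2
  nlinarith [mul_nonneg (by linarith : (0 : ℝ) ≤ C1) hX2', mul_nonneg (by linarith : (0 : ℝ) ≤ C2) hX2',
    mul_nonneg (by linarith : (0 : ℝ) ≤ C3) hX1', mul_nonneg (by linarith : (0 : ℝ) ≤ C4) hX1']

end Pool.Agent.Helper42.RO
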