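import Mathlib
import Pool.Agent.Helper42.RO.Main

set_option autoImplicit false

open Finset

namespace Pool.Agent.Helper42.RO

/-- A set of pairs with bounded `c` is finite. -/
lemma finite_of_log_le (Λ : ℝ) (S : Set (ℕ × ℕ)) (hS : ∀ t ∈ S, Cop t ∧ Real.log (c t) ≤ Λ) :
    S.Finite := by
  apply Set.Finite.subset (s := ((Finset.range (⌊Real.exp Λ⌋₊ + 1) ×ˢ
    Finset.range (⌊Real.exp Λ⌋₊ + 1) : Finset (ℕ × ℕ)) : Set (ℕ × ℕ))) (Finset.finite_toSet _)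
  intro t ht
  obtain ⟨hc, hl⟩ := hS t ht
  have h1 : c t ≤ Real.exp Λ := by
    rw [← Real.log_le_iff_le_exp hc.c_pos]
    exact hl
  have h2 : t.1 + t.2 ≤ ⌊Real.exp Λ⌋₊ := Nat.le_floor h1
  rw [Finset.mem_coe, Finset.mem_product, Finset.mem_range, Finset.mem_range]
  exact ⟨by omega, by omega⟩

/-- First part: `log c ≤ Z ^ (1 / 3 - ε)` or `log c ≤ p ^ (1 - ε)` for some prime `p ∣ abc`. -/
theorem first (ε : ℝ) (hε : 0 < ε) (hε1 : ε ≤ 1 / 100) : ∃ C : ℝ, ∀ Z : ℕ, 1 ≤ Z →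
    ∀ S : Set (ℕ × ℕ), (∀ t ∈ S, Cop t ∧ rad (T t) ≤ Z ∧
      (Real.log (c t) ≤ (Z : ℝ) ^ (1 / 3 - ε) ∨
        ∃ p ∈ (T t).primeFactors, Real.log (c t) ≤ (p : ℝ) ^ (1 - ε))) →
    S.Finite ∧ (S.ncard : ℝ) ≤ C * (Z : ℝ) ^ (1 - ε / 4) := by
  obtain ⟨C1, hC1, h1⟩ := main_count (ε / 10) (3 / 10 * ε) ε (by positivity) (by linarith)
    (by positivity) (by linarith) hε hε1 (by linarith)
  obtain ⟨C2, hC2, h2⟩ := one_add_log_le (ε / 1000) (by positivity)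
  refine ⟨C1 * (C2 + 1), fun Z hZ S hS => ?_⟩
  have hZ1 : (1 : ℝ) ≤ Z := by exact_mod_cast hZ
  have hZ0 : (0 : ℝ) < Z := by linarith
  have hlog : ∀ t ∈ S, Real.log (c t) ≤ Z := by
    intro t ht
    obtain ⟨hc, hr, h | ⟨p, hp, h⟩⟩ := hS t ht
    · calc Real.log (c t) ≤ (Z : ℝ) ^ (1 / 3 - ε) := h
        _ ≤ (Z : ℝ) ^ (1 : ℝ) := Real.rpow_le_rpow_of_exponent_le hZ1 (by linarith)
        _ = Z := Real.rpow_one _
    · have hp1 : (1 : ℝ) ≤ p := by exact_mod_cast (Nat.prime_of_mem_primeFactors hp).one_le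
      calc Real.log (c t) ≤ (p : ℝ) ^ (1 - ε) := h
        _ ≤ (p : ℝ) ^ (1 : ℝ) := Real.rpow_le_rpow_of_exponent_le hp1 (by linarith)
        _ = p := Real.rpow_one _
        _ ≤ Z := by exact_mod_cast (le_rad hp).trans hr
  have hfin : S.Finite := finite_of_log_le Z S fun t ht => ⟨(hS t ht).1, hlog t ht⟩
  refine ⟨hfin, ?_⟩
  rw [Set.ncard_eq_toFinset_card S hfin]
  have hb := h1 Z (Z : ℝ) hZ hZ1 hfin.toFinset (by
    intro t ht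
    rw [Set.Finite.mem_toFinset] at ht
    obtain ⟨hc, hr, h⟩ := hS t ht
    refine ⟨hc, hr, hlog t ht, ?_⟩
    rcases h with h | h
    · exact Or.inr (Or.inl h)
    · exact Or.inr (Or.inr (Or.inl h)))
  refine hb.trans ?_
  rw [mul_assoc]
  apply mul_le_mul_of_nonneg_left _ (by linarith)
  rw [add_mul, one_mul]
  apply add_le_add
  · calc (Z : ℝ) ^ (1 - 3 / 10 * ε + ε / 1000) * (1 + Real.log Z)
        ≤ (Z : ℝ) ^ (1 - 3 / 10 * ε + ε / 1000) * (C2 * (Z : ℝ) ^ (ε / 1000)) :=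
          mul_le_mul_of_nonneg_left (h2 Z hZ) (by positivity)
      _ = C2 * ((Z : ℝ) ^ (1 - 3 / 10 * ε + ε / 1000) * (Z : ℝ) ^ (ε / 1000)) := by ring
      _ ≤ C2 * (Z : ℝ) ^ (1 - ε / 4) := by
          apply mul_le_mul_of_nonneg_left _ (by linarith)
          rw [← Real.rpow_add hZ0]
          apply Real.rpow_le_rpow_of_exponent_le hZ1
          linarith
  · apply Real.rpow_le_rpow_of_exponent_le hZ1
    linarith

/-- Structure of all but `O(Z ^ (1 - ε / 10))` pairs. -/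
theorem second2 (ε : ℝ) (hε : 0 < ε) (hε1 : ε ≤ 1 / 100) : ∃ C : ℝ, ∀ Z : ℕ, 1 ≤ Z →
    ∀ S : Set (ℕ × ℕ), (∀ t ∈ S, Cop t ∧ rad (T t) ≤ Z ∧
      Real.log (c t) ≤ Real.exp ((Z : ℝ) ^ (ε / 50)) ∧
      ¬ ((Z : ℝ) ^ (1 / 3 - ε) < Real.log (c t) ∧
        (∀ p ∈ (T t).primeFactors, (p : ℝ) ^ (1 - ε) < Real.log (c t)) ∧
        (∃ p ∈ (T t).primeFactors, (Z : ℝ) ^ (1 / 3 - ε) < p) ∧
        (light ε t : ℝ) ≤ (Z : ℝ) ^ ε)) →
    S.Finite ∧ (S.ncard : ℝ) ≤ C * (Z : ℝ) ^ (1 - ε / 10) := by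
  obtain ⟨C1, hC1, h1⟩ := main_count ε (ε / 8) ε hε (by linarith)
    (by positivity) (by linarith) hε hε1 (by linarith)
  refine ⟨C1 * 3, fun Z hZ S hS => ?_⟩
  have hZ1 : (1 : ℝ) ≤ Z := by exact_mod_cast hZ
  have hZ0 : (0 : ℝ) < Z := by linarith
  have hfin : S.Finite := finite_of_log_le (Real.exp ((Z : ℝ) ^ (ε / 50))) S
    fun t ht => ⟨(hS t ht).1, (hS t ht).2.2.1⟩
  refine ⟨hfin, ?_⟩
  rw [Set.ncard_eq_toFinset_card S hfin]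
  have hΛ : 1 ≤ Real.exp ((Z : ℝ) ^ (ε / 50)) := by
    rw [← Real.exp_zero]
    exact Real.exp_le_exp.2 (by positivity)
  have hb := h1 Z (Real.exp ((Z : ℝ) ^ (ε / 50))) hZ hΛ hfin.toFinset (by
    intro t ht
    rw [Set.Finite.mem_toFinset] at ht
    obtain ⟨hc, hr, hl, hn⟩ := hS t ht
    refine ⟨hc, hr, hl, ?_⟩
    by_cases h3 : Real.log (c t) ≤ (Z : ℝ) ^ (1 / 3 - ε)
    · exact Or.inr (Or.inl h3)
    by_cases ha : ∃ p ∈ (T t).primeFactors, Real.log (c t) ≤ (p : ℝ) ^ (1 - ε)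
    · exact Or.inr (Or.inr (Or.inl ha))
    by_cases hb : ∀ p ∈ (T t).primeFactors, (p : ℝ) ≤ (Z : ℝ) ^ (1 / 3 - ε / 2)
    · exact Or.inr (Or.inr (Or.inr hb))
    left
    by_contra hno
    apply hn
    refine ⟨not_le.1 h3, ?_, ?_, ?_⟩
    · intro p hp
      by_contra hlt
      exact ha ⟨p, hp, not_lt.1 hlt⟩
    · by_contra hcon
      apply hb
      intro p hp
      by_contra hlt
      apply hcon
      refine ⟨p, hp, lt_of_le_of_lt ?_ (not_le.1 hlt)⟩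
      exact Real.rpow_le_rpow_of_exponent_le hZ1 (by linarith)
    · refine (light_small hc Z hZ ε (ε / 8) hε.le (by linarith) (by positivity) hno).trans ?_
      exact Real.rpow_le_rpow_of_exponent_le hZ1 (by linarith))
  refine hb.trans ?_
  rw [Real.log_exp, mul_assoc]
  apply mul_le_mul_of_nonneg_left _ (by linarith)
  have e0 : (1 : ℝ) ≤ (Z : ℝ) ^ (ε / 50) := Real.one_le_rpow hZ1 (by positivity)
  have e1 : (Z : ℝ) ^ (1 - ε / 8 + ε / 1000) * (1 + (Z : ℝ) ^ (ε / 50)) ≤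
      2 * (Z : ℝ) ^ (1 - ε / 10) := by
    calc (Z : ℝ) ^ (1 - ε / 8 + ε / 1000) * (1 + (Z : ℝ) ^ (ε / 50))
        ≤ (Z : ℝ) ^ (1 - ε / 8 + ε / 1000) * (2 * (Z : ℝ) ^ (ε / 50)) :=
          mul_le_mul_of_nonneg_left (by linarith) (by positivity)
      _ = 2 * ((Z : ℝ) ^ (1 - ε / 8 + ε / 1000) * (Z : ℝ) ^ (ε / 50)) := by ring
      _ ≤ 2 * (Z : ℝ) ^ (1 - ε / 10) := by
          apply mul_le_mul_of_nonneg_left _ (by norm_num)
          rw [← Real.rpow_add hZ0]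
          apply Real.rpow_le_rpow_of_exponent_le hZ1
          linarith
  have e2 : (Z : ℝ) ^ (1 - 29 / 100 * ε) ≤ (Z : ℝ) ^ (1 - ε / 10) := by
    apply Real.rpow_le_rpow_of_exponent_le hZ1
    linarith
  linarith

/-- A weaker form of `second2`. -/
theorem second (ε : ℝ) (hε : 0 < ε) (hε1 : ε ≤ 1 / 100) : ∃ C : ℝ, ∀ Z : ℕ, 1 ≤ Z →
    ∀ S : Set (ℕ × ℕ), (∀ t ∈ S, Cop t ∧ rad (T t) ≤ Z ∧
      Real.log (c t) ≤ Real.exp ((Z : ℝ) ^ (ε / 50)) ∧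
      ¬ ((∀ p ∈ (T t).primeFactors, (p : ℝ) ^ (1 - ε) < Real.log (c t)) ∧
        (∃ p ∈ (T t).primeFactors, (Z : ℝ) ^ (1 / 3 - ε) < p) ∧
        (light ε t : ℝ) ≤ (Z : ℝ) ^ ε)) →
    S.Finite ∧ (S.ncard : ℝ) ≤ C * (Z : ℝ) ^ (1 - ε / 10) := by
  obtain ⟨C, hC⟩ := second2 ε hε hε1
  refine ⟨C, fun Z hZ S hS => hC Z hZ S fun t ht => ?_⟩
  obtain ⟨h1, h2, h3, h4⟩ := hS t ht
  exact ⟨h1, h2, h3, fun h => h4 h.2⟩

end Pool.Agent.Helper42.RO
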