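import Mathlib
import Pool.Agent.Helper42.RO.D1
import Pool.Agent.Helper42.RO.D2_a
import Pool.Agent.Helper42.RO.Final

set_option autoImplicit false

open Finset

namespace Pool.Agent.Helper42.RO

/-- RO-D4. Numbers with at most three prime factors between `Z ^ ε` and `Z ^ (1 / 4)` are rare.
PROOF. Choose `B ≥ 6` with `12 / B ≤ δ`; `ε0` from `mertens_gap`. With `P` the set of primes in
`(Z ^ ε, Z ^ (1 / 4)]`, `μ ≥ B`, `|P| ≤ Z ^ (1 / 4) ≤ Z`: by `turan`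
`#{N : f N ≤ 3} (μ - 3) ^ 2 ≤ 3 Z μ` and `(μ - 3) ^ 2 ≥ μ ^ 2 / 4`. -/
theorem few_large_primes (δ : ℝ) (hδ : 0 < δ) : ∃ ε0 : ℝ, 0 < ε0 ∧ ∀ ε : ℝ, 0 < ε → ε ≤ ε0 →
    ∃ Z0 : ℕ, ∀ Z : ℕ, Z0 ≤ Z →
      (((Icc 1 Z).filter (fun N => (N.primeFactors.filter (fun p : ℕ =>
        (Z : ℝ) ^ ε < p ∧ (p : ℝ) ≤ (Z : ℝ) ^ (1 / 4 : ℝ))).card ≤ 3)).card : ℝ) ≤ δ * Z := by
  exact few_large_primes_p δ hδ

end Pool.Agent.Helper42.RO
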