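import Mathlib
import Pool.Agent.Helper42.RO.D2

/-!
# RO-D5: almost no integer is the radical of an abc triple with bounded size
-/

set_option autoImplicit false

open Finset

namespace Pool.Agent.Helper42.RO

private theorem D2b_ev1 (A κ : ℝ) (hA : 0 ≤ A) (hκ : 0 < κ) :
    ∀ᶠ x : ℝ in Filter.atTop, x ^ A ≤ Real.exp (x ^ κ) := by
  have h := (isLittleO_log_rpow_atTop hκ).bound (show (0 : ℝ) < 1 / (A + 1) by positivity)
  filter_upwards [h, Filter.eventually_ge_atTop (1 : ℝ)] with x hx hx1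
  have hx0 : (0 : ℝ) < x := by linarith
  have hl : 0 ≤ Real.log x := Real.log_nonneg hx1
  have hp : 0 ≤ x ^ κ := by positivity
  rw [Real.norm_of_nonneg hl, Real.norm_of_nonneg hp] at hx
  rw [Real.rpow_def_of_pos hx0]
  apply Real.exp_le_exp.2
  have h1 : Real.log x * (A + 1) ≤ x ^ κ := by
    have h2 := mul_le_mul_of_nonneg_right hx (show (0 : ℝ) ≤ A + 1 by positivity)
    have h3 : 1 / (A + 1) * x ^ κ * (A + 1) = x ^ κ := by
      field_simp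
    rwa [h3] at h2
  nlinarith

private theorem D2b_ev2 (C δ κ : ℝ) (hδ : 0 < δ) (hκ : 0 < κ) :
    ∀ᶠ x : ℝ in Filter.atTop, C * x ^ (1 - κ) ≤ δ * x := by
  filter_upwards [(tendsto_rpow_atTop hκ).eventually_ge_atTop (C / δ),
    Filter.eventually_ge_atTop (1 : ℝ)] with x hx hx1
  have hx0 : (0 : ℝ) < x := by linarith
  have h1 : C ≤ δ * x ^ κ := by
    rw [div_le_iff₀ hδ] at hx
    linarith
  calc C * x ^ (1 - κ) ≤ δ * x ^ κ * x ^ (1 - κ) :=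
        mul_le_mul_of_nonneg_right h1 (by positivity)
    _ = δ * x := by
        rw [mul_assoc, ← Real.rpow_add hx0]
        norm_num

/-- Heavy primes. -/
private theorem D2b_heavy {t : ℕ × ℕ} {ε Y : ℝ} (hl : (light ε t : ℝ) ≤ Y) {p : ℕ}
    (hp : p ∈ (T t).primeFactors) (hY : Y < p) :
    ¬ ((p ^ (T t).factorization p : ℕ) : ℝ) ≤ (c t) ^ (1 - ε) := by
  intro h
  have h1 : p ∣ light ε t :=
    Finset.dvd_prod_of_mem (fun p => p) (Finset.mem_filter.2 ⟨hp, h⟩)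
  have h2 : 0 < light ε t := Finset.prod_pos fun q hq =>
    (Nat.prime_of_mem_primeFactors (Finset.mem_filter.1 hq).1).pos
  have h3 : (p : ℝ) ≤ light ε t := by exact_mod_cast Nat.le_of_dvd h2 h1
  linarith

theorem third (A δ : ℝ) (hδ : 0 < δ) : ∃ Z0 : ℕ, ∀ Z : ℕ, Z0 ≤ Z →
    (({N : ℕ | N ≤ Z ∧ ∃ t : ℕ × ℕ, Cop t ∧ rad (T t) = N ∧
      Real.log (c t) ≤ (N : ℝ) ^ A}.ncard : ℕ) : ℝ) ≤ δ * Z := by
  obtain ⟨ε0, hε0, hfew⟩ := few_large_primes (δ / 2) (by positivity)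
  set ε : ℝ := min (1 / 100) ε0 with hεdef
  have hε : 0 < ε := lt_min (by norm_num) hε0
  have hε1 : ε ≤ 1 / 100 := min_le_left _ _
  obtain ⟨Z1, hZ1⟩ := hfew ε hε (min_le_right _ _)
  obtain ⟨C, hC⟩ := second ε hε hε1
  have hev := tendsto_natCast_atTop_atTop.eventually
    ((D2b_ev1 (max A 0) (ε / 50) (le_max_right _ _) (by positivity)).and
      (D2b_ev2 C (δ / 2) (ε / 10) (by positivity) (by positivity)))
  obtain ⟨Z2, hZ2⟩ := Filter.eventually_atTop.1 hev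
  refine ⟨max 1 (max Z1 Z2), fun Z hZ => ?_⟩
  have hZ1' : 1 ≤ Z := (le_max_left _ _).trans hZ
  have hZa : Z1 ≤ Z := ((le_max_left _ _).trans (le_max_right _ _)).trans hZ
  have hZb : Z2 ≤ Z := ((le_max_right _ _).trans (le_max_right _ _)).trans hZ
  obtain ⟨h1, h2⟩ := hZ2 Z hZb
  have hF := hZ1 Z hZa
  set F : Finset ℕ := (Icc 1 Z).filter (fun N => (N.primeFactors.filter (fun p : ℕ =>
        (Z : ℝ) ^ ε < p ∧ (p : ℝ) ≤ (Z : ℝ) ^ (1 / 4 : ℝ))).card ≤ 3) with hFdef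
  set S : Set (ℕ × ℕ) := {t | Cop t ∧ rad (T t) ≤ Z ∧
      Real.log (c t) ≤ Real.exp ((Z : ℝ) ^ (ε / 50)) ∧
      ¬ ((∀ p ∈ (T t).primeFactors, (p : ℝ) ^ (1 - ε) < Real.log (c t)) ∧
        (∃ p ∈ (T t).primeFactors, (Z : ℝ) ^ (1 / 3 - ε) < p) ∧
        (light ε t : ℝ) ≤ (Z : ℝ) ^ ε)} with hSdef
  obtain ⟨hfin, hcard⟩ := hC Z hZ1' S fun t ht => ht
  have hsub : {N : ℕ | N ≤ Z ∧ ∃ t : ℕ × ℕ, Cop t ∧ rad (T t) = N ∧
      Real.log (c t) ≤ (N : ℝ) ^ A} ⊆ (fun t => rad (T t)) '' S ∪ (F : Set ℕ) := by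
    rintro N ⟨hN, t, ht, hr, hl⟩
    have hN1 : 1 ≤ N := hr ▸ rad_pos (T t)
    have hN1' : (1 : ℝ) ≤ N := by exact_mod_cast hN1
    have hNZ' : (N : ℝ) ≤ Z := by exact_mod_cast hN
    have hl' : Real.log (c t) ≤ Real.exp ((Z : ℝ) ^ (ε / 50)) := by
      refine (hl.trans ?_).trans h1
      calc (N : ℝ) ^ A ≤ (N : ℝ) ^ (max A 0) :=
            Real.rpow_le_rpow_of_exponent_le hN1' (le_max_left _ _)
        _ ≤ (Z : ℝ) ^ (max A 0) := Real.rpow_le_rpow (by linarith) hNZ' (le_max_right _ _)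
    by_cases htS : t ∈ S
    · exact Or.inl ⟨t, htS, hr⟩
    · right
      have hall : (∀ p ∈ (T t).primeFactors, (p : ℝ) ^ (1 - ε) < Real.log (c t)) ∧
        (∃ p ∈ (T t).primeFactors, (Z : ℝ) ^ (1 / 3 - ε) < p) ∧
        (light ε t : ℝ) ≤ (Z : ℝ) ^ ε := by
        by_contra hno
        exact htS ⟨ht, hr ▸ hN, hl', hno⟩
      rw [Finset.mem_coe, hFdef, Finset.mem_filter]
      refine ⟨Finset.mem_Icc.2 ⟨hN1, hN⟩, ?_⟩
      have hNp : N.primeFactors = (T t).primeFactors := by rw [← hr, rad_primeFactors]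
      rw [hNp]
      refine le_trans (Finset.card_le_card ?_) (heavy_card ht ε hε.le (by linarith))
      intro p hp
      rw [Finset.mem_filter] at hp ⊢
      exact ⟨hp.1, D2b_heavy hall.2.2 hp.1 hp.2.1⟩
  have hfinU : ((fun t => rad (T t)) '' S ∪ (F : Set ℕ)).Finite :=
    (hfin.image _).union F.finite_toSet
  have h3 : ({N : ℕ | N ≤ Z ∧ ∃ t : ℕ × ℕ, Cop t ∧ rad (T t) = N ∧
      Real.log (c t) ≤ (N : ℝ) ^ A}.ncard : ℕ) ≤ S.ncard + F.card := by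
    refine (Set.ncard_le_ncard hsub hfinU).trans ((Set.ncard_union_le _ _).trans ?_)
    rw [Set.ncard_coe_finset]
    exact Nat.add_le_add_right (Set.ncard_image_le hfin) _
  have h4 : (({N : ℕ | N ≤ Z ∧ ∃ t : ℕ × ℕ, Cop t ∧ rad (T t) = N ∧
      Real.log (c t) ≤ (N : ℝ) ^ A}.ncard : ℕ) : ℝ) ≤ S.ncard + F.card := by exact_mod_cast h3
  linarith

end Pool.Agent.Helper42.RO
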