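import Pool.Agent.Helper42.RO.Defs

set_option autoImplicit false

open Finset

namespace Pool.Agent.Helper42.RO

/-- RO-K3a. Disjoint groups: if every subset `G ⊆ Q` with `n` elements contains a good pair
`(I, J)` of disjoint subsets, not both empty, and `n * r ≤ |Q|`, then there are `r` good pairs with
pairwise disjoint unions. PROOF: induction on `r` (remove `n` elements). -/
theorem disjoint_groups_p {ι : Type*} [DecidableEq ι] (n : ℕ) (P : Finset ι → Finset ι → Prop)
    (r : ℕ) : ∀ (Q : Finset ι), n * r ≤ Q.card →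
    (∀ G ⊆ Q, G.card = n → ∃ I J : Finset ι, I ⊆ G ∧ J ⊆ G ∧ Disjoint I J ∧ (I ∪ J).Nonempty ∧
      P I J) →
    ∃ I J : Fin r → Finset ι, (∀ k, I k ⊆ Q ∧ J k ⊆ Q ∧ Disjoint (I k) (J k) ∧
      (I k ∪ J k).Nonempty ∧ P (I k) (J k)) ∧
      ∀ k l, k ≠ l → Disjoint (I k ∪ J k) (I l ∪ J l) := by
  induction r with
  | zero =>
    intro Q _ _
    exact ⟨fun _ => ∅, fun _ => ∅, fun k => k.elim0, fun k => k.elim0⟩
  | succ r ih =>
    intro Q hQ hG
    have hn : n ≤ Q.card := le_trans (Nat.le_mul_of_pos_right n (Nat.succ_pos r)) hQ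
    obtain ⟨G, hGQ, hGc⟩ := exists_subset_card_eq hn
    obtain ⟨I0, J0, hI0, hJ0, hd0, hne0, hP0⟩ := hG G hGQ hGc
    have hcard : n * r ≤ (Q \ G).card := by
      rw [card_sdiff_of_subset hGQ, hGc]
      rw [Nat.mul_succ] at hQ
      omega
    obtain ⟨I, J, h1, h2⟩ := ih (Q \ G) hcard
      (fun G' hG' hc => hG G' (hG'.trans sdiff_subset) hc)
    have hsub : ∀ k, I k ∪ J k ⊆ Q \ G := fun k => union_subset (h1 k).1 (h1 k).2.1
    have hdis : ∀ k, Disjoint (I0 ∪ J0) (I k ∪ J k) := by
      intro k
      have h3 : Disjoint G (Q \ G) := disjoint_sdiff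
      exact disjoint_of_subset_left (union_subset hI0 hJ0) (disjoint_of_subset_right (hsub k) h3)
    refine ⟨Fin.cons I0 I, Fin.cons J0 J, ?_, ?_⟩
    · intro k
      refine Fin.cases ?_ (fun k => ?_) k
      · simp only [Fin.cons_zero]
        exact ⟨hI0.trans hGQ, hJ0.trans hGQ, hd0, hne0, hP0⟩
      · simp only [Fin.cons_succ]
        exact ⟨(h1 k).1.trans sdiff_subset, (h1 k).2.1.trans sdiff_subset, (h1 k).2.2⟩
    · intro k l
      refine Fin.cases ?_ (fun k => ?_) k
      · refine Fin.cases ?_ (fun l => ?_) l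
        · intro h
          exact absurd rfl h
        · intro _
          simp only [Fin.cons_zero, Fin.cons_succ]
          exact hdis l
      · refine Fin.cases ?_ (fun l => ?_) l
        · intro _
          simp only [Fin.cons_zero, Fin.cons_succ]
          exact (hdis k).symm
        · intro h
          simp only [Fin.cons_succ]
          exact h2 k l fun he => h (by rw [he])

/-- RO-K3b. Distinctness: for disjoint groups of primes the fractions `∏ I / ∏ J` are different.
PROOF. Both sides of `(∏ I) (∏ J') = (∏ I') (∏ J)` are products of distinct primes, so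
`I ∪ J' = I' ∪ J` (unique factorisation: `Nat.primeFactors_prod`); `I` is disjoint from `I'` and
from `J`, so `I = ∅`; `J` is disjoint from `I` and from `J'`, so `J = ∅`. -/
theorem fraction_ne_p {I J I' J' : Finset ℕ} (hI : ∀ q ∈ I ∪ J ∪ (I' ∪ J'), q.Prime)
    (h1 : Disjoint I J) (h2 : Disjoint (I ∪ J) (I' ∪ J')) (hne : (I ∪ J).Nonempty)
    (h : (∏ q ∈ I, q) * ∏ q ∈ J', q = (∏ q ∈ I', q) * ∏ q ∈ J, q) : False := by
  have hIJ' : Disjoint I J' :=
    disjoint_of_subset_left subset_union_left (disjoint_of_subset_right subset_union_right h2)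
  have hI'J : Disjoint I' J :=
    (disjoint_of_subset_left subset_union_right
      (disjoint_of_subset_right subset_union_left h2)).symm
  rw [← prod_union hIJ', ← prod_union hI'J] at h
  have p1 : ∀ q ∈ I ∪ J', q.Prime := by
    intro q hq
    apply hI
    rcases mem_union.1 hq with h3 | h3
    · exact mem_union_left _ (mem_union_left _ h3)
    · exact mem_union_right _ (mem_union_right _ h3)
  have p2 : ∀ q ∈ I' ∪ J, q.Prime := by
    intro q hq
    apply hI
    rcases mem_union.1 hq with h3 | h3
    · exact mem_union_right _ (mem_union_left _ h3)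
    · exact mem_union_left _ (mem_union_right _ h3)
  have he : I ∪ J' = I' ∪ J := by
    rw [← primeFactors_prod_id p1, ← primeFactors_prod_id p2, h]
  obtain ⟨q, hq⟩ := hne
  rcases mem_union.1 hq with h3 | h3
  · have h4 : q ∈ I' ∪ J := by
      rw [← he]
      exact mem_union_left _ h3
    rcases mem_union.1 h4 with h5 | h5
    · exact disjoint_left.1 h2 hq (mem_union_left _ h5)
    · exact disjoint_left.1 h1 h3 h5
  · have h4 : q ∈ I ∪ J' := by
      rw [he]
      exact mem_union_right _ h3
    rcases mem_union.1 h4 with h5 | h5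
    · exact disjoint_left.1 h1 h5 h3
    · exact disjoint_left.1 h2 hq (mem_union_right _ h5)

end Pool.Agent.Helper42.RO
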