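import Mathlib
import Pool.Agent.Helper42.RO.K1
import Pool.Agent.Helper42.RO.K2
import Pool.Agent.Helper42.RO.K3_a

set_option autoImplicit false

open Finset

namespace Pool.Agent.Helper42.RO

/-- RO-K3a. Disjoint groups: if every subset `G ⊆ Q` with `n` elements contains a good pair
`(I, J)` of disjoint subsets, not both empty, and `n * r ≤ |Q|`, then there are `r` good pairs with
pairwise disjoint unions. PROOF: induction on `r` (remove `n` elements). -/
theorem disjoint_groups {ι : Type*} [DecidableEq ι] (n : ℕ) (P : Finset ι → Finset ι → Prop)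
    (r : ℕ) : ∀ (Q : Finset ι), n * r ≤ Q.card →
    (∀ G ⊆ Q, G.card = n → ∃ I J : Finset ι, I ⊆ G ∧ J ⊆ G ∧ Disjoint I J ∧ (I ∪ J).Nonempty ∧
      P I J) →
    ∃ I J : Fin r → Finset ι, (∀ k, I k ⊆ Q ∧ J k ⊆ Q ∧ Disjoint (I k) (J k) ∧
      (I k ∪ J k).Nonempty ∧ P (I k) (J k)) ∧
      ∀ k l, k ≠ l → Disjoint (I k ∪ J k) (I l ∪ J l) := by
  exact disjoint_groups_p n P r

/-- RO-K3b. Distinctness: for disjoint groups of primes the fractions `∏ I / ∏ J` are different.
PROOF. Both sides of `(∏ I) (∏ J') = (∏ I') (∏ J)` are products of distinct primes, so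
`I ∪ J' = I' ∪ J` (unique factorisation: `Nat.primeFactors_prod`); `I` is disjoint from `I'` and
from `J`, so `I = ∅`; `J` is disjoint from `I` and from `J'`, so `J = ∅`. -/
theorem fraction_ne {I J I' J' : Finset ℕ} (hI : ∀ q ∈ I ∪ J ∪ (I' ∪ J'), q.Prime)
    (h1 : Disjoint I J) (h2 : Disjoint (I ∪ J) (I' ∪ J')) (hne : (I ∪ J).Nonempty)
    (h : (∏ q ∈ I, q) * ∏ q ∈ J', q = (∏ q ∈ I', q) * ∏ q ∈ J, q) : False := by
  exact fraction_ne_p hI h1 h2 hne h

end Pool.Agent.Helper42.RO
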