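import Mathlib
import Pool.Agent.Helper42.RO.K3

set_option autoImplicit false

open Finset

namespace Pool.Agent.Helper42.RO

/-- the product of a set of small primes is small -/
private lemma K3b_prod_le {A : Finset ℕ} {Y n : ℕ} (hY : 1 ≤ Y) (hA : ∀ q ∈ A, q ≤ Y)
    (hn : A.card ≤ n) : ∏ q ∈ A, q ≤ Y ^ n :=
  (Finset.prod_le_pow_card A (fun q => q) Y hA).trans (Nat.pow_le_pow_right hY hn)

/-- the product of a set of primes different from `p` is prime to `p ^ e` -/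
private lemma K3b_cop {A : Finset ℕ} {p : ℕ} (hp : p.Prime) (e : ℕ)
    (hA : ∀ q ∈ A, q.Prime ∧ q ≠ p) : (∏ q ∈ A, q).Coprime (p ^ e) := by
  apply Nat.Coprime.prod_left
  intro q hq
  exact Nat.Coprime.pow_right _ ((Nat.coprime_primes (hA q hq).1 hp).2 (hA q hq).2)

/-- RO-K3. KEY LEMMA for fixed `p` and fixed exponent `i`. -/
theorem kl_core (p e i n L Y : ℕ) (hp : p.Prime) (he : 1 ≤ e) (hi : 1 ≤ i) (S0 Q : Finset ℕ)
    (hQ : ∀ q ∈ Q, q.Prime ∧ q ≤ Y ∧ q ≠ p)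
    (hn : (2 * n * L + 1) ^ S0.card < 2 ^ n) (hY : Y ^ (2 * n) < p ^ e) (x F : ℕ → ℕ)
    (hx : ∀ q ∈ Q, x q ≠ 0 ∧ F q ≠ 0 ∧ (x q).primeFactors ⊆ S0 ∧ (F q).primeFactors ⊆ S0 ∧
      ¬ p ∣ x q ∧ ¬ p ∣ F q ∧
      ∀ l, (x q).factorization l ≤ L ∧ (F q).factorization l ≤ L)
    (hr : ∀ q ∈ Q, ((x q * q ^ i : ℕ) : ZMod (p ^ e)) = (F q : ZMod (p ^ e)) ∨
      ((x q * q ^ i : ℕ) : ZMod (p ^ e)) = -(F q : ZMod (p ^ e))) :
    Q.card ≤ n * (1 + 2 * Nat.gcd (2 * i) (Nat.totient (p ^ e))) := by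
  classical
  by_contra hcon
  push Not at hcon
  set g := Nat.gcd (2 * i) (Nat.totient (p ^ e)) with hg
  set M := p ^ e with hM
  have hMpos : 0 < M := pow_pos hp.pos e
  have : NeZero M := ⟨hMpos.ne'⟩
  have hQne : Q.Nonempty := by
    rw [← Finset.card_pos]
    omega
  have hY1 : 1 ≤ Y := by
    obtain ⟨q, hq⟩ := hQne
    exact (hQ q hq).1.one_lt.le.trans (hQ q hq).2.1
  have hgroups := disjoint_groups n
    (fun I J : Finset ℕ => (((∏ q ∈ I, q : ℕ) : ZMod M)) ^ (2 * i) =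
      (((∏ q ∈ J, q : ℕ) : ZMod M)) ^ (2 * i) ∧ I.card ≤ n ∧ J.card ≤ n)
    (2 * g + 1) Q (by
      have : n * (1 + 2 * g) = n * (2 * g + 1) := by ring
      omega) (by
      intro G hGQ hGn
      obtain ⟨I, J, hI, hJ, hd, hne, hsum⟩ := box_relation (σ := S0) G
        (fun q l => (((x q).factorization (l : ℕ) : ℤ) - (F q).factorization (l : ℕ))) L (by
          intro q hq s
          have h1 := (hx q (hGQ hq)).2.2.2.2.2.2 (s : ℕ)
          rw [abs_le]
          constructor <;> omega) (by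
          rw [Fintype.card_coe, hGn]
          exact hn)
      have hIJ : ∀ q ∈ I ∪ J, q ∈ Q := by
        intro q hq
        rcases mem_union.1 hq with h | h
        · exact hGQ (hI h)
        · exact hGQ (hJ h)
      refine ⟨I, J, hI, hJ, hd, hne, ?_, ?_, ?_⟩
      · have hprod := prod_eq_of_sum_eq S0 I J x F (fun q hq => by
          have h1 := hx q (hIJ q hq)
          exact ⟨h1.1, h1.2.1, h1.2.2.1, h1.2.2.2.1⟩) (fun l hl => hsum ⟨l, hl⟩)
        refine relation_mod M i I J x F (fun q hq => ?_) (fun q hq => hr q (hIJ q hq)) hprod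
        have h1 := hx q (hIJ q hq)
        exact ⟨(Nat.Coprime.pow_left e ((Nat.Prime.coprime_iff_not_dvd hp).2 h1.2.2.2.2.1)).symm,
          (Nat.Coprime.pow_left e ((Nat.Prime.coprime_iff_not_dvd hp).2 h1.2.2.2.2.2.1)).symm⟩
      · rw [← hGn]; exact card_le_card hI
      · rw [← hGn]; exact card_le_card hJ)
  obtain ⟨I, J, hIJ, hdis⟩ := hgroups
  have hcop : ∀ A : Finset ℕ, A ⊆ Q → (∏ q ∈ A, q).Coprime M := fun A hA =>
    K3b_cop hp e (fun q hq => ⟨(hQ q (hA hq)).1, (hQ q (hA hq)).2.2⟩)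
  let U : Fin (2 * g + 1) → (ZMod M)ˣ := fun k =>
    ZMod.unitOfCoprime _ (hcop (I k) (hIJ k).1)
  let V : Fin (2 * g + 1) → (ZMod M)ˣ := fun k =>
    ZMod.unitOfCoprime _ (hcop (J k) (hIJ k).2.1)
  have hUV : ∀ k, (U k / V k) ^ (2 * i) = 1 := by
    intro k
    rw [div_pow, div_eq_one]
    ext
    push_cast
    simp only [U, V, ZMod.coe_unitOfCoprime]
    exact (hIJ k).2.2.2.2.1
  let f : Fin (2 * g + 1) → {ρ : (ZMod M)ˣ // ρ ^ (2 * i) = 1} := fun k => ⟨U k / V k, hUV k⟩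
  have hinj : Function.Injective f := by
    intro k l hkl
    by_contra hne
    have h1 : U k / V k = U l / V l := congrArg Subtype.val hkl
    rw [div_eq_div_iff_mul_eq_mul] at h1
    have h2 : ((U k * V l : (ZMod M)ˣ) : ZMod M) = ((U l * V k : (ZMod M)ˣ) : ZMod M) := by
      rw [h1]
    rw [Units.val_mul, Units.val_mul] at h2
    simp only [U, V, ZMod.coe_unitOfCoprime] at h2
    rw [← Nat.cast_mul, ← Nat.cast_mul, ZMod.natCast_eq_natCast_iff] at h2
    have hbd : ∀ A B : Finset ℕ, A ⊆ Q → B ⊆ Q → A.card ≤ n → B.card ≤ n →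
        (∏ q ∈ A, q) * ∏ q ∈ B, q < M := by
      intro A B hA hB hAn hBn
      refine lt_of_le_of_lt ?_ hY
      rw [two_mul, pow_add]
      exact Nat.mul_le_mul (K3b_prod_le hY1 (fun q hq => (hQ q (hA hq)).2.1) hAn)
        (K3b_prod_le hY1 (fun q hq => (hQ q (hB hq)).2.1) hBn)
    have h3 := Nat.ModEq.eq_of_lt_of_lt h2
      (hbd _ _ (hIJ k).1 (hIJ l).2.1 (hIJ k).2.2.2.2.2.1 (hIJ l).2.2.2.2.2.2)
      (hbd _ _ (hIJ l).1 (hIJ k).2.1 (hIJ l).2.2.2.2.2.1 (hIJ k).2.2.2.2.2.2)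
    refine fraction_ne ?_ (hIJ k).2.2.1 (hdis k l hne) (hIJ k).2.2.2.1 h3
    intro q hq
    have hqQ : q ∈ Q := by
      rcases mem_union.1 hq with h | h <;> rcases mem_union.1 h with h' | h'
      · exact (hIJ k).1 h'
      · exact (hIJ k).2.1 h'
      · exact (hIJ l).1 h'
      · exact (hIJ l).2.1 h'
    exact (hQ q hqQ).1
  have hcard := Nat.card_le_card_of_injective f hinj
  rw [Nat.card_eq_fintype_card, Fintype.card_fin] at hcard
  have h4 : Nat.card {ρ : (ZMod M)ˣ // ρ ^ (2 * i) = 1} ≤ 2 * g :=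
    card_roots p e (2 * i) hp he (by omega)
  have h5 := hcard.trans h4
  omega

end Pool.Agent.Helper42.RO
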