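import Mathlib
import Pool.Agent.Helper42.RO.Defs

set_option autoImplicit false

open Finset

namespace Pool.Agent.Helper42.RO

/-- The number of primes used in one group. -/
noncomputable def nn (Z : ℕ) : ℕ := ⌈100 * (Real.log Z) ^ 2⌉₊ + 100

end Pool.Agent.Helper42.RO
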