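import Mathlib
import Pool.Agent.Helper42.RO.Defs

/-!
# RO-K4a: the entries seen from a prime of the radical
-/

set_option autoImplicit false

open Finset

namespace Pool.Agent.Helper42.RO

private theorem K4a_split {n q : ℕ} (hn : n ≠ 0) (hq : q.Prime) (h : q ∣ n) :
    ∃ i x : ℕ, 1 ≤ i ∧ x ≠ 0 ∧ ¬ q ∣ x ∧ x * q ^ i = n := by
  obtain ⟨i, x, hx, e⟩ := Nat.exists_eq_pow_mul_and_not_dvd hn q hq.ne_one
  refine ⟨i, x, ?_, ?_, hx, by rw [e]; ring⟩
  · by_contra h0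
    have h1 : i = 0 := by omega
    rw [h1, pow_zero, one_mul] at e
    exact hx (e ▸ h)
  · rintro rfl
    exact hx (dvd_zero q)

theorem data_of_prime {t : ℕ × ℕ} (ht : Cop t) {m q : ℕ} (hq : q.Prime)
    (hrad : rad (T t) = m * q) :
    ∃ E x F i : ℕ, 1 ≤ i ∧ E ≠ 0 ∧ x ≠ 0 ∧ F ≠ 0 ∧ E.primeFactors ⊆ m.primeFactors ∧
      x.primeFactors ⊆ m.primeFactors ∧ F.primeFactors ⊆ m.primeFactors ∧ E.Coprime x ∧
      E.Coprime F ∧ t.1 + t.2 ≤ 2 * E ∧ x * q ^ i ≤ t.1 + t.2 ∧ F ≤ t.1 + t.2 ∧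
      ((E : ℤ) ∣ (x * q ^ i : ℕ) - (F : ℤ) ∨ (E : ℤ) ∣ (x * q ^ i : ℕ) + (F : ℤ)) := by
  have h1 := ht.pos1
  have h2 := ht.pos2
  have hc := ht.cop
  have hc1 := ht.cop1
  have hc2 := ht.cop2
  have hm : m ≠ 0 := by
    rintro rfl
    have := rad_pos (T t)
    rw [hrad] at this
    omega
  have hpf : (T t).primeFactors = (m * q).primeFactors := by rw [← hrad, rad_primeFactors]
  have hsub : ∀ n : ℕ, (n ∣ t.1 ∨ n ∣ t.2 ∨ n ∣ t.1 + t.2) → ¬ q ∣ n →
      n.primeFactors ⊆ m.primeFactors := by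
    intro n hn hqn r hr
    have hrp := Nat.prime_of_mem_primeFactors hr
    have hrn := Nat.dvd_of_mem_primeFactors hr
    have h3 : r ∈ (T t).primeFactors := (mem_primeFactors_T ht hrp).2
      (hn.imp (fun h => hrn.trans h) (Or.imp (fun h => hrn.trans h) (fun h => hrn.trans h)))
    rw [hpf, Nat.mem_primeFactors] at h3
    rcases (Nat.Prime.dvd_mul hrp).1 h3.2.1 with h4 | h4
    · exact Nat.mem_primeFactors.2 ⟨hrp, h4, hm⟩
    · have h5 := (Nat.prime_dvd_prime_iff_eq hrp hq).1 h4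
      exact absurd (h5 ▸ hrn) hqn
  have hqT : q ∈ (T t).primeFactors := by
    rw [hpf, Nat.mem_primeFactors]
    exact ⟨hq, Dvd.intro_left m rfl, Nat.mul_ne_zero hm hq.ne_zero⟩
  have hnot : ∀ {u v : ℕ}, u.Coprime v → q ∣ u → ¬ q ∣ v := by
    intro u v huv hu hv
    have h3 := Nat.dvd_gcd hu hv
    rw [huv.gcd_eq_one] at h3
    exact hq.one_lt.ne' (Nat.dvd_one.1 h3)
  rcases (mem_primeFactors_T ht hq).1 hqT with h | h | h
  · obtain ⟨i, x, hi, hx, hqx, e⟩ := K4a_split (by omega) hq h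
    have hxd : x ∣ t.1 := Dvd.intro _ e
    refine ⟨t.1 + t.2, x, t.2, i, hi, by omega, hx, by omega, hsub _ (Or.inr (Or.inr dvd_rfl))
      (hnot hc1 h), hsub _ (Or.inl hxd) hqx, hsub _ (Or.inr (Or.inl dvd_rfl)) (hnot hc h),
      (hc1.coprime_dvd_left hxd).symm, hc2.symm, by omega, by rw [e]; omega, by omega,
      Or.inr ?_⟩
    rw [e]
    push_cast
    exact dvd_refl _
  · obtain ⟨i, x, hi, hx, hqx, e⟩ := K4a_split (by omega) hq h
    have hxd : x ∣ t.2 := Dvd.intro _ e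
    refine ⟨t.1 + t.2, x, t.1, i, hi, by omega, hx, by omega, hsub _ (Or.inr (Or.inr dvd_rfl))
      (hnot hc2 h), hsub _ (Or.inr (Or.inl hxd)) hqx, hsub _ (Or.inl dvd_rfl) (hnot hc.symm h),
      (hc2.coprime_dvd_left hxd).symm, hc1.symm, by omega, by rw [e]; omega, by omega,
      Or.inr ?_⟩
    rw [e]
    push_cast
    rw [add_comm]
  · obtain ⟨i, x, hi, hx, hqx, e⟩ := K4a_split (by omega) hq h
    have hxd : x ∣ t.1 + t.2 := Dvd.intro _ e
    rcases le_total t.1 t.2 with hle | hle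
    · refine ⟨t.2, x, t.1, i, hi, by omega, hx, by omega, hsub _ (Or.inr (Or.inl dvd_rfl))
        (hnot hc2.symm h), hsub _ (Or.inr (Or.inr hxd)) hqx, hsub _ (Or.inl dvd_rfl)
        (hnot hc1.symm h), hc2.coprime_dvd_right hxd, hc.symm, by omega, by rw [e], by omega,
        Or.inl ?_⟩
      rw [e]
      push_cast
      rw [add_sub_cancel_left]
    · refine ⟨t.1, x, t.2, i, hi, by omega, hx, by omega, hsub _ (Or.inl dvd_rfl)
        (hnot hc1.symm h), hsub _ (Or.inr (Or.inr hxd)) hqx, hsub _ (Or.inr (Or.inl dvd_rfl))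
        (hnot hc2.symm h), hc1.coprime_dvd_right hxd, hc, by omega, by rw [e], by omega,
        Or.inl ?_⟩
      rw [e]
      push_cast
      rw [add_sub_cancel_right]

end Pool.Agent.Helper42.RO
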