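import Mathlib
import Pool.Agent.Helper42.RO.K4

set_option autoImplicit false

open Finset

namespace Pool.Agent.Helper42.RO

/-- RO-K4b. A number with few prime factors has a large prime power factor. -/
theorem exists_big_prime_power {E m : ℕ} (hE : E ≠ 0)
    (hsub : E.primeFactors ⊆ m.primeFactors)
    (hne : m.primeFactors.Nonempty) (B : ℝ) (hB : 0 < B)
    (h : B ^ m.primeFactors.card ≤ E) :
    ∃ p ∈ m.primeFactors, B ≤ ((p ^ E.factorization p : ℕ) : ℝ) := by
  by_contra hcon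
  push Not at hcon
  have _ := hB
  have hprod : ∏ p ∈ m.primeFactors, p ^ E.factorization p = E := by
    conv_rhs => rw [← Nat.prod_factorization_pow_eq_self hE]
    rw [Finsupp.prod_of_support_subset _ hsub]
    intro i _
    exact pow_zero _
  have h1 : (E : ℝ) = ∏ p ∈ m.primeFactors, ((p ^ E.factorization p : ℕ) : ℝ) := by
    rw [← Nat.cast_prod, hprod]
  have h2 : ∏ p ∈ m.primeFactors, ((p ^ E.factorization p : ℕ) : ℝ) <
      ∏ _p ∈ m.primeFactors, B := by
    refine Finset.prod_lt_prod_of_nonempty (fun p hp => ?_) (fun p hp => hcon p hp) hne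
    have hp' := (Nat.prime_of_mem_primeFactors hp).pos
    exact_mod_cast pow_pos hp' _
  rw [Finset.prod_const, ← h1] at h2
  exact absurd h (not_le.2 h2)

/-- RO-K4d. `ω(m) ≤ log Z / log 2` for `1 ≤ m ≤ Z`. -/
theorem omega_le {m Z : ℕ} (hm : 1 ≤ m) (hmZ : m ≤ Z) :
    (m.primeFactors.card : ℝ) ≤ Real.log Z / Real.log 2 := by
  have h1 : 2 ^ m.primeFactors.card ≤ ∏ p ∈ m.primeFactors, p := by
    rw [← Finset.prod_const]
    exact Finset.prod_le_prod' fun p hp => (Nat.prime_of_mem_primeFactors hp).two_le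
  have h2 : ∏ p ∈ m.primeFactors, p ≤ m :=
    Nat.le_of_dvd (by omega) (Nat.prod_primeFactors_dvd m)
  have h3 : 2 ^ m.primeFactors.card ≤ Z := h1.trans (h2.trans hmZ)
  have h4 : ((2 : ℝ) ^ m.primeFactors.card) ≤ Z := by exact_mod_cast h3
  rw [le_div_iff₀ (Real.log_pos one_lt_two), ← Real.log_pow]
  exact Real.log_le_log (by positivity) h4

/-- RO-K4c. Numerical facts for large `Z`. -/
theorem numerics : ∃ Z0 : ℕ, ∀ Z : ℕ, Z0 ≤ Z → ∀ s L : ℕ,
    (s : ℝ) ≤ Real.log Z / Real.log 2 → L ≤ 2 * Z + 2 →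
    (2 * nn Z * L + 1) ^ s < 2 ^ nn Z ∧
    (s : ℝ) * ((2 * nn Z + 1 : ℕ) * Real.log Z) + Real.log 2 ≤ (Real.log Z) ^ 5 := by
  refine ⟨⌈Real.exp 302⌉₊, fun Z hZ s L hs hL => ?_⟩
  have hZr : Real.exp 302 ≤ (Z : ℝ) := (Nat.le_ceil _).trans (by exact_mod_cast hZ)
  have hZpos : (0 : ℝ) < Z := (Real.exp_pos _).trans_le hZr
  obtain ⟨n, hn⟩ : ∃ n, n = nn Z := ⟨_, rfl⟩
  rw [← hn]
  obtain ⟨l, hl⟩ : ∃ l, l = Real.log Z := ⟨_, rfl⟩
  rw [← hl] at hs ⊢
  have hl302 : 302 ≤ l := by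
    rw [hl, Real.le_log_iff_exp_le hZpos]
    exact hZr
  have hexp : Real.exp l = Z := by rw [hl, Real.exp_log hZpos]
  have hlog1 : (0.69 : ℝ) < Real.log 2 := by
    have := Real.log_two_gt_d9
    linarith only [this]
  have hlog2 : Real.log 2 < 1 := by
    have := Real.log_two_lt_d9
    linarith only [this]
  have hlog0 : 0 < Real.log 2 := by linarith only [hlog1]
  have hn1 : 100 * l ^ 2 + 100 ≤ (n : ℝ) := by
    rw [hn, nn, ← hl]
    push_cast
    have := Nat.le_ceil (100 * l ^ 2)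
    linarith only [this]
  have hn2 : (n : ℝ) ≤ 100 * l ^ 2 + 101 := by
    rw [hn, nn, ← hl]
    push_cast
    have := Nat.ceil_lt_add_one (a := 100 * l ^ 2) (by positivity)
    linarith only [this]
  have hl2 : 302 * 302 ≤ l ^ 2 := by nlinarith only [hl302]
  have hs0 : (0 : ℝ) ≤ s := Nat.cast_nonneg s
  have hs1 : (s : ℝ) * Real.log 2 ≤ l := (le_div_iff₀ hlog0).1 hs
  have hs2 : (s : ℝ) ≤ 3 / 2 * l := by nlinarith only [hs0, hs1, hlog1]
  constructor
  · -- the first inequality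
    have hnZ : (n : ℝ) ≤ Z := by
      have h4 := Real.pow_div_factorial_le_exp l (by linarith only [hl302]) 4
      rw [hexp] at h4
      have h5 : ((Nat.factorial 4 : ℕ) : ℝ) = 24 := by norm_num [Nat.factorial]
      rw [h5] at h4
      have h6 : l ^ 4 = l ^ 2 * l ^ 2 := by ring
      rw [h6] at h4
      have h7 : 302 * 302 * l ^ 2 ≤ l ^ 2 * l ^ 2 := by nlinarith only [hl2]
      linarith only [h4, h7, hn2, hl2]
    have hZ10 : (10 : ℝ) ≤ Z := by
      have := Real.add_one_le_exp (302 : ℝ)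
      linarith only [this, hZr]
    have hLr : (L : ℝ) ≤ 2 * Z + 2 := by exact_mod_cast hL
    have hL0 : (0 : ℝ) ≤ L := Nat.cast_nonneg L
    have hn0 : (0 : ℝ) ≤ n := Nat.cast_nonneg n
    have hb : 2 * (n : ℝ) * L + 1 ≤ Real.exp (3 * l) := by
      have e3 : Real.exp (3 * l) = (Z : ℝ) ^ 3 := by
        have e : (3 : ℝ) * l = ((3 : ℕ) : ℝ) * l := by norm_num
        rw [e, Real.exp_nat_mul, hexp]
      rw [e3]
      have h8 : (n : ℝ) * L ≤ Z * (2 * Z + 2) := mul_le_mul hnZ hLr hL0 hZpos.le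
      have h9 : (10 : ℝ) * Z ^ 2 ≤ Z ^ 3 := by
        have : (0 : ℝ) ≤ Z ^ 2 * (Z - 10) := mul_nonneg (by positivity) (by linarith only [hZ10])
        linarith only [this, show (Z : ℝ) ^ 2 * (Z - 10) = Z ^ 3 - 10 * Z ^ 2 by ring]
      have h10 : (10 : ℝ) * Z ≤ Z ^ 2 := by nlinarith only [hZ10]
      nlinarith only [h8, h9, h10, hZ10]
    have hpow : ((2 * (n : ℝ) * L + 1) ^ s) < (2 : ℝ) ^ n := by
      have h11 : (2 * (n : ℝ) * L + 1) ^ s ≤ Real.exp (3 * l) ^ s :=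
        pow_le_pow_left₀ (by positivity) hb s
      have h12 : Real.exp (3 * l) ^ s = Real.exp ((s : ℝ) * (3 * l)) := by
        rw [Real.exp_nat_mul]
      have h13 : (2 : ℝ) ^ n = Real.exp ((n : ℝ) * Real.log 2) := by
        rw [Real.exp_nat_mul, Real.exp_log two_pos]
      rw [h13]
      refine h11.trans_lt ?_
      rw [h12, Real.exp_lt_exp]
      have h14 : (s : ℝ) * (3 * l) ≤ 3 / 2 * l * (3 * l) :=
        mul_le_mul_of_nonneg_right hs2 (by linarith only [hl302])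
      have h15 : (100 * l ^ 2 + 100) * 0.69 ≤ (n : ℝ) * Real.log 2 :=
        mul_le_mul hn1 hlog1.le (by norm_num) hn0
      nlinarith only [h14, h15, hl2]
    have hc : (((2 * n * L + 1) ^ s : ℕ) : ℝ) < ((2 ^ n : ℕ) : ℝ) := by
      push_cast
      exact hpow
    exact_mod_cast hc
  · -- the second inequality
    push_cast
    have hl0 : 0 ≤ l := by linarith only [hl302]
    have h1 : (2 * (n : ℝ) + 1) * l ≤ (200 * l ^ 2 + 203) * l :=
      mul_le_mul_of_nonneg_right (by linarith only [hn2]) hl0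
    have h2 : (s : ℝ) * ((2 * (n : ℝ) + 1) * l) ≤ 3 / 2 * l * ((200 * l ^ 2 + 203) * l) :=
      mul_le_mul hs2 h1 (by positivity) (by positivity)
    have h3 : 3 / 2 * l * ((200 * l ^ 2 + 203) * l) = 300 * l ^ 4 + 609 / 2 * l ^ 2 := by ring
    have h4 : 302 * 302 * l ^ 2 ≤ l ^ 4 := by
      have e : l ^ 4 = l ^ 2 * l ^ 2 := by ring
      rw [e]
      nlinarith only [hl2]
    have h5 : 302 * l ^ 4 ≤ l ^ 5 := by
      have e : l ^ 5 = l * l ^ 4 := by ring
      rw [e]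
      exact mul_le_mul_of_nonneg_right hl302 (by positivity)
    nlinarith only [h2, h3, h4, h5, hlog2, hl2]

end Pool.Agent.Helper42.RO
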