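import Mathlib
import Pool.Agent.Helper42.RO.K3_b
import Pool.Agent.Helper42.RO.K4_a
import Pool.Agent.Helper42.RO.K4_b

set_option autoImplicit false

open Finset

namespace Pool.Agent.Helper42.RO

/-- The exponent of the modulus: `M = p ^ ee p Z` is the least power of `p` above `Z ^ (2 n)`. -/
noncomputable def ee (p Z : ℕ) : ℕ := Nat.clog p (Z ^ (2 * nn Z) + 1)

/-- RO-K5a. `Z ^ (2 n) < p ^ ee ≤ p Z ^ (2 n)` and `1 ≤ ee`, for `p ≥ 2`, `Z ≥ 1`. -/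
theorem ee_spec {p Z : ℕ} (hp : 2 ≤ p) (hZ : 1 ≤ Z) :
    1 ≤ ee p Z ∧ Z ^ (2 * nn Z) < p ^ ee p Z ∧ p ^ ee p Z ≤ p * Z ^ (2 * nn Z) := by
  have h1 : 1 ≤ Z ^ (2 * nn Z) := Nat.one_le_pow _ _ hZ
  have h2 : Z ^ (2 * nn Z) + 1 ≤ p ^ ee p Z := Nat.le_pow_clog (by omega) _
  have h3 : 1 ≤ ee p Z := by
    by_contra h
    have h4 : ee p Z = 0 := by omega
    rw [h4, pow_zero] at h2
    omega
  refine ⟨h3, by omega, ?_⟩
  have h4 : p ^ (ee p Z).pred < Z ^ (2 * nn Z) + 1 :=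
    Nat.pow_pred_clog_lt_self (by omega) (by omega)
  obtain ⟨k, hk⟩ := Nat.exists_eq_add_of_le h3
  rw [hk] at h4 ⊢
  have h5 : (1 + k).pred = k := by simp [Nat.add_comm]
  rw [h5] at h4
  rw [pow_add, pow_one]
  exact Nat.mul_le_mul_left _ (by omega)

/-- The data attached to a prime `q`, for fixed `p` and `i`. -/
private def K5_Good (m p i e L q : ℕ) (y : ℕ × ℕ) : Prop :=
  (y.1 ≠ 0 ∧ y.2 ≠ 0 ∧ y.1.primeFactors ⊆ m.primeFactors ∧ y.2.primeFactors ⊆ m.primeFactors ∧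
      ¬ p ∣ y.1 ∧ ¬ p ∣ y.2 ∧
      ∀ l, y.1.factorization l ≤ L ∧ y.2.factorization l ≤ L) ∧
  (((y.1 * q ^ i : ℕ) : ZMod (p ^ e)) = (y.2 : ZMod (p ^ e)) ∨
      ((y.1 * q ^ i : ℕ) : ZMod (p ^ e)) = -(y.2 : ZMod (p ^ e)))

private lemma K5_exp_le {x l : ℕ} {C Λ : ℝ} (hx : x ≠ 0) (hC : (x : ℝ) ≤ C) (h : Real.log C ≤ Λ) :
    x.factorization l ≤ ⌊Λ / Real.log 2⌋₊ := by
  by_cases hl : l.Prime
  · apply Nat.le_floor
    have hlog2 : (0 : ℝ) < Real.log 2 := Real.log_pos (by norm_num)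
    rw [le_div_iff₀ hlog2]
    have h1 : 2 ^ x.factorization l ≤ x :=
      (Nat.pow_le_pow_left hl.two_le _).trans
        (Nat.le_of_dvd (Nat.pos_of_ne_zero hx) (Nat.ordProj_dvd x l))
    have h2 : ((2 : ℝ) ^ x.factorization l) ≤ C := by
      refine le_trans ?_ hC
      exact_mod_cast h1
    have h3 := Real.log_le_log (by positivity) h2
    rw [Real.log_pow] at h3
    linarith
  · rw [Nat.factorization_eq_zero_of_not_prime _ hl]
    exact Nat.zero_le _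

private lemma K5_main {Z m : ℕ} {Λ : ℝ} (hZ3 : 3 ≤ Z) (hmZ : m ≤ Z)
    (hs : (m.primeFactors.card : ℝ) * ((2 * nn Z + 1 : ℕ) * Real.log Z) + Real.log 2 ≤
      (Real.log Z) ^ 5)
    {q : ℕ} (hq : q.Prime) {t : ℕ × ℕ} (ht : Cop t) (hrad : rad (T t) = m * q)
    (h1 : (Real.log Z) ^ 5 < Real.log (c t)) (h2 : Real.log (c t) ≤ Λ) :
    ∃ p ∈ m.primeFactors, ∃ i ∈ Icc 1 ⌊Λ / Real.log 2⌋₊, q ≠ p ∧
      ∃ y : ℕ × ℕ, K5_Good m p i (ee p Z) ⌊Λ / Real.log 2⌋₊ q y := by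
  obtain ⟨E, x, F, i, hi, hE0, hx0, hF0, hEsub, hxsub, hFsub, hEx, hEF, hcE, hxq, hFle, hdiv⟩ :=
    data_of_prime ht hq hrad
  have hlog2 : (0 : ℝ) < Real.log 2 := Real.log_pos (by norm_num)
  have hlogZ : 1 < Real.log Z := by
    have h3 : Real.exp 1 < 3 := lt_trans Real.exp_one_lt_d9 (by norm_num)
    have h4 : (3 : ℝ) ≤ Z := by exact_mod_cast hZ3
    rw [Real.lt_log_iff_exp_lt (by linarith)]
    linarith
  have hcpos := ht.c_pos
  have hc : c t = ((t.1 + t.2 : ℕ) : ℝ) := rfl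
  have hE1 : c t ≤ 2 * E := by
    rw [hc]
    exact_mod_cast hcE
  have hEpos : (0 : ℝ) < E := by exact_mod_cast Nat.pos_of_ne_zero hE0
  have hlogE : Real.log (c t) ≤ Real.log 2 + Real.log E := by
    rw [← Real.log_mul (by norm_num) hEpos.ne']
    exact Real.log_le_log hcpos hE1
  -- `m` has a prime factor
  have hne : m.primeFactors.Nonempty := by
    rw [Finset.nonempty_iff_ne_empty]
    intro h
    rw [h, Finset.subset_empty, Nat.primeFactors_eq_empty] at hEsub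
    have hE1' : E = 1 := by
      rcases hEsub with h3 | h3
      · exact absurd h3 hE0
      · exact h3
    rw [hE1', Nat.cast_one, Real.log_one, add_zero] at hlogE
    have h3 : (1 : ℝ) ≤ (Real.log Z) ^ 5 := one_le_pow₀ hlogZ.le
    have h4 : Real.log 2 < 1 := lt_trans Real.log_two_lt_d9 (by norm_num)
    linarith
  -- the large prime power
  have hZpos : (0 : ℝ) < Z := by
    have : (3 : ℝ) ≤ Z := by exact_mod_cast hZ3
    linarith
  have hB : ((Z : ℝ) ^ (2 * nn Z + 1)) ^ m.primeFactors.card ≤ E := by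
    rw [← Real.log_le_log_iff (by positivity) hEpos, Real.log_pow, Real.log_pow]
    linarith
  obtain ⟨p, hp, hpE⟩ := exists_big_prime_power hE0 hEsub hne ((Z : ℝ) ^ (2 * nn Z + 1))
    (by positivity) hB
  have hpp : p.Prime := Nat.prime_of_mem_primeFactors hp
  have hpm : p ∣ m := Nat.dvd_of_mem_primeFactors hp
  have hm0 : m ≠ 0 := by
    rintro rfl
    simp at hp
  have hpZ : p ≤ Z := (Nat.le_of_dvd (Nat.pos_of_ne_zero hm0) hpm).trans hmZ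
  have hee := ee_spec (p := p) (Z := Z) hpp.two_le (by omega)
  have hpE' : Z ^ (2 * nn Z + 1) ≤ p ^ E.factorization p := by exact_mod_cast hpE
  have hle : ee p Z ≤ E.factorization p := by
    have h3 : p ^ ee p Z ≤ p ^ E.factorization p := by
      calc p ^ ee p Z ≤ p * Z ^ (2 * nn Z) := hee.2.2
        _ ≤ Z * Z ^ (2 * nn Z) := Nat.mul_le_mul_right _ hpZ
        _ = Z ^ (2 * nn Z + 1) := by ring
        _ ≤ p ^ E.factorization p := hpE'
    exact (Nat.pow_le_pow_iff_right hpp.one_lt).1 h3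
  have hdvdE : p ^ ee p Z ∣ E := (pow_dvd_pow p hle).trans (Nat.ordProj_dvd E p)
  have hpdE : p ∣ E := (dvd_pow_self p (by omega)).trans hdvdE
  -- sizes
  have hqi : 1 ≤ q ^ i := Nat.one_le_pow _ _ hq.pos
  have hxle : (x : ℝ) ≤ c t := by
    rw [hc]
    exact_mod_cast (Nat.le_mul_of_pos_right x hqi).trans hxq
  have hFle' : (F : ℝ) ≤ c t := by
    rw [hc]
    exact_mod_cast hFle
  have hiL : i ≤ ⌊Λ / Real.log 2⌋₊ := by
    have h3 : ((q ^ i : ℕ) : ℝ) ≤ c t := by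
      rw [hc]
      exact_mod_cast (Nat.le_mul_of_pos_left _ (Nat.pos_of_ne_zero hx0)).trans hxq
    have h4 := K5_exp_le (l := q) (by omega : q ^ i ≠ 0) h3 h2
    rwa [hq.factorization_pow, Finsupp.single_eq_same] at h4
  refine ⟨p, hp, i, mem_Icc.2 ⟨hi, hiL⟩, ?_, (x, F), ⟨hx0, hF0, hxsub, hFsub, ?_, ?_, ?_⟩, ?_⟩
  · rintro rfl
    have h3 := rad_squarefree (T t)
    rw [hrad] at h3
    have h4 : q * q ∣ m * q := Nat.mul_dvd_mul_right hpm q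
    exact hq.one_lt.ne' (Nat.isUnit_iff.1 (h3 q h4))
  · intro h3
    exact hpp.one_lt.ne' (Nat.eq_one_of_dvd_coprimes hEx hpdE h3)
  · intro h3
    exact hpp.one_lt.ne' (Nat.eq_one_of_dvd_coprimes hEF hpdE h3)
  · intro l
    exact ⟨K5_exp_le hx0 hxle h2, K5_exp_le hF0 hFle' h2⟩
  · have hd : ((p ^ ee p Z : ℕ) : ℤ) ∣ (E : ℤ) := by exact_mod_cast hdvdE
    rcases hdiv with h3 | h3
    · left
      have h4 := (ZMod.intCast_zmod_eq_zero_iff_dvd _ (p ^ ee p Z)).2 (hd.trans h3)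
      push_cast at h4 ⊢
      exact sub_eq_zero.1 h4
    · right
      have h4 := (ZMod.intCast_zmod_eq_zero_iff_dvd _ (p ^ ee p Z)).2 (hd.trans h3)
      push_cast at h4 ⊢
      exact eq_neg_of_add_eq_zero_left h4

/-- RO-K5b. Counting the primes `q` for fixed `m`: sum over `p` and over the exponent `i`.
PROOF. Let `Z0` come from `numerics` (and `Z0 ≥ 3`). For every `q ∈ Q` choose `t` and then
`E, x, F, i` by `data_of_prime`; `E ≥ (a + b) / 2` and `log c > (log Z) ^ 5` give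
`log E ≥ s (2 n + 1) log Z` with `s = ω(m)` (`omega_le`, `numerics`), so by
`exists_big_prime_power` with `B = Z ^ (2 n + 1)` there is `p ∈ m.primeFactors` with
`p ^ v_p(E) ≥ Z ^ (2 n + 1) ≥ p Z ^ (2 n) ≥ p ^ ee p Z` (`p ≤ m ≤ Z`), i.e. `p ^ ee p Z ∣ E`
(`E ≥ 2` gives `m.primeFactors.Nonempty`). Moreover `q ^ i ≤ c ≤ exp Λ` gives
`i ≤ ⌊Λ / log 2⌋₊`. So `Q` is the union over `p`, `i` of the sets of `q` with these choices, and
each has at most `n (1 + 2 gcd (2 i, φ(p ^ ee)))` elements by `kl_core` with `S0 = m.primeFactors`,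
`L = ⌊Λ / log 2⌋₊ ≤ 2 Z` (exponents of `x`, `F` are at most `log c / log 2`), `Y = Z`. Here
`q ≠ p` because `m q` is squarefree (`rad_squarefree`), `p` does not divide `x`, `F` (coprime to
`E`), and the integer divisibility by `E` gives the congruence in `ZMod (p ^ ee)`. -/
theorem kl_sum : ∃ Z0 : ℕ, ∀ (Z m : ℕ) (Λ : ℝ), Z0 ≤ Z → 1 ≤ m → m ≤ Z → 1 ≤ Λ → Λ ≤ Z →
    ∀ Q : Finset ℕ, (∀ q ∈ Q, q.Prime ∧ q ≤ Z ∧ ∃ t : ℕ × ℕ, Cop t ∧ rad (T t) = m * q ∧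
      (Real.log Z) ^ 5 < Real.log (c t) ∧ Real.log (c t) ≤ Λ) →
    Q.card ≤ ∑ p ∈ m.primeFactors, ∑ i ∈ Icc 1 ⌊Λ / Real.log 2⌋₊,
      nn Z * (1 + 2 * Nat.gcd (2 * i) (Nat.totient (p ^ ee p Z))) := by
  classical
  obtain ⟨Z1, hZ1⟩ := numerics
  refine ⟨max Z1 3, fun Z m Λ hZ hm hmZ hΛ1 hΛZ Q hQ => ?_⟩
  have hZ3 : 3 ≤ Z := (le_max_right _ _).trans hZ
  have hL : ⌊Λ / Real.log 2⌋₊ ≤ 2 * Z + 2 := by
    have hlog2 : (1 : ℝ) / 2 < Real.log 2 := lt_trans (by norm_num) Real.log_two_gt_d9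
    have h1 : Λ / Real.log 2 ≤ 2 * Z := by
      rw [div_le_iff₀ (by linarith)]
      have h2 : (0 : ℝ) ≤ Z := Nat.cast_nonneg _
      nlinarith
    have h2 : ((⌊Λ / Real.log 2⌋₊ : ℕ) : ℝ) ≤ Λ / Real.log 2 :=
      Nat.floor_le (div_nonneg (by linarith) (by linarith))
    have h3 : ((⌊Λ / Real.log 2⌋₊ : ℕ) : ℝ) ≤ ((2 * Z + 2 : ℕ) : ℝ) := by
      push_cast
      linarith
    exact_mod_cast h3
  have hnum := hZ1 Z ((le_max_left _ _).trans hZ) m.primeFactors.card ⌊Λ / Real.log 2⌋₊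
    (omega_le hm hmZ) hL
  set S : Finset (ℕ × ℕ) := m.primeFactors ×ˢ Icc 1 ⌊Λ / Real.log 2⌋₊ with hS
  let W : ℕ × ℕ → Finset ℕ := fun u =>
    Q.filter fun q => q ≠ u.1 ∧
      ∃ y : ℕ × ℕ, K5_Good m u.1 u.2 (ee u.1 Z) ⌊Λ / Real.log 2⌋₊ q y
  have hcov : Q ⊆ S.biUnion W := by
    intro q hq
    obtain ⟨hqp, hqZ, t, ht, hrad, h1, h2⟩ := hQ q hq
    obtain ⟨p, hp, i, hi, hne, hy⟩ := K5_main hZ3 hmZ hnum.2 hqp ht hrad h1 h2
    exact mem_biUnion.2 ⟨(p, i), mem_product.2 ⟨hp, hi⟩, mem_filter.2 ⟨hq, hne, hy⟩⟩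
  have hW : ∀ u ∈ S, (W u).card ≤
      nn Z * (1 + 2 * Nat.gcd (2 * u.2) (Nat.totient (u.1 ^ ee u.1 Z))) := by
    rintro ⟨p, i⟩ hu
    obtain ⟨hp, hi⟩ := mem_product.1 hu
    have hpp : p.Prime := Nat.prime_of_mem_primeFactors hp
    have hex : ∀ q : ℕ, ∃ y : ℕ × ℕ, q ∈ W (p, i) →
        K5_Good m p i (ee p Z) ⌊Λ / Real.log 2⌋₊ q y := by
      intro q
      by_cases hq : q ∈ W (p, i)
      · obtain ⟨y, hy⟩ := (mem_filter.1 hq).2.2
        exact ⟨y, fun _ => hy⟩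
      · exact ⟨(0, 0), fun h => absurd h hq⟩
    choose y hy using hex
    have hee := ee_spec (p := p) (Z := Z) hpp.two_le (by omega)
    exact kl_core p (ee p Z) i (nn Z) ⌊Λ / Real.log 2⌋₊ Z hpp hee.1 (mem_Icc.1 hi).1
      m.primeFactors (W (p, i))
      (fun q hq => ⟨(hQ q (mem_filter.1 hq).1).1, (hQ q (mem_filter.1 hq).1).2.1,
        (mem_filter.1 hq).2.1⟩)
      hnum.1 hee.2.1 (fun q => (y q).1) (fun q => (y q).2)
      (fun q hq => (hy q hq).1) (fun q hq => (hy q hq).2)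
  calc Q.card ≤ (S.biUnion W).card := card_le_card hcov
    _ ≤ ∑ u ∈ S, (W u).card := card_biUnion_le
    _ ≤ ∑ u ∈ S, nn Z * (1 + 2 * Nat.gcd (2 * u.2) (Nat.totient (u.1 ^ ee u.1 Z))) :=
        sum_le_sum hW
    _ = _ := by rw [hS, sum_product]

end Pool.Agent.Helper42.RO
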