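import Mathlib
import Pool.Agent.Helper42.RO.K5
import Pool.Agent.Helper76.EN.Class

set_option autoImplicit false

open Finset

namespace Pool.Agent.Helper42.RO

/-- Powers of `1 + log Z`. -/
private lemma pow_log_le {ε : ℝ} (hε : 0 < ε) {Z : ℕ} (hZ : 1 ≤ Z) :
    (1 + Real.log Z) ^ 6 ≤ (1 + 12 / ε) ^ 6 * (Z : ℝ) ^ (ε / 2) := by
  have hZ' : (1 : ℝ) ≤ Z := by exact_mod_cast hZ
  have h0 : (0 : ℝ) ≤ Real.log Z := Real.log_nonneg hZ'
  have h1 : Real.log Z ≤ (Z : ℝ) ^ (ε / 12) / (ε / 12) :=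
    Real.log_le_rpow_div (by positivity) (by positivity)
  have h2 : (1 : ℝ) ≤ (Z : ℝ) ^ (ε / 12) := Real.one_le_rpow hZ' (by positivity)
  have h3 : 1 + Real.log Z ≤ (1 + 12 / ε) * (Z : ℝ) ^ (ε / 12) := by
    have h4 : (Z : ℝ) ^ (ε / 12) / (ε / 12) = 12 / ε * (Z : ℝ) ^ (ε / 12) := by
      field_simp
    rw [h4] at h1
    linarith
  calc (1 + Real.log Z) ^ 6 ≤ ((1 + 12 / ε) * (Z : ℝ) ^ (ε / 12)) ^ 6 :=
        pow_le_pow_left₀ (by linarith) h3 6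
    _ = (1 + 12 / ε) ^ 6 * (Z : ℝ) ^ (ε / 2) := by
        rw [mul_pow, ← Real.rpow_natCast ((Z : ℝ) ^ (ε / 12)) 6, ← Real.rpow_mul (by positivity)]
        congr 2
        push_cast
        ring

private lemma nn_le {Z : ℕ} (hZ : 1 ≤ Z) : (nn Z : ℝ) ≤ 101 * (1 + Real.log Z) ^ 2 := by
  have hZ' : (1 : ℝ) ≤ Z := by exact_mod_cast hZ
  have h0 : (0 : ℝ) ≤ Real.log Z := Real.log_nonneg hZ'
  unfold nn
  push_cast
  have h1 := (Nat.ceil_lt_add_one (show 0 ≤ 100 * (Real.log Z) ^ 2 by positivity)).le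
  nlinarith

/-- The number of divisors of the order of the unit group. -/
private lemma card_div_le {p Z : ℕ} (hp : p.Prime) (hpZ : p ≤ Z) (hZ : 1 ≤ Z) :
    0 < Nat.totient (p ^ ee p Z) ∧
    ((Nat.totient (p ^ ee p Z)).divisors.card : ℝ) ≤
      300 * (1 + Real.log Z) ^ 3 * (p - 1).divisors.card := by
  obtain ⟨h1, h2, h3⟩ := ee_spec hp.two_le hZ
  have hZ' : (1 : ℝ) ≤ Z := by exact_mod_cast hZ
  have h0 : (0 : ℝ) ≤ Real.log Z := Real.log_nonneg hZ'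
  set e := ee p Z with he
  refine ⟨Nat.totient_pos.2 (pow_pos hp.pos _), ?_⟩
  have hcop : Nat.Coprime (p ^ (e - 1)) (p - 1) := by
    apply Nat.Coprime.pow_left
    rw [Nat.Prime.coprime_iff_not_dvd hp]
    intro hd
    have h4 := Nat.le_of_dvd (by have := hp.two_le; omega) hd
    have := hp.two_le
    omega
  rw [Nat.totient_prime_pow hp (by omega), Nat.Coprime.card_divisors_mul hcop,
    Nat.divisors_prime_pow hp, card_map, card_range]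
  have he1 : e - 1 + 1 = e := by omega
  rw [he1]
  push_cast
  -- the exponent
  have h4 : (2 : ℝ) ^ e ≤ (Z : ℝ) ^ (2 * nn Z + 1) := by
    have h5 : 2 ^ e ≤ Z ^ (2 * nn Z + 1) := by
      calc 2 ^ e ≤ p ^ e := Nat.pow_le_pow_left hp.two_le _
        _ ≤ p * Z ^ (2 * nn Z) := h3
        _ ≤ Z * Z ^ (2 * nn Z) := Nat.mul_le_mul_right _ hpZ
        _ = Z ^ (2 * nn Z + 1) := by rw [pow_succ]; ring
    exact_mod_cast h5
  have h5 : (e : ℝ) * Real.log 2 ≤ (2 * nn Z + 1 : ℝ) * Real.log Z := by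
    have h6 := Real.log_le_log (by positivity) h4
    rw [Real.log_pow, Real.log_pow] at h6
    push_cast at h6
    exact h6
  have h6 : (e : ℝ) ≤ 300 * (1 + Real.log Z) ^ 3 := by
    have h7 := nn_le hZ
    have h8 : (0.6931 : ℝ) < Real.log 2 := by
      have := Real.log_two_gt_d9
      linarith
    have h9 : (2 * nn Z + 1 : ℝ) * Real.log Z ≤ 203 * (1 + Real.log Z) ^ 3 := by
      have h10 : (2 * nn Z + 1 : ℝ) ≤ 203 * (1 + Real.log Z) ^ 2 := by nlinarith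
      calc (2 * nn Z + 1 : ℝ) * Real.log Z ≤ 203 * (1 + Real.log Z) ^ 2 * (1 + Real.log Z) := by
            apply mul_le_mul h10 (by linarith) h0 (by positivity)
        _ = 203 * (1 + Real.log Z) ^ 3 := by ring
    have h10 : (0 : ℝ) ≤ e := by positivity
    have h11 : (0 : ℝ) ≤ (1 + Real.log Z) ^ 3 := by positivity
    nlinarith
  exact mul_le_mul_of_nonneg_right h6 (by positivity)

private lemma sum_gcd_two_le (w I : ℕ) (hw : 0 < w) :
    ∑ i ∈ Icc 1 I, Nat.gcd (2 * i) w ≤ 2 * I * w.divisors.card := by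
  have h1 : ∑ i ∈ Icc 1 I, Nat.gcd (2 * i) w =
      ∑ D ∈ (Icc 1 I).image (fun i => 2 * i), Nat.gcd D w := by
    rw [sum_image]
    intro x _ y _ hxy
    have : 2 * x = 2 * y := hxy
    omega
  rw [h1]
  refine le_trans (sum_le_sum_of_subset ?_) (Pool.Agent.Helper76.EN.sum_gcd_le w (2 * I) hw)
  intro D hD
  rw [mem_image] at hD
  obtain ⟨i, hi, rfl⟩ := hD
  rw [mem_Icc] at hi ⊢
  omega

/-- RO-K6a. Size of the double sum. -/
theorem sum_bound_p (ε : ℝ) (hε : 0 < ε) : ∃ C : ℝ, 1 ≤ C ∧ ∀ (Z m : ℕ) (Λ : ℝ), 1 ≤ Z → 1 ≤ m →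
    m ≤ Z → 1 ≤ Λ → Λ ≤ Z →
    ((∑ p ∈ m.primeFactors, ∑ i ∈ Icc 1 ⌊Λ / Real.log 2⌋₊,
      nn Z * (1 + 2 * Nat.gcd (2 * i) (Nat.totient (p ^ ee p Z))) : ℕ) : ℝ) ≤
      C * (Z : ℝ) ^ ε * Λ := by
  obtain ⟨C1, hC1, hd⟩ := Pool.Agent.Helper94.Abc.divisor_bound (ε := ε / 4) (by positivity)
  refine ⟨606000 * C1 * (1 + 12 / ε) ^ 6, ?_, ?_⟩
  · have h1 : (1 : ℝ) ≤ (1 + 12 / ε) ^ 6 := by
      apply one_le_pow₀
      have : 0 < 12 / ε := by positivity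
      linarith
    nlinarith
  intro Z m Λ hZ hm hmZ hΛ hΛZ
  have hZ' : (1 : ℝ) ≤ Z := by exact_mod_cast hZ
  have h0 : (0 : ℝ) ≤ Real.log Z := Real.log_nonneg hZ'
  set ℓ : ℝ := 1 + Real.log Z with hℓ
  have hℓ1 : 1 ≤ ℓ := by linarith
  set I : ℕ := ⌊Λ / Real.log 2⌋₊ with hI
  have hlog2 : (0.6931 : ℝ) < Real.log 2 := by
    have := Real.log_two_gt_d9
    linarith
  have hIle : (I : ℝ) ≤ 2 * Λ := by
    have h1 : (I : ℝ) ≤ Λ / Real.log 2 := Nat.floor_le (by positivity)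
    refine h1.trans ?_
    rw [div_le_iff₀ (by linarith)]
    nlinarith
  -- the terms
  have hterm : ∀ p ∈ m.primeFactors,
      ((∑ i ∈ Icc 1 I, nn Z * (1 + 2 * Nat.gcd (2 * i) (Nat.totient (p ^ ee p Z))) : ℕ) : ℝ) ≤
      303000 * C1 * ℓ ^ 5 * (Z : ℝ) ^ (ε / 4) * Λ := by
    intro p hp
    have hpp := Nat.prime_of_mem_primeFactors hp
    have hpZ : p ≤ Z := (Nat.le_of_dvd hm (Nat.dvd_of_mem_primeFactors hp)).trans hmZ
    obtain ⟨hw, hdiv⟩ := card_div_le hpp hpZ hZ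
    set w := Nat.totient (p ^ ee p Z) with hwdef
    have hdp : ((p - 1).divisors.card : ℝ) ≤ C1 * (Z : ℝ) ^ (ε / 4) := by
      have h1 := hd (p - 1) (by have := hpp.two_le; omega)
      refine h1.trans ?_
      apply mul_le_mul_of_nonneg_left _ (by linarith)
      apply Real.rpow_le_rpow (by positivity) _ (by positivity)
      exact_mod_cast (show p - 1 ≤ Z by omega)
    have hsum : ∑ i ∈ Icc 1 I, nn Z * (1 + 2 * Nat.gcd (2 * i) w) =
        nn Z * (I + 2 * ∑ i ∈ Icc 1 I, Nat.gcd (2 * i) w) := by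
      rw [← mul_sum, sum_add_distrib, ← mul_sum]
      simp
    have hsum2 : ∑ i ∈ Icc 1 I, nn Z * (1 + 2 * Nat.gcd (2 * i) w) ≤
        nn Z * (5 * I * w.divisors.card) := by
      rw [hsum]
      apply Nat.mul_le_mul_left
      have h1 := sum_gcd_two_le w I hw
      have h2 : 1 ≤ w.divisors.card := Finset.card_pos.2 ⟨1, by simp [hw.ne']⟩
      nlinarith
    have h3 : ((∑ i ∈ Icc 1 I, nn Z * (1 + 2 * Nat.gcd (2 * i) w) : ℕ) : ℝ) ≤
        (nn Z : ℝ) * (5 * I * w.divisors.card) := by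
      exact_mod_cast hsum2
    refine h3.trans ?_
    have h4 : (w.divisors.card : ℝ) ≤ 300 * ℓ ^ 3 * (C1 * (Z : ℝ) ^ (ε / 4)) :=
      hdiv.trans (mul_le_mul_of_nonneg_left hdp (by positivity))
    calc (nn Z : ℝ) * (5 * I * w.divisors.card)
        ≤ (101 * ℓ ^ 2) * (5 * (2 * Λ) * (300 * ℓ ^ 3 * (C1 * (Z : ℝ) ^ (ε / 4)))) := by
          apply mul_le_mul (nn_le hZ) _ (by positivity) (by positivity)
          apply mul_le_mul _ h4 (by positivity) (by positivity)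
          linarith
      _ = 303000 * C1 * ℓ ^ 5 * (Z : ℝ) ^ (ε / 4) * Λ := by ring
  have hcard : (m.primeFactors.card : ℝ) ≤ 2 * ℓ := by
    have h1 := omega_le hm hmZ
    refine h1.trans ?_
    rw [div_le_iff₀ (by linarith)]
    nlinarith
  have hlhs : ((∑ p ∈ m.primeFactors, ∑ i ∈ Icc 1 I,
      nn Z * (1 + 2 * Nat.gcd (2 * i) (Nat.totient (p ^ ee p Z))) : ℕ) : ℝ) ≤
      m.primeFactors.card * (303000 * C1 * ℓ ^ 5 * (Z : ℝ) ^ (ε / 4) * Λ) := by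
    rw [Nat.cast_sum, ← nsmul_eq_mul]
    exact sum_le_card_nsmul _ _ _ hterm
  refine hlhs.trans ?_
  have h5 := pow_log_le hε hZ
  have h6 : (Z : ℝ) ^ (ε / 2) * (Z : ℝ) ^ (ε / 4) ≤ (Z : ℝ) ^ ε := by
    rw [← Real.rpow_add (by linarith)]
    apply Real.rpow_le_rpow_of_exponent_le hZ'
    linarith
  have hpos1 : (0 : ℝ) ≤ (Z : ℝ) ^ (ε / 4) := by positivity
  have hC0 : (0 : ℝ) ≤ C1 := by linarith
  calc (m.primeFactors.card : ℝ) * (303000 * C1 * ℓ ^ 5 * (Z : ℝ) ^ (ε / 4) * Λ)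
      ≤ (2 * ℓ) * (303000 * C1 * ℓ ^ 5 * (Z : ℝ) ^ (ε / 4) * Λ) := by
        apply mul_le_mul_of_nonneg_right hcard (by positivity)
    _ = 606000 * C1 * (ℓ ^ 6) * (Z : ℝ) ^ (ε / 4) * Λ := by ring
    _ ≤ 606000 * C1 * ((1 + 12 / ε) ^ 6 * (Z : ℝ) ^ (ε / 2)) * (Z : ℝ) ^ (ε / 4) * Λ := by
        gcongr
    _ = 606000 * C1 * (1 + 12 / ε) ^ 6 * ((Z : ℝ) ^ (ε / 2) * (Z : ℝ) ^ (ε / 4)) * Λ := by ring
    _ ≤ 606000 * C1 * (1 + 12 / ε) ^ 6 * (Z : ℝ) ^ ε * Λ := by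
        gcongr

end Pool.Agent.Helper42.RO
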