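import Mathlib
import Pool.Agent.Helper42.RO.K5
import Pool.Agent.Helper42.RO.K6_a
import Pool.Agent.Helper76.EN.Class

set_option autoImplicit false

open Finset

namespace Pool.Agent.Helper42.RO

/-- RO-K6a. Size of the double sum.
PROOF. `∑_{i ≤ I} gcd (2 i, n) ≤ ∑_{D ≤ 2 I} gcd (D, n) ≤ 2 I d(n)`
(`Pool.Agent.Helper76.EN.sum_gcd_le`), with `n = φ(p ^ e) = p ^ (e - 1) (p - 1)`, so
`d(n) ≤ e d(p - 1)` (`Nat.Coprime.card_divisors_mul`), `e ≤ log (p Z ^ (2 n)) / log 2` is at most a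
power of `1 + log Z`, `d(p - 1) ≤ C Z ^ (ε / 4)` (`Pool.Agent.Helper94.Abc.divisor_bound`),
`I ≤ 2 Λ`, `ω(m) ≤ 2 log Z + 1`, `nn Z ≤ 200 (1 + log Z) ^ 2`, and powers of `1 + log Z` are
`O(Z ^ (ε / 4))`. -/
theorem sum_bound (ε : ℝ) (hε : 0 < ε) : ∃ C : ℝ, 1 ≤ C ∧ ∀ (Z m : ℕ) (Λ : ℝ), 1 ≤ Z → 1 ≤ m →
    m ≤ Z → 1 ≤ Λ → Λ ≤ Z →
    ((∑ p ∈ m.primeFactors, ∑ i ∈ Icc 1 ⌊Λ / Real.log 2⌋₊,
      nn Z * (1 + 2 * Nat.gcd (2 * i) (Nat.totient (p ^ ee p Z))) : ℕ) : ℝ) ≤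
      C * (Z : ℝ) ^ ε * Λ := by
  exact sum_bound_p ε hε

end Pool.Agent.Helper42.RO
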